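import Pool.Agent.MP_5baa61_gt.JK.Hit

/-! Clubs and stationary classes of ordinals, names of ordinals, stationarily many conditions. -/

namespace Pool.Agent.MP_5baa61_gt.JK

open Set Function Pool.Agent.MP_b60a07_lc.H92
open scoped Classical

universe v

/-- `S` contains the positive closure points of a function. -/
def Club (S : Od → Prop) : Prop := ∃ F : Od → Od, ∀ g, 0 < g → (∀ a < g, F a < g) → S g

/-- `S` meets every club. -/
def Stat (S : Od → Prop) : Prop := ¬ Club fun g => ¬ S g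

variable {S T : Od → Prop}

theorem Club.mono (h : Club S) (e : ∀ g, S g → T g) : Club T :=
  let ⟨F, hF⟩ := h; ⟨F, fun g h1 h2 => e g (hF g h1 h2)⟩

theorem club_of_all (h : ∀ g, S g) : Club S := ⟨id, fun g _ _ => h g⟩

theorem club_gt (δ : Od) : Club fun g => δ < g := ⟨fun _ => δ, fun _ h1 h2 => h2 0 h1⟩

theorem club_cl (F : Od → Od) : Club fun g => ∀ a < g, F a < g := ⟨F, fun _ _ h => h⟩

/-- Diagonal intersection. -/
theorem Club.diag {S : Od → Od → Prop} (h : ∀ a, Club (S a)) : Club fun g => ∀ a < g, S a g := by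
  choose F hF using h
  choose B hB using fun c : Od => exists_bd fun z : Iic c × Iic c => F z.1.1 z.2.1
  exact ⟨B, fun g h1 h2 a ha => hF a g h1 fun c hc =>
    (hB (max a c) (⟨a, le_max_left a c⟩, ⟨c, le_max_right a c⟩)).trans (h2 _ (max_lt ha hc))⟩

theorem Club.all {ι : Type v} [Small.{0} ι] {S : ι → Od → Prop} (h : ∀ i, Club (S i)) :
    Club fun g => ∀ i, S i g := by
  choose F hF using h
  choose B hB using fun c : Od => exists_bd fun i => F i c
  exact ⟨B, fun g h1 h2 i => hF i g h1 fun c hc => (hB c i).trans (h2 c hc)⟩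

theorem Club.and (h : Club S) (h' : Club T) : Club fun g => S g ∧ T g :=
  (Club.all (S := fun i : Bool => cond i S T) fun i => by cases i; exacts [h', h]).mono
    fun _ h => ⟨h true, h false⟩

/-- Diagonal intersection over finite sets. -/
theorem Club.diagF {S : Finset Od → Od → Prop} (h : ∀ a, Club (S a)) :
    Club fun g => ∀ a : Finset Od, (∀ x ∈ a, x < g) → S a g := by
  have : ∀ c : Od, Club fun g => ∀ a : Finset (Iic c), S (a.image Subtype.val) g := fun c =>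
    have := small_of_injective (Finset.coe_injective (α := Iic c))
    Club.all fun a => h _
  refine ((Club.diag this).and (club_gt 0)).mono fun g hg a ha => ?_
  have h1 : a.sup id < g := (Finset.sup_lt_iff hg.2).2 ha
  have h2 := hg.1 _ h1 (a.subtype fun x => x ∈ Iic (a.sup id))
  refine (Finset.ext fun x => ?_ : _ = a) ▸ h2
  simp only [Finset.mem_image, Finset.mem_subtype]
  exact ⟨fun ⟨_, h3, h4⟩ => h4 ▸ h3, fun hx => ⟨⟨x, Finset.le_sup (f := id) hx⟩, hx, rfl⟩⟩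

theorem Club.exists (h : Club S) : ∃ g, S g := by
  obtain ⟨F, hF⟩ := h
  choose B hB using fun c : Od => exists_bd fun a : Iic c => max c (F a.1)
  let d : ℕ → Od := fun n => Nat.rec 0 (fun _ x => B x) n
  have hle : ∀ n, d n ≤ ⨆ n, d n := Ordinal.le_iSup d
  refine ⟨⨆ n, d n, hF _ ((max_lt_iff.1 (hB 0 ⟨0, self_mem_Iic⟩)).1.trans_le (hle 1)) fun a ha => ?_⟩
  obtain ⟨n, hn⟩ := Ordinal.lt_iSup_iff.1 ha
  exact (max_lt_iff.1 (hB (d n) ⟨a, hn.le⟩)).2.trans_le (hle (n + 1))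

theorem Club.ub (h : Club S) : Ub S := fun δ =>
  let ⟨g, h1, h2⟩ := ((club_gt δ).and h).exists; ⟨g, h1, h2⟩

theorem Stat.mono (h : Stat S) (e : ∀ g, S g → T g) : Stat T :=
  fun h' => h (h'.mono fun g h1 h2 => h1 (e g h2))

theorem Stat.inter (h : Stat S) (h' : Club T) : Stat fun g => S g ∧ T g :=
  fun h1 => h ((h1.and h').mono fun _ h2 h3 => h2.1 ⟨h3, h2.2⟩)

theorem Stat.exists (h : Stat S) : ∃ g, S g := by
  by_contra hn
  exact h (club_of_all fun g hg => hn ⟨g, hg⟩)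

theorem Club.stat (h : Club S) : Stat S := fun h' =>
  let ⟨_, h1, h2⟩ := (h.and h').exists; h2 h1

theorem Stat.fiber {ι : Type v} [Small.{0} ι] (h : Stat S) {R : Od → ι → Prop}
    (e : ∀ g, S g → ∃ i, R g i) : ∃ i, Stat fun g => S g ∧ R g i := by
  by_contra hn
  simp only [Stat, not_exists, not_not] at hn
  exact h ((Club.all hn).mono fun g h1 h2 => let ⟨i, hi⟩ := e g h2; h1 i ⟨h2, hi⟩)

theorem Stat.fodor (h : Stat S) {R : Od → Od → Prop} (e : ∀ g, S g → ∃ a < g, R g a) :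
    ∃ a, Stat fun g => S g ∧ R g a := by
  by_contra hn
  simp only [Stat, not_exists, not_not] at hn
  exact h ((Club.diag hn).mono fun g h1 h2 => let ⟨a, h3, h4⟩ := e g h2; h1 a h3 ⟨h2, h4⟩)

variable {b c : Rl} [PO b] {p q : U} {P Q : Od → Set U → Prop}

/-- `ε` is a name of an ordinal. -/
structure NO (b : Rl) (ε : Set U → Od) : Prop where
  loc : ∀ G, ε (res b G) = ε G
  val : ∀ q, b q q → ∃ r z, b r q ∧ Fc b r fun G => ε G = z

theorem no_const (z : Od) : NO b fun _ => z :=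
  ⟨fun _ => rfl, fun q hq => ⟨q, z, hq, .of_all fun _ => rfl⟩⟩

theorem NO.ext [PO c] {ε : Set U → Od} (h : NO b ε) (e : Ext b c) : NO c ε := by
  refine ⟨fun G => by rw [← h.loc, res_res e, h.loc], fun q hq => ?_⟩
  obtain ⟨π, p1, -, -, p4⟩ := e.red q hq
  obtain ⟨r, z, r1, r2⟩ := h.val π p1
  obtain ⟨s, s1, s2⟩ := p4 r r1
  exact ⟨s, z, s2, ((ext_fc e (PO.l r1) r2).mono s1).imp fun G hG => (h.loc G).symm.trans hG⟩

/-- Reading a family of names at a name of an ordinal. -/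
theorem NO.sel {X : Type v} [MeasurableSpace X] {ε : Set U → Od} (h : NO b ε)
    {F : Od → Set U → X} (hF : ∀ z, NB b (F z)) : NB b fun G => F (ε G) G := fun s hs => by
  refine ⟨dec_local fun q hq => ?_, fun G => ?_⟩
  · obtain ⟨r, z, r1, r2⟩ := h.val q hq
    exact ⟨r, fun G => F z G ∈ s, r1, (hF z hs).1, r2.imp fun G hG => by
      change F (ε G) G ∈ s ↔ _
      rw [hG]⟩
  · change F (ε (res b G)) (res b G) ∈ s ↔ F (ε G) G ∈ s
    rw [h.loc]
    exact (hF _ hs).2 G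

/-- The same when only the values below `g` are controlled. -/
theorem NO.sel_lt {X : Type v} [MeasurableSpace X] {ε : Set U → Od} (h : NO b ε) {g : Od}
    {F : ∀ z, z < g → Set U → X} (hF : ∀ z hz, NB b (F z hz)) (x0 : X) :
    NB b fun G => if hz : ε G < g then F (ε G) hz G else x0 :=
  h.sel (F := fun z G => if hz : z < g then F z hz G else x0) fun z => by
    by_cases hz : z < g
    · simpa only [dif_pos hz] using hF z hz
    · simpa only [dif_neg hz] using nb_const x0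

theorem NO.rel {ε : Set U → Od} (h : NO b ε) (R : Od → Prop) : NB b fun G => R (ε G) :=
  h.sel (F := fun z _ => R z) fun _ => nb_const _

theorem NO.comp {ε : Set U → Od} (h : NO b ε) {F : Od → Set U → Od} (hF : ∀ z, NO b (F z)) :
    NO b fun G => F (ε G) G := by
  refine ⟨fun G => by rw [h.loc, (hF _).loc], fun q hq => ?_⟩
  obtain ⟨r, z, r1, r2⟩ := h.val q hq
  obtain ⟨s, w, s1, s2⟩ := (hF z).val r (PO.l r1)
  exact ⟨s, w, PO.tr s1 r1, ((r2.mono s1).and s2).imp fun G h => by rw [h.1, h.2]⟩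

/-- Finitely many values are decided by densely many conditions. -/
theorem NO.vals {ε : Set U → ℕ → Od} (h : ∀ j, NO b fun G => ε G j) (l : ℕ) (q : U) (hq : b q q) :
    ∃ (r : U) (z : ℕ → Od), b r q ∧ Fc b r fun G => ∀ j < l, ε G j = z j := by
  induction l with
  | zero => exact ⟨q, fun _ => 0, hq, .of_all fun _ _ h => absurd h (Nat.not_lt_zero _)⟩
  | succ l ih =>
    obtain ⟨r, z, r1, r2⟩ := ih
    obtain ⟨s, w, s1, s2⟩ := (h l).val r (PO.l r1)
    refine ⟨s, update z l w, PO.tr s1 r1, ((r2.mono s1).and s2).imp fun G h j hj => ?_⟩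
    rcases (Nat.lt_succ_iff.1 hj).eq_or_lt with rfl | hj
    · rw [update_self, h.2]
    · rw [update_of_ne hj.ne, h.1 j hj]

/-- For stationarily many `g` a condition below `p` forces `P g`. -/
def SF (b : Rl) (p : U) (P : Od → Set U → Prop) : Prop :=
  Stat fun g => ∃ r, b r p ∧ Fc b r (P g)

theorem club_or (d : ∀ g, Dec b (P g)) :
    (Club fun g => Fc b p (P g)) ∨ SF b p fun g G => ¬ P g G := by
  by_cases h : Club fun g => Fc b p (P g)
  · exact .inl h
  · exact .inr fun h' => h (h'.mono fun g hg => (d g).fc fun r hr e => hg ⟨r, hr, e⟩)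

omit [PO b] in
theorem sf_of_club (hp : b p p) (h : Club fun g => Fc b p (P g)) : SF b p P :=
  h.stat.mono fun _ h => ⟨p, hp, h⟩

theorem SF.and (h : SF b p P) (e : Club fun g => Fc b p (Q g)) :
    SF b p fun g G => P g G ∧ Q g G :=
  (h.inter e).mono fun _ ⟨⟨r, h1, h2⟩, h3⟩ => ⟨r, h1, h2.and (h3.mono h1)⟩

omit [PO b] in
theorem SF.imp (h : SF b p P) (e : ∀ g G, P g G → Q g G) : SF b p Q :=
  Stat.mono h fun g ⟨r, h1, h2⟩ => ⟨r, h1, h2.imp (e g)⟩

theorem SF.mp (h : SF b p P) (e : Club fun g => Fc b p fun G => P g G → Q g G) :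
    SF b p fun g G => P g G ∧ Q g G := (h.and e).imp fun _ _ h => ⟨h.1, h.2 h.1⟩

theorem SF.exists (h : SF b p P) : ∃ g G, P g G :=
  let ⟨g, _, h1, h2⟩ := Stat.exists h; let ⟨G, _, _, h3⟩ := h2.exists (PO.l h1); ⟨g, G, h3⟩

theorem SF.fiber {ι : Type} [Countable ι] {R : Od → ι → Set U → Prop}
    (h : SF b p fun g G => P g G ∧ ∃ i, R g i G) (d : ∀ g i, Dec b (R g i)) :
    ∃ i, SF b p fun g G => P g G ∧ R g i G := by
  obtain ⟨i, hi⟩ := Stat.fiber h (R := fun g i => ∃ r, b r p ∧ Fc b r fun G => P g G ∧ R g i G)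
    fun g ⟨r, h1, h2⟩ => by
      obtain ⟨s, s1, i, s2⟩ := (h2.imp fun _ h => h.2).ex (d g) r (PO.l h1)
      exact ⟨i, s, PO.tr s1 h1, ((h2.mono s1).imp fun _ h => h.1).and s2⟩
  exact ⟨i, hi.mono fun _ h => h.2⟩

theorem SF.or {R : Od → Set U → Prop} (h : SF b p fun g G => P g G ∧ (Q g G ∨ R g G))
    (d : ∀ g, Dec b (Q g)) :
    (SF b p fun g G => P g G ∧ Q g G) ∨ SF b p fun g G => P g G ∧ R g G := by
  obtain ⟨i, hi⟩ := SF.fiber (P := fun g G => P g G ∧ (Q g G ∨ R g G))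
    (R := fun g (i : Bool) => cond i (Q g) fun G => ¬ Q g G)
    (h.imp fun g G h => ⟨h, (em (Q g G)).elim (fun e => ⟨true, e⟩) fun e => ⟨false, e⟩⟩)
    fun g i => by cases i; exacts [(d g).not, d g]
  cases i
  · exact .inr (hi.imp fun _ _ h => ⟨h.1.1, h.1.2.resolve_left h.2⟩)
  · exact .inl (hi.imp fun _ _ h => ⟨h.1.1, h.2⟩)

theorem SF.fodor {ε : Od → Set U → Od} (h : SF b p fun g G => P g G ∧ ε g G < g)
    (d : ∀ g, NO b (ε g)) : ∃ z, SF b p fun g G => P g G ∧ ε g G = z := by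
  obtain ⟨z, hz⟩ := Stat.fodor h (R := fun g z => ∃ r, b r p ∧ Fc b r fun G => P g G ∧ ε g G = z)
    fun g ⟨r, h1, h2⟩ => by
      obtain ⟨s, z, s1, s2⟩ := (d g).val r (PO.l h1)
      have h3 := (h2.mono s1).and s2
      exact ⟨z, (h3.imp (T := fun _ => z < g) fun _ h => h.2 ▸ h.1.2).const (PO.l s1), s,
        PO.tr s1 h1, h3.imp fun _ h => ⟨h.1.1, h.2⟩⟩
  exact ⟨z, hz.mono fun _ h => h.2⟩

/-- The first `l` values of regressive names are fixed on a stationary class. -/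
theorem SF.fodor_lt {ε : Od → Set U → ℕ → Od} (h : SF b p fun g G => P g G ∧ ∀ j, ε g G j < g)
    (d : ∀ g j, NO b fun G => ε g G j) (l : ℕ) :
    ∃ z : ℕ → Od, SF b p fun g G => P g G ∧ ∀ j < l, ε g G j = z j := by
  suffices ∃ z : ℕ → Od, SF b p fun g G => (P g G ∧ ∀ j, ε g G j < g) ∧ ∀ j < l, ε g G j = z j from
    let ⟨z, hz⟩ := this; ⟨z, hz.imp fun _ _ h => ⟨h.1.1, h.2⟩⟩
  induction l with
  | zero => exact ⟨fun _ => 0, h.imp fun _ _ h => ⟨h, fun _ h => absurd h (Nat.not_lt_zero _)⟩⟩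
  | succ l ih =>
    obtain ⟨z, hz⟩ := ih
    obtain ⟨w, hw⟩ := SF.fodor (ε := fun g G => ε g G l) (hz.imp fun _ _ h => ⟨h, h.1.2 l⟩)
      fun g => d g l
    refine ⟨update z l w, hw.imp fun g G h => ⟨h.1.1, fun j hj => ?_⟩⟩
    rcases (Nat.lt_succ_iff.1 hj).eq_or_lt with rfl | hj
    · rw [update_self, h.2]
    · rw [update_of_ne hj.ne, h.1.2 j hj]

/-- If unboundedly many statements can be forced, a condition forces infinitely many of them
below a bound. -/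
theorem ub_inf (hb : Good b) (h : Ub fun ξ => ∃ r, b r p ∧ Fc b r (P ξ)) :
    ∃ q δ, b q p ∧ Fc b q fun G => {ξ | ξ < δ ∧ P ξ G}.Infinite := by
  obtain ⟨β, hβ⟩ := hb.cc.bnd hb.l hb.tr (fun i z => b z z ∧ Fc b z (P i))
    fun i x y h1 h2 => ⟨hb.l h1, h2.2.mono h1⟩
  obtain ⟨i, i1, r, r1, r2⟩ := h β
  obtain ⟨q, q1, q2⟩ := hβ r i i1 ⟨hb.l r1, r2⟩ (hb.l r1)
  obtain ⟨s, hs⟩ := hb.sz
  have key : ∀ δ, ∃ δ', δ < δ' ∧ Fc b q fun G => ∃ ξ, δ < ξ ∧ ξ < δ' ∧ P ξ G := fun δ => by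
    obtain ⟨γ, hγ⟩ := hb.nice hs fun z => ∃ i, δ < i ∧ Fc b z (P i)
    have : ∀ j : Iic γ, ∃ i, (∃ i, δ < i ∧ Fc b (s j) (P i)) → δ < i ∧ Fc b (s j) (P i) :=
      fun j => (em _).elim (fun ⟨i, h⟩ => ⟨i, fun _ => h⟩) fun h => ⟨0, fun e => absurd e h⟩
    choose f hf using this
    obtain ⟨δ', h1⟩ := exists_bd fun z : Iic γ => max δ (f z)
    refine ⟨δ', (max_lt_iff.1 (h1 ⟨γ, self_mem_Iic⟩)).1, .glue fun y hy => ?_⟩
    obtain ⟨z, z1, i, z2, z3⟩ := q2 δ y hy
    obtain ⟨j, j1, j2, u, u1, u2⟩ := hγ z z3.1 ⟨i, z2, z3.2⟩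
    have h2 := hf ⟨j, j1⟩ j2
    exact ⟨u, hb.tr u1 z1, (h2.2.mono u2).imp fun G hG => 
      ⟨_, h2.1, (max_lt_iff.1 (h1 ⟨j, j1⟩)).2, hG⟩⟩
  choose F f1 f2 using key
  let d : ℕ → Od := fun n => Nat.rec 0 (fun _ x => F x) n
  have hd : StrictMono d := strictMono_nat_of_lt_succ fun n => f1 _
  obtain ⟨δ, hδ⟩ := exists_bd d
  refine ⟨q, δ, hb.tr q1 r1, (Fc.all fun n => f2 (d n)).imp fun G hG => ?_⟩
  choose ξ x1 x2 x3 using hG
  refine infinite_of_injective_forall_mem (f := ξ) (StrictMono.injective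
    (strictMono_nat_of_lt_succ fun n => (x2 n).trans (x1 (n + 1)))) fun n =>
      ⟨(x2 n).trans (hδ (n + 1)), x3 n⟩

end Pool.Agent.MP_5baa61_gt.JK
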