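import Pool.Agent.MP_5baa61_gt.JK.Hit

/-! Reflection of a structure on the reals of the final model to a stage. -/

namespace Pool.Agent.MP_5baa61_gt.JK

open Set Function Pool.Agent.MP_b60a07_lc.H92
open scoped Classical

abbrev RR : Type := ℕ → Prop

/-- A list of statements: for every real `x` there is a real `y` with `D i x y t`, where `t n`
says that the real `ψ i n x y` is marked. -/
structure Axs where
  ψ : ℕ → ℕ → RR → RR → RR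
  D : ℕ → RR → RR → RR → Prop
  mψ : ∀ i n, Measurable fun z : RR × RR => ψ i n z.1 z.2
  mD : ∀ i, Measurable fun z : (RR × RR) × RR => D i z.1.1 z.1.2 z.2

/-- The condition `p` forces that the set of reals named by `κ` satisfies the statements `C`. -/
structure Mdl (C : Axs) (b : Rl) [PO b] (p : U) (κ : (Set U → RR) → Set U → Prop) : Prop where
  nb : ∀ f, NB b (κ f)
  cg : ∀ f g q, b q q → NB b f → NB b g → (Fc b q fun G => f G = g G) →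
    Fc b q fun G => κ f G ↔ κ g G
  ax : ∀ i (f : Set U → RR), NB b f → ∃ g : Set U → RR, NB b g ∧ Fc b p fun G =>
    C.D i (f G) (g G) fun n => κ (fun G => C.ψ i n (f G) (g G)) G

/-- Every model at a stage can be killed by a further stage. -/
def Main (K : Kind) (C : Axs) : Prop :=
  ∀ (s : St K) p κ, s.b p p → Mdl C s.b p κ → ∃ (s' : St K) (q : U), s.le s' ∧ s'.b q p ∧
    ∀ (s'' : St K) κ', s'.le s'' → Mdl C s''.b q κ' →
      (∀ f, NB s.b f → Fc s''.b q fun G => κ' f G ↔ κ f G) → False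

variable {K : Kind} {y z : QQ K} {s : St K} {H : Set (QQ K)} {S : Set U → Prop}

/-- The second coordinates of the conditions of a filter. -/
def pr (H : Set (QQ K)) : Set U := QQ.p '' H

theorem mem_pr (hH : Flt leQ H) (hz : z ∈ H) (h : s.le z.s) {q : U} (m : s.b q q) :
    q ∈ pr H ↔ (⟨s, q, m⟩ : QQ K) ∈ H := by
  refine ⟨fun ⟨w, h1, h2⟩ => ?_, fun h => ⟨_, h, rfl⟩⟩
  obtain ⟨v, v1, v2, v3⟩ := hH.dir _ hz _ h1
  exact hH.up _ v1 _ ⟨h.trans v2.1, h2 ▸ v3.2⟩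

theorem redQ (z : QQ K) (h : s.le z.s) : ∃ π m, leQ z ⟨s, π, m⟩ ∧
    (∀ q, s.b q q → z.s.b z.p q → s.b π q) ∧
    ∀ q m', s.b q π → ∃ w, leQ w z ∧ leQ w ⟨s, q, m'⟩ := by
  obtain ⟨π, h1, h2, h3, h4⟩ := h.1.red _ z.m
  refine ⟨π, h1, ⟨h, h2⟩, h3, fun q _ hq => ?_⟩
  obtain ⟨t, t1, t2⟩ := h4 q hq
  exact ⟨⟨z.s, t, z.s.g.l t1⟩, ⟨z.s.refl, t2⟩, h, t1⟩

theorem pr_flt (hH : Flt leQ H) (hz : z ∈ H) (h : s.le z.s) : Flt s.b (res s.b (pr H)) := by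
  refine ⟨fun p hp q hq => ?_, fun p hp q e => ⟨(mem_pr hH hz h (s.g.r e)).2
    (hH.up _ ((mem_pr hH hz h hp.2).1 hp.1) _ ⟨s.refl, e⟩), s.g.r e⟩⟩
  obtain ⟨v, v1, v2, v3⟩ := hH.dir _ ((mem_pr hH hz h hp.2).1 hp.1) _ ((mem_pr hH hz h hq.2).1 hq.1)
  obtain ⟨π, m, p1, p2, -⟩ := redQ v v2.1
  exact ⟨π, ⟨⟨_, hH.up _ v1 _ p1, rfl⟩, m⟩, p2 p hp.2 v2.2, p2 q hq.2 v3.2⟩

theorem fc_lift (hS : NB y.s.b S) (h : Fc y.s.b y.p S) : Fc leQ y fun H => S (pr H) := by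
  obtain ⟨D, h1, h2⟩ := h
  refine ⟨fun n z => ∃ d m, D n d ∧ leQ z ⟨y.s, d, m⟩, fun n z hz => ?_, fun H hH hy h4 =>
    ((nb_iff.1 hS).2 _).1 (h2 _ (pr_flt hH hy y.s.refl) ⟨⟨y, hy, rfl⟩, y.m⟩ fun n => ?_)⟩
  · obtain ⟨π, m, -, p2, p3⟩ := redQ z hz.1
    obtain ⟨d, d1, d2⟩ := h1 n π (p2 _ y.m hz.2)
    obtain ⟨w, w1, w2⟩ := p3 d (y.s.g.l d1) d1
    exact ⟨w, w1, d, _, d2, w2⟩
  · obtain ⟨z, z1, d, m, d2, d3⟩ := h4 n
    exact ⟨d, ⟨⟨_, hH.up _ z1 _ d3, rfl⟩, m⟩, d2⟩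

theorem fc_drop (hS : NB y.s.b S) (h : Fc leQ y fun H => S (pr H)) : Fc y.s.b y.p S :=
  hS.dec.fc fun r hr h' => Fc.absurd (lrefl (⟨y.s, r, y.s.g.l hr⟩ : QQ K))
    (h.mono ⟨y.s.refl, hr⟩) (fc_lift (y := ⟨y.s, r, y.s.g.l hr⟩) hS.not h')

theorem nm_lift {X : Type} [MeasurableSpace X] [Nonempty X] {f : Set U → X} (hf : NB s.b f) :
    ∃ Φ, Nm leQ Φ ∧ ∀ y : QQ K, s.le y.s → Fc leQ y fun H => Φ H = f (pr H) := by
  let Φ : Set (QQ K) → X := fun H => if ∃ y ∈ H, s.le y.s then f (pr H) else Classical.arbitrary X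
  have key : ∀ y : QQ K, s.le y.s → Fc leQ y fun H => Φ H = f (pr H) := fun y hy =>
    Fc.self.imp fun H h => if_pos ⟨y, h, hy⟩
  refine ⟨Φ, fun t ht z _ => ?_, key⟩
  by_cases hc : ∃ w, leQ w z ∧ s.le w.s
  · obtain ⟨w, w1, w2⟩ := hc
    have h1 : NB w.s.b fun G => f G ∈ t := (hf.ext w2.1).comp (measurableSet_setOfPred.1 ht)
    obtain ⟨r, r1, r2⟩ := h1.dec w.p w.m
    let v : QQ K := ⟨w.s, r, w.s.g.l r1⟩
    refine ⟨v, ltrans ⟨w.s.refl, r1⟩ w1, r2.imp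
      (fun h => ((fc_lift (y := v) h1 h).and (key v w2)).imp fun H h => ?_)
      fun h => ((fc_lift (y := v) h1.not h).and (key v w2)).imp fun H h => ?_⟩
    · change Φ H ∈ t
      rw [h.2]; exact h.1
    · change Φ H ∉ t
      rw [h.2]; exact h.1
  · have h1 : Fc leQ z fun H => Φ H = Classical.arbitrary X := .of_flt fun H hH hz =>
      if_neg fun ⟨w, w1, w2⟩ => let ⟨v, _, v2, v3⟩ := hH.dir _ hz _ w1; hc ⟨v, v2, w2.trans v3.1⟩
    by_cases h2 : Classical.arbitrary X ∈ t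
    · exact ⟨z, lrefl z, .inl (h1.imp fun H h => show Φ H ∈ t from h ▸ h2)⟩
    · exact ⟨z, lrefl z, .inr (h1.imp fun H h => show Φ H ∉ t from h ▸ h2)⟩

theorem cap_iff {T : Set (QQ K) → Prop} (dT : Dec leQ T)
    (h : ∀ p m y, leQ y ⟨s, p, m⟩ → Fc leQ y T → ∃ q m', s.b q p ∧ Fc leQ ⟨s, q, m'⟩ T)
    (hy : s.le y.s) : Fc leQ y fun H => T H ↔ ∃ q ∈ pr H, ∃ m, Fc leQ ⟨s, q, m⟩ T :=
  .glue fun z hz => by
    obtain ⟨w, w1, w2 | w2⟩ := dT z (lrefl z)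
    · obtain ⟨π, m, p1, -, p3⟩ := redQ w (hy.trans (ltrans w1 hz).1)
      obtain ⟨q, m', q1, q2⟩ := h π m w p1 w2
      obtain ⟨v, v1, v2⟩ := p3 q m' q1
      exact ⟨v, ltrans v1 w1, ((w2.mono v1).and (.of_le v2)).imp fun H h =>
        iff_of_true h.1 ⟨q, ⟨_, h.2, rfl⟩, m', q2⟩⟩
    · refine ⟨w, w1, w2.imp' fun H hH h1 h2 => iff_of_false h2 fun ⟨q, q1, m, q2⟩ => ?_⟩
      obtain ⟨v, -, v1, v2⟩ := hH.dir _ h1 _ ((mem_pr hH h1 (hy.trans (ltrans w1 hz).1) m).1 q1)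
      exact Fc.absurd (lrefl v) (q2.mono v2) (w2.mono v1)

/-- Every name of a real lives at a stage. -/
theorem cap_name {Ψ : Set (QQ K) → RR} (hΨ : Nm leQ Ψ) (s0 : St K) : ∃ s : St K, s0.le s ∧
    ∃ g, NB s.b g ∧ ∀ y : QQ K, s.le y.s → Fc leQ y fun H => Ψ H = g (pr H) := by
  obtain ⟨e, he⟩ := surj_W0
  obtain ⟨s, h1, h2⟩ := captureS (X := ℕ) e he (fun w _ y => Fc leQ y fun H => Ψ H w.2)
    (fun _ _ _ _ h h' => h'.mono h) (fun _ _ _ _ _ _ _ => id) s0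
  exact ⟨s, h1, fun G n => ∃ q ∈ G, ∃ m, Fc leQ ⟨s, q, m⟩ fun H => Ψ H n,
    nb_pi fun n => nb_meet fun _ h => h.1, fun y hy =>
      (Fc.all fun n => cap_iff (T := fun H => Ψ H n)
        (hΨ.dec (P := fun x => x n) (by fun_prop))
        (fun p m z hz h => h2 (0, n) (fun _ => 0) p m z (nb_const _) hz h) hy).imp
        fun H h => funext fun n => propext (h n)⟩

variable {C : Axs} {κQ : (Set (QQ K) → RR) → Set (QQ K) → Prop} {x0 : QQ K}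

theorem reflect (dκ : ∀ φ, Dec leQ (κQ φ))
    (cκ : ∀ φ ψ y, (Fc leQ y fun H => φ H = ψ H) → Fc leQ y fun H => κQ φ H ↔ κQ ψ H)
    (hA : ∀ i (Φ : Set (QQ K) → RR), Nm leQ Φ → Dns leQ x0 fun z => ∃ Ψ : Set (QQ K) → RR,
      Nm leQ Ψ ∧ Fc leQ z fun H =>
        C.D i (Φ H) (Ψ H) fun n => κQ (fun H => C.ψ i n (Φ H) (Ψ H)) H)
    (hy : leQ y x0) : ∃ s : St K, y.s.le s ∧ ∃ κ, Mdl C s.b y.p κ ∧ ∀ f, NB s.b f →
      ∀ z : QQ K, s.le z.s → Fc leQ z fun H => κQ (fun H => f (pr H)) H ↔ κ f (pr H) := by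
  obtain ⟨e, he⟩ := surj_W0
  let P : ℕ → (Set (QQ K) → RR) → (Set (QQ K) → RR) → Set (QQ K) → Prop := fun i Φ Ψ H =>
    C.D i (Φ H) (Ψ H) fun n => κQ (fun H => C.ψ i n (Φ H) (Ψ H)) H
  have cP : ∀ i Φ Φ' Ψ Ψ' y, (Fc leQ y fun H => Φ H = Φ' H ∧ Ψ H = Ψ' H) →
      Fc leQ y (P i Φ Ψ) → Fc leQ y (P i Φ' Ψ') := fun i Φ Φ' Ψ Ψ' y h h' =>
    (h'.and (h.and (Fc.all fun n => cκ (fun H => C.ψ i n (Φ H) (Ψ H))
      (fun H => C.ψ i n (Φ' H) (Ψ' H)) y (h.imp fun H h => by rw [h.1, h.2])))).imp fun H h => by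
      have := h.1
      simp only [P, h.2.2] at this ⊢
      rwa [← h.2.1.1, ← h.2.1.2]
  let R : W0 → (Set U → RR) → QQ K → Prop := fun w f y =>
    if w.1 = 0 then Fc leQ y (κQ fun H => f (pr H)) else ∃ g : Set U → RR, NB y.s.b g ∧
      Fc leQ y (P w.2 (fun H => f (pr H)) fun H => g (pr H))
  obtain ⟨s, h1, h2⟩ := captureS e he R (fun w f a c h h' => by
      simp only [R] at h' ⊢
      split_ifs at h' ⊢
      exacts [h'.mono h, let ⟨g, g1, g2⟩ := h'; ⟨g, g1.ext h.1.1, g2.mono h⟩])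
    (fun w f g a hf hg h h' => by
      have h3 := fc_lift (Measurable.eq hf hg) h
      simp only [R] at h' ⊢
      split_ifs at h' ⊢
      · exact ((cκ _ _ a h3).and h').imp fun H h => h.1.1 h.2
      · obtain ⟨u, u1, u2⟩ := h'
        exact ⟨u, u1, cP _ _ _ _ _ a (h3.imp fun H h => ⟨h, rfl⟩) u2⟩) y.s
  let κ : (Set U → RR) → Set U → Prop := fun f G =>
    ∃ q ∈ G, ∃ m, Fc leQ ⟨s, q, m⟩ (κQ fun H => f (pr H))
  have nb : ∀ f, NB s.b (κ f) := fun f => nb_meet fun _ h => h.1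
  have key : ∀ f, NB s.b f → ∀ z : QQ K, s.le z.s →
      Fc leQ z fun H => κQ (fun H => f (pr H)) H ↔ κ f (pr H) := fun f hf z hz =>
    cap_iff (dκ _) (fun p m w hw h => by
      simpa only [R, if_true] using h2 (0, 0) f p m w hf hw
        (by simpa only [R, if_true] using h)) hz
  have cg : ∀ f g q, s.b q q → NB s.b f → NB s.b g → (Fc s.b q fun G => f G = g G) →
      Fc s.b q fun G => κ f G ↔ κ g G := fun f g q m hf hg h =>
    fc_drop (y := ⟨s, q, m⟩) (Measurable.iff (nb f) (nb g))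
      (((cκ _ _ _ (fc_lift (y := ⟨s, q, m⟩) (Measurable.eq hf hg) h)).and
        ((key f hf _ s.refl).and (key g hg _ s.refl))).imp
        fun H h => h.2.1.symm.trans (h.1.trans h.2.2))
  let P' : ℕ → (Set U → RR) → (Set U → RR) → Set U → Prop := fun i f g G =>
    C.D i (f G) (g G) fun n => κ (fun G => C.ψ i n (f G) (g G)) G
  have nψ : ∀ i n f g, NB s.b f → NB s.b g → NB s.b fun G => C.ψ i n (f G) (g G) :=
    fun i n f g hf hg => (hf.mk hg).comp (C.mψ i n)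
  have nP : ∀ i f g, NB s.b f → NB s.b g → NB s.b (P' i f g) := fun i f g hf hg =>
    ((hf.mk hg).mk (nb_pi fun n => nb fun G => C.ψ i n (f G) (g G))).comp (C.mD i)
  refine ⟨s, h1, κ, ⟨nb, cg, fun i f hf => ?_⟩, key⟩
  obtain ⟨g, g1, g2⟩ := nb_mix' (b := s.b) (q := y.p)
    (P := fun r g => Fc s.b r (P' i f g)) fun r hr => by
    obtain ⟨Φ, f1, f2⟩ := nm_lift hf
    obtain ⟨z, z1, Ψ, z2, z3⟩ := hA i Φ f1 ⟨s, r, s.g.l hr⟩ (ltrans ⟨h1, hr⟩ hy)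
    obtain ⟨s', s1, u, u1, u2⟩ := cap_name z2 z.s
    let w : QQ K := ⟨s', z.p, s1.1.le z.m⟩
    have hw : leQ w z := ⟨s1, w.m⟩
    obtain ⟨q, m, q1, q2⟩ := h2 (1, i) f r (s.g.l hr) w hf (ltrans hw z1) (by
      simp only [R, one_ne_zero, if_false]
      exact ⟨u, u1, cP _ _ _ _ _ w ((f2 w (ltrans hw z1).1).and (u2 w s'.refl)) (z3.mono hw)⟩)
    simp only [R, one_ne_zero, if_false] at q2
    obtain ⟨g, g1, g2⟩ := q2
    refine ⟨q, q1, g, g1, fc_drop (y := ⟨s, q, m⟩) (nP i f g hf g1)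
      ((g2.and (Fc.all fun n => key _ (nψ i n f g hf g1) _ s.refl)).imp fun H h => ?_)⟩
    have := h.1
    simp only [P, h.2] at this
    exact this
  refine ⟨g, g1, .glue (g2.imp fun r ⟨u, u1, ⟨a, a1, _, a3⟩, u2⟩ => ?_)⟩
  refine ((a3.mono a1).and (u2.and (Fc.all fun n => cg _ _ r (s.g.l a1) (nψ i n f g hf g1)
    (nψ i n f u hf u1) (u2.imp fun G h => by rw [h])))).imp fun G h => ?_
  have := h.1
  simp only [P', ← h.2.2] at this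
  rwa [← h.2.1] at this

theorem no_model (hM : Main K C) (dκ : ∀ φ, Dec leQ (κQ φ))
    (cκ : ∀ φ ψ y, (Fc leQ y fun H => φ H = ψ H) → Fc leQ y fun H => κQ φ H ↔ κQ ψ H)
    (hA : ∀ i (Φ : Set (QQ K) → RR), Nm leQ Φ → Dns leQ x0 fun z => ∃ Ψ : Set (QQ K) → RR,
      Nm leQ Ψ ∧ Fc leQ z fun H =>
        C.D i (Φ H) (Ψ H) fun n => κQ (fun H => C.ψ i n (Φ H) (Ψ H)) H) : False := by
  obtain ⟨s, h1, κ, h2, h3⟩ := reflect dκ cκ hA (lrefl x0)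
  obtain ⟨s', q, a1, a2, a3⟩ := hM s x0.p κ (h1.1.le x0.m) h2
  obtain ⟨s'', b1, κ', b2, b3⟩ := reflect (y := ⟨s', q, s'.g.l a2⟩) dκ cκ hA ⟨h1.trans a1, a2⟩
  refine a3 s'' κ' b1 b2 fun f hf => ?_
  have e := a1.trans b1
  exact fc_drop (y := ⟨s'', q, b1.1.le (s'.g.l a2)⟩) (Measurable.iff (b2.nb f) ((h2.nb f).ext e.1))
    (((b3 f (hf.ext e.1) _ s''.refl).and (h3 f hf _ e)).imp fun H h => h.1.symm.trans h.2)

end Pool.Agent.MP_5baa61_gt.JK
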