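import Pool.Agent.MP_5baa61_gt.JK.Ex
import Pool.Agent.MP_5baa61_gt.JF.Spec

/-! Norms on finite sets of naturals, and the interface between the space of the final model and
the names of a stage. -/

namespace Pool.Agent.MP_5baa61_gt.JK

open Set Function Pool.Agent.MP_b60a07_lc.H92
open scoped Classical

abbrev Sn : Type := ℕ → Prop
abbrev Nu : Type := ℕ → Finset ℕ → Prop
abbrev Mu : Type := ℕ → Finset ℕ → Finset ℕ → Prop

/-- Infinite sets. -/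
def Inf (A : Sn) : Prop := ∀ m, ∃ i, m ≤ i ∧ A i

/-- The set `N` contains no finite set of norm `c`, for some `c`. -/
def Null (ν : Nu) (N : Sn) : Prop := ∃ c, ∀ x, ν c x → ∃ i ∈ x, ¬ N i

structure Norm (ν : Nu) : Prop where
  anti : ∀ c x, ν (c + 1) x → ν c x
  ne : ∀ c x, ν c x → x.Nonempty ∧ ∀ i ∈ x, c ≤ i
  split : ∀ c x, ν (c + 1) x → ∀ A : Finset ℕ, ∃ x', x' ⊆ x ∧ ν c x' ∧
    ((∀ i ∈ x', i ∈ A) ∨ ∀ i ∈ x', i ∉ A)

/-- Large sets for `ν` contain large sets for `ν0`. -/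
def Adm (ν0 ν : Nu) : Prop := ∀ c, ∃ c', ∀ x, ν c' x → ∃ x', x' ⊆ x ∧ ν0 c x'

/-- The pairs whose middle part lies inside `K`. -/
def sec (μ : Mu) (K : Sn) : Nu := fun l x => ∃ k, (∀ i ∈ k, K i) ∧ μ l k x

/-- `K` meets infinitely many members of the sequence in large points. -/
def Often (K : Sn) (u : ℕ → Sn) : Prop := ∀ m, ∃ j, m ≤ j ∧ ∃ e, m ≤ e ∧ K e ∧ u j e

/-- The data of the case distinction: bases `B`, lists `L`, their norms. -/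
structure Par (B L : Type) [MeasurableSpace B] [MeasurableSpace L] where
  ok : Nu → B → Prop
  n1 : B → Nu
  sub : B → L → Prop
  n2 : B → L → Nu
  m2 : B → L → Mu
  m_ok : Measurable fun z : Nu × B => ok z.1 z.2
  m_n1 : Measurable n1
  m_sub : Measurable fun z : B × L => sub z.1 z.2
  m_n2 : Measurable fun z : B × L => n2 z.1 z.2
  m_m2 : Measurable fun z : B × L => m2 z.1 z.2

abbrev N_ (X : Type) : Type 1 := Set U → X

/-- Names of the statements about the space. -/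
structure Tg (B : Type) where
  II : N_ Sn → N_ Prop
  Conv : N_ Sn → N_ Prop
  Plus : N_ Sn → N_ Sn → N_ Prop
  Reg : N_ Nu → N_ Prop
  Comp : N_ Nu → N_ Prop
  NHit : N_ Mu → N_ Prop
  Sep : N_ Nu → N_ (ℕ → Sn) → N_ Prop
  SepT : N_ Nu → N_ (Finset ℕ → Prop) → N_ (Finset ℕ → ℕ → Sn) → N_ Prop
  Ctr : N_ (ℕ → Sn) → N_ Sn → N_ Prop
  Cl : ℕ → N_ (ℕ → Sn) → N_ Sn → N_ Sn → N_ Prop
  Trap : N_ (ℕ → Sn) → N_ (ℕ → Sn) → N_ Prop
  Two : N_ B → N_ Prop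
  One : N_ Prop

variable {B L : Type} [MeasurableSpace B] [MeasurableSpace L]

/-- The facts about the space, read at the stage `b` below the condition `p`. -/
structure NS (P : Par B L) (b : Rl) [PO b] (p : U) (θ : Tg B) : Prop where
  nb_II : ∀ {K}, NB b K → NB b (θ.II K)
  nb_Conv : ∀ {K}, NB b K → NB b (θ.Conv K)
  nb_Comp : ∀ {ν}, NB b ν → NB b (θ.Comp ν)
  nb_NHit : ∀ {μ}, NB b μ → NB b (θ.NHit μ)
  nb_Plus : ∀ {K K'}, NB b K → NB b K' → NB b (θ.Plus K K')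
  nb_Sep : ∀ {ν N}, NB b ν → NB b N → NB b (θ.Sep ν N)
  nb_Cl : ∀ {n x S y}, NB b x → NB b S → NB b y → NB b (θ.Cl n x S y)
  nb_Two : ∀ {β}, NB b β → NB b (θ.Two β)
  nb_One : NB b θ.One
  cg_Conv : ∀ {K K'}, NB b K → NB b K' → Fc b p fun G => K G = K' G → θ.Conv K G → θ.Conv K' G
  cg_Comp : ∀ {ν ν'}, NB b ν → NB b ν' → Fc b p fun G => ν G = ν' G → θ.Comp ν G → θ.Comp ν' G
  cg_Cl : ∀ {n x S y y'}, NB b x → NB b S → NB b y → NB b y' →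
    Fc b p fun G => y G = y' G → θ.Cl n x S y G → θ.Cl n x S y' G
  union : ∀ {K K' A : N_ Sn}, NB b K → NB b K' → NB b A → Fc b p fun G => θ.II K G → θ.II K' G →
    (∀ i, A G i → K G i ∨ K' G i) → θ.II A G
  fin : ∀ {A}, NB b A → Fc b p fun G => ¬ Inf (A G) → θ.II A G
  comp_elim : ∀ {ν K}, NB b ν → NB b K → Fc b p fun G => θ.Comp ν G → θ.II K G →
    ¬ Null (ν G) fun e => ¬ K G e
  comp_intro : ∀ {ν}, NB b ν → ∃ K, NB b K ∧ Fc b p fun G => ¬ θ.Comp ν G →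
    θ.II K G ∧ Null (ν G) fun e => ¬ K G e
  nhit_elim : ∀ {μ K}, NB b μ → NB b K → ∃ K', NB b K' ∧ Fc b p fun G => θ.NHit μ G → θ.Conv K G →
    θ.II K' G ∧ Null (sec (μ G) (K G)) fun e => ¬ K' G e
  hit : ∀ {μ}, NB b μ → ∃ K, NB b K ∧ Fc b p fun G => ¬ θ.NHit μ G →
    θ.Conv K G ∧ θ.Comp (fun G => sec (μ G) (K G)) G
  conv : ∀ {A}, NB b A → ∃ K, NB b K ∧ Fc b p fun G => Inf (A G) →
    θ.Conv K G ∧ Inf (K G) ∧ ∀ i, K G i → A G i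
  plus : ∀ {K}, NB b K → ∃ K', NB b K' ∧ Fc b p fun G => θ.Conv K G → θ.Plus K K' G ∧ θ.II K' G
  rk : ∀ {ν0 ν} {E : N_ (ℕ → Sn)}, NB b ν0 → NB b ν → NB b E → ∃ (R : N_ Sn) (N : N_ (ℕ → Sn)), NB b R ∧ NB b N ∧
    Fc b p fun G => θ.Reg ν0 G → Norm (ν G) → Adm (ν0 G) (ν G) →
      (θ.II R G ∧ ∀ k : ℕ, Null (ν G) fun e => E G k e ∧ ¬ R G e) ∨
        (θ.Sep ν N G ∧ ∀ m, ¬ Null (ν G) (N G m) ∧ ∃ k, ∀ e, N G m e → E G k e)
  sep_elim : ∀ {ν N K}, NB b ν → NB b N → NB b K → Fc b p fun G => θ.Sep ν N G → θ.II K G →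
    ∃ m, Null (ν G) fun e => N G m e ∧ K G e
  sepb : ∀ {ν0 ν}, NB b ν0 → NB b ν → ∃ (Lf : N_ (Finset ℕ → Prop)) (N : N_ (Finset ℕ → ℕ → Sn)),
    NB b Lf ∧ NB b N ∧ Fc b p fun G => θ.Reg ν0 G → Norm (ν G) → Adm (ν0 G) (ν G) → θ.Comp ν G →
      θ.SepT ν Lf N G ∧ JF.Thin (Lf G) ∧ JF.Front (Lf G) ∧ (∀ t i, Lf G t → ¬ Null (ν G) (N G t i)) ∧
        ∀ t i e, N G t (i + 1) e → N G t i e
  sept_elim : ∀ {ν Lf N K} {H : N_ Sn}, NB b ν → NB b Lf → NB b N → NB b K → NB b H →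
    Fc b p fun G => θ.SepT ν Lf N G → θ.II K G → Inf (H G) → ∃ t, Lf G t ∧ (∀ i ∈ t, H G i) ∧
      ∃ i, Null (ν G) fun e => N G t i e ∧ K G e
  ctr : ∀ {x : N_ (ℕ → Sn)}, NB b x → ∃ S, NB b S ∧
    Fc b p fun G => (∀ i, θ.Conv (fun G => x G i) G) → θ.Ctr x S G
  cl : ∀ {x S y}, NB b x → NB b S → NB b y →
    Fc b p fun G => θ.Ctr x S G → θ.Conv y G → ∃ n, θ.Cl n x S y G
  trap : ∀ {x S} {x' : N_ (ℕ → Sn)} (n : ℕ), NB b x → NB b S → NB b x' → ∃ u u' : N_ (ℕ → Sn), NB b u ∧ NB b u' ∧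
    Fc b p fun G => (∀ j, θ.Cl n x S (fun G => x' G j) G) → θ.Trap u u' G ∧
      (∀ i e, u G i e → x G i e) ∧ (∀ j e, u' G j e → x' G j e) ∧
        (Inf fun i => Inf (u G i)) ∧ Inf fun j => Inf (u' G j)
  trap_elim : ∀ {u u' K K'}, NB b u → NB b u' → NB b K → NB b K' →
    Fc b p fun G => θ.Trap u u' G → θ.Plus K K' G → Often (K G) (u G) → Often (K G) (u' G) →
      ∃ j, Inf (u' G j) ∧ ¬ Inf fun e => u' G j e ∧ ¬ K' G e
  start : ∃ ν0 β, NB b ν0 ∧ NB b β ∧ Fc b p fun G => θ.Reg ν0 G ∧ Norm (ν0 G) ∧ θ.Comp ν0 G ∧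
    (θ.One G ∨ (θ.Two β G ∧ P.ok (ν0 G) (β G) ∧ θ.Comp (fun G => P.n1 (β G)) G))
  two : ∀ {β u}, NB b β → NB b u → Fc b p fun G => θ.Two β G → P.sub (β G) (u G) →
    θ.Comp (fun G => P.n2 (β G) (u G)) G → ¬ θ.NHit (fun G => P.m2 (β G) (u G)) G
  one : ∀ {ν0 β}, NB b ν0 → NB b β → ∃ u, NB b u ∧ Fc b p fun G => θ.One G → θ.Reg ν0 G →
    P.ok (ν0 G) (β G) → θ.Comp (fun G => P.n1 (β G)) G → P.sub (β G) (u G) ∧
      θ.Comp (fun G => P.n2 (β G) (u G)) G ∧ θ.NHit (fun G => P.m2 (β G) (u G)) G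

/-- What is forced about names of the stage `b` stays forced at the later stage `c`. -/
structure Per (b c : Rl) [PO b] [PO c] (p : U) (θ θ' : Tg B) : Prop where
  II : ∀ {K}, NB b K → Fc c p fun G => θ.II K G → θ'.II K G
  Plus : ∀ {K K'}, NB b K → NB b K' → Fc c p fun G => θ.Plus K K' G → θ'.Plus K K' G
  Reg : ∀ {ν}, NB b ν → Fc c p fun G => θ.Reg ν G → θ'.Reg ν G
  NHit : ∀ {μ}, NB b μ → Fc c p fun G => θ.NHit μ G → θ'.NHit μ G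
  Sep : ∀ {ν N}, NB b ν → NB b N → Fc c p fun G => θ.Sep ν N G → θ'.Sep ν N G

end Pool.Agent.MP_5baa61_gt.JK
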