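import Pool.Agent.MP_5baa61_gt.JK.TSys
import Pool.Agent.MP_5baa61_gt.JK.NS

/-! The statements about a compact weakly first countable space of the model that the forcing
argument uses: definitions and statements. -/

namespace Pool.Agent.MP_5baa61_gt.JK

open Function Set Pool.Agent.ZF92 Pool.Agent.MP_b60a07_lc.H92
open scoped Classical

set_option linter.unusedSectionVars false

universe w

theorem Null.mono {ν : Nu} {A B : Sn} (h : Null ν B) (e : ∀ i, A i → B i) : Null ν A :=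
  let ⟨c, hc⟩ := h; ⟨c, fun x hx => let ⟨i, h1, h2⟩ := hc x hx; ⟨i, h1, fun h => h2 (e i h)⟩⟩

theorem Norm.le {ν : Nu} (h : Norm ν) {c c' : ℕ} {x : Finset ℕ} (h1 : ν c x) (e : c' ≤ c) :
    ν c' x := by
  induction e with
  | refl => exact h1
  | step _ ih => exact ih (h.anti _ _ h1)

theorem Norm.union {ν : Nu} (h : Norm ν) {A B C : Sn} (hA : Null ν A) (hB : Null ν B)
    (e : ∀ i, C i → A i ∨ B i) : Null ν C := by
  obtain ⟨c, hc⟩ := hA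
  obtain ⟨c', hc'⟩ := hB
  refine ⟨max c c' + 1, fun x hx => ?_⟩
  obtain ⟨x', h1, h2, h3 | h3⟩ := h.split _ x hx (x.filter A)
  · obtain ⟨i, h4, h5⟩ := hc x' (h.le h2 (le_max_left _ _))
    exact absurd (Finset.mem_filter.1 (h3 i h4)).2 h5
  · obtain ⟨i, h4, h5⟩ := hc' x' (h.le h2 (le_max_right _ _))
    exact ⟨i, h1 h4, fun hi => (e i hi).elim (fun h => h3 i h4 (Finset.mem_filter.2 ⟨h1 h4, h⟩)) h5⟩

theorem Norm.fin {ν : Nu} (h : Norm ν) {A : Sn} (hA : ¬ Inf A) : Null ν A := by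
  simp only [Inf, not_forall, not_exists, not_and] at hA
  obtain ⟨m, hm⟩ := hA
  exact ⟨m, fun x hx => let ⟨⟨i, hi⟩, h1⟩ := h.ne m x hx; ⟨i, hi, hm i (h1 i hi)⟩⟩

theorem Norm.empty {ν : Nu} (h : Norm ν) {A : Sn} (hA : ∀ i, ¬ A i) : Null ν A :=
  h.fin fun h => let ⟨i, _, hi⟩ := h 0; hA i hi

theorem Adm.null {ν0 ν : Nu} (h : Adm ν0 ν) {A : Sn} (hA : Null ν0 A) : Null ν A := by
  obtain ⟨c, hc⟩ := hA
  obtain ⟨c', hc'⟩ := h c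
  refine ⟨c', fun x hx => ?_⟩
  obtain ⟨x', h1, h2⟩ := hc' x hx
  exact (hc x' h2).imp fun i hi => ⟨h1 hi.1, hi.2⟩

/-- The restriction of a norm to a set. -/
def rsn (ν : Nu) (E : Sn) : Nu := fun c x => ν c x ∧ ∀ i ∈ x, E i

theorem Norm.rsn {ν : Nu} (h : Norm ν) (E : Sn) : Norm (rsn ν E) :=
  ⟨fun c x hx => ⟨h.anti c x hx.1, hx.2⟩, fun c x hx => h.ne c x hx.1, fun c x hx A =>
    let ⟨x', h1, h2, h3⟩ := h.split c x hx.1 A; ⟨x', h1, ⟨h2, fun i hi => hx.2 i (h1 hi)⟩, h3⟩⟩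

theorem Adm.rsn {ν0 ν : Nu} (h : Adm ν0 ν) (E : Sn) : Adm ν0 (rsn ν E) := fun c =>
  let ⟨c', hc⟩ := h c; ⟨c', fun x hx => hc x hx.1⟩

theorem null_rsn {ν : Nu} {E A : Sn} : Null (rsn ν E) A ↔ Null ν fun i => A i ∧ E i := by
  refine exists_congr fun c => forall_congr' fun x => ?_
  simp only [rsn]
  refine ⟨fun h hx => ?_, fun h hx => (h hx.1).imp fun i hi =>
    ⟨hi.1, fun hA => hi.2 ⟨hA, hx.2 i hi.1⟩⟩⟩
  by_cases e : ∀ i ∈ x, E i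
  · exact (h ⟨hx, e⟩).imp fun i hi => ⟨hi.1, fun h => hi.2 h.1⟩
  · push Not at e
    exact e.imp fun i hi => ⟨hi.1, fun h => hi.2 h.2⟩

theorem Inf.mono {A B : Sn} (h : Inf A) (e : ∀ i, A i → B i) : Inf B := fun m =>
  let ⟨i, h1, h2⟩ := h m; ⟨i, h1, e i h2⟩

theorem Inf.or {A B : Sn} (h : Inf fun i => A i ∨ B i) : Inf A ∨ Inf B := by
  by_contra hn
  simp only [Inf, not_or, not_forall, not_exists, not_and] at hn
  obtain ⟨⟨m, hm⟩, m', hm'⟩ := hn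
  obtain ⟨i, h1, h2⟩ := h (max m m')
  exact h2.elim (hm i ((le_max_left _ _).trans h1)) (hm' i ((le_max_right _ _).trans h1))

variable {M : Set ZFSet.{0}} [hM : Fact (ZFC M)]
variable {K : Type w} [Srt M K] [Sm M K] [TopologicalSpace K] [DTop M K] [T2Space K]

/-- The sequence `u` converges to `y` along the infinite set `S`. -/
def Lim (V : K → ℕ → PS M K) (u : ℕ → K) (S : Sn) (y : K) : Prop :=
  Inf S ∧ ∀ j, ¬ Inf fun i => S i ∧ u i ∉ V y j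

/-- The limits of the sets `x i` converge to `z` along `S`. -/
def CtrAt (V : K → ℕ → PS M K) (d : ℕ → K) (x : ℕ → Sn) (S : Sn) (z : K) : Prop :=
  ∃ f : Fn M ℕ K, (∀ i, Lim V d (x i) (f.ap i)) ∧ Lim V f.ap S z

def MCl (V : K → ℕ → PS M K) (d : ℕ → K) (n : ℕ) (x : ℕ → Sn) (S y : Sn) : Prop :=
  ∃ z, CtrAt V d x S z ∧ ∃ v, Lim V d y v ∧ ((n = 0 ∧ v = z) ∨ ∃ m, n = m + 1 ∧ v ∉ V z m)

def MPlus (V : K → ℕ → PS M K) (d : ℕ → K) (A A' : Sn) : Prop :=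
  ∃ y, Lim V d A y ∧ ∃ j, ∀ i, A' i ↔ d i ∈ V y j

def MTrap (V : K → ℕ → PS M K) (d : ℕ → K) (u u' : ℕ → Sn) : Prop :=
  ∀ A A' : PS M ℕ, MPlus V d (· ∈ A) (· ∈ A') → Often (· ∈ A) u → Often (· ∈ A) u' →
    ∃ j, Inf (u' j) ∧ ¬ Inf fun e => u' j e ∧ e ∉ A'

def MComp (M : Set ZFSet.{0}) [Fact (ZFC M)] (II : Sn → Prop) (ν : Nu) : Prop :=
  ∀ A : PS M ℕ, II (· ∈ A) → ¬ Null ν fun e => e ∉ A

def MSep (M : Set ZFSet.{0}) [Fact (ZFC M)] (II : Sn → Prop) (ν : Nu) (N : ℕ → Sn) : Prop :=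
  ∀ A : PS M ℕ, II (· ∈ A) → ∃ m, Null ν fun e => N m e ∧ e ∈ A

def MSepT (M : Set ZFSet.{0}) [Fact (ZFC M)] (II : Sn → Prop) (ν : Nu) (L : Finset ℕ → Prop)
    (N : Finset ℕ → ℕ → Sn) : Prop :=
  ∀ A H : PS M ℕ, II (· ∈ A) → Inf (· ∈ H) → ∃ t, L t ∧ (∀ i ∈ t, i ∈ H) ∧
    ∃ i, Null ν fun e => N t i e ∧ e ∈ A

/-- The setting: `p` is in the closure of a sequence that misses a weak neighbourhood of `p`. -/
structure Bad (V : K → ℕ → PS M K) (d : ℕ → K) (p : K) (n0 : ℕ) : Prop where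
  cpt : MCpt M K
  wb : WB M V
  dd : DfF M d
  miss : ∀ i, d i ∉ V p n0
  cl : p ∈ closure {x | ∃ i, d i = x}

/-- An ideal and a norm as in one of the two regimes. -/
structure Rg (V : K → ℕ → PS M K) (d : ℕ → K) (II : Sn → Prop) (ν0 : Nu) : Prop where
  dI : DfF M fun A : PS M ℕ => II (· ∈ A)
  d0 : DfF M fun z : ℕ × Finset ℕ => ν0 z.1 z.2
  norm : Norm ν0
  union : ∀ A B C, II A → II B → (∀ i, C i → A i ∨ B i) → II C
  fin : ∀ A, ¬ Inf A → II A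
  comp : MComp M II ν0
  a1 : ∀ y, ∃ j, II fun i => d i ∈ V y j
  rk : ∀ (ν : Nu) (E : ℕ → Sn), (DfF M fun z : ℕ × Finset ℕ => ν z.1 z.2) →
    (DfF M fun z : ℕ × ℕ => E z.1 z.2) → Norm ν → Adm ν0 ν →
      (∃ R : Sn, DfF M R ∧ II R ∧ ∀ k, Null ν fun e => E k e ∧ ¬ R e) ∨
        ∃ N : ℕ → Sn, (DfF M fun z : ℕ × ℕ => N z.1 z.2) ∧ MSep M II ν N ∧
          ∀ m, ¬ Null ν (N m) ∧ ∃ k, ∀ e, N m e → E k e
  sepb : ∀ ν : Nu, (DfF M fun z : ℕ × Finset ℕ => ν z.1 z.2) → Norm ν → Adm ν0 ν → MComp M II ν →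
    ∃ (L : Finset ℕ → Prop) (N : Finset ℕ × ℕ → Sn), DfF M L ∧
      (DfF M fun z : (Finset ℕ × ℕ) × ℕ => N z.1 z.2) ∧ MSepT M II ν L (fun t i => N (t, i)) ∧
        JF.Thin L ∧ (∀ t i, L t → ¬ Null ν (N (t, i))) ∧ ∀ t i e, N (t, i + 1) e → N (t, i) e

/-- The facts about convergent sets. -/
structure Cvg (V : K → ℕ → PS M K) (d : ℕ → K) : Prop where
  conv : ∀ A : Sn, DfF M A → Inf A → ∃ B : Sn, DfF M B ∧ (∀ i, B i → A i) ∧ ∃ y, Lim V d B y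
  ctr : ∀ x : ℕ → Sn, (DfF M fun z : ℕ × ℕ => x z.1 z.2) → (∀ i, ∃ y, Lim V d (x i) y) →
    ∃ S : Sn, DfF M S ∧ ∃ z, CtrAt V d x S z
  cl : ∀ x S y, (∃ z, CtrAt V d x S z) → (∃ v, Lim V d y v) → ∃ n, MCl V d n x S y
  trap : ∀ (n : ℕ) (x : ℕ → Sn) (S : Sn) (x' : ℕ → Sn), (DfF M fun z : ℕ × ℕ => x z.1 z.2) →
    (DfF M fun z : ℕ × ℕ => x' z.1 z.2) → (∀ j, MCl V d n x S (x' j)) →
      ∃ u u' : ℕ → Sn, (DfF M fun z : ℕ × ℕ => u z.1 z.2) ∧ (DfF M fun z : ℕ × ℕ => u' z.1 z.2) ∧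
        MTrap V d u u' ∧ (∀ i e, u i e → x i e) ∧ (∀ j e, u' j e → x' j e) ∧
          (Inf fun i => Inf (u i)) ∧ Inf fun j => Inf (u' j)

end Pool.Agent.MP_5baa61_gt.JK
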