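import Pool.Agent.MP_5baa61_gt.JK.NS

/-! A universal statement about reals is forced when it is forced for all names. -/

namespace Pool.Agent.MP_5baa61_gt.JK

open Set Function Pool.Agent.MP_b60a07_lc.H92
open scoped Classical

universe u v

section
variable {α : Type u} {b : α → α → Prop} [PO b] {q : α}

/-- If the failure of an analytic relation cannot be forced, a name is a witness. -/
theorem unif_cont' {X : Type v} [TopologicalSpace X] [MeasurableSpace X] [BorelSpace X] [T3Space X]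
    {φ : (ℕ → ℕ) → X} (hφ : Continuous φ) {f : Set α → X} (hf : Nm b f)
    (h : ∀ t, b t q → ¬ Fc b t fun G => ¬ ∃ z, φ z = f G) :
    ∃ z, Nm b z ∧ Fc b q fun G => φ (z G) = f G := by
  let A : List ℕ → Set X := fun s => φ '' {y | PiNat.res y s.length = s}
  let Lv : List ℕ → α → Prop := fun s r => b r r ∧ ∀ r', b r' r → ¬ Fc b r' fun G => f G ∉ A s
  let L : List ℕ → Set α → Prop := fun s G => ∃ r ∈ G, Lv s r
  have dL : ∀ s, Dec b (L s) := fun s => dec_meet _
  have imp : ∀ s (T : Set α → Prop), (∀ r, Lv s r → Fc b r T) → Fc b q fun G => L s G → T G :=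
    fun s T hT => .glue fun r hr => by
      by_cases hc : ∃ t a, b t r ∧ b t a ∧ Lv s a
      · obtain ⟨t, a, h1, h2, h3⟩ := hc
        exact ⟨t, h1, ((hT a h3).mono h2).imp fun _ h _ => h⟩
      · exact ⟨r, PO.l hr, .of_flt fun G hG h1 ⟨a, h2, h3⟩ =>
          let ⟨t, _, h4, h5⟩ := hG.dir _ h1 _ h2; (hc ⟨t, a, h4, h5, h3⟩).elim⟩
  have h1 : Fc b q fun G => ∀ s, L s G → ∃ k, L (k :: s) G := .all fun s => imp s _ fun r hr =>
    (Fc.meet (D := fun t => ∃ k, Lv (k :: s) t) fun t ht => by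
      by_contra hc
      simp only [Lv, not_exists, not_and, not_forall, not_not] at hc
      refine hr.2 t ht ((Fc.all fun k => Fc.glue fun a ha => ?_).imp
        (S := fun G => ∀ k, f G ∉ A (k :: s)) ?_)
      · obtain ⟨c, c1, c2⟩ := hc a ha k (PO.l ha)
        exact ⟨c, c1, c2⟩
      · rintro G hG ⟨y, y1, y2⟩
        exact hG (y s.length) ⟨y, by simpa using y1, y2⟩).imp
      fun G ⟨t, h1, k, h2⟩ => ⟨k, t, h1, h2⟩
  have h2 : Fc b q fun G => ∀ s, L s G → f G ∈ closure (A s) := .all fun s => imp s _ fun r hr =>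
    Dec.fc (hf isClosed_closure.measurableSet) fun t ht h =>
      hr.2 t ht (h.imp fun _ h e => h (subset_closure e))
  have h3 : Fc b q (L []) := Fc.meet fun r hr => ⟨r, PO.l hr, PO.l hr, fun t ht e =>
    h t (PO.tr ht hr) (e.imp fun _ e ⟨z, hz⟩ => e ⟨z, rfl, hz⟩)⟩
  let t : Set α → ℕ → List ℕ := fun G n =>
    Nat.rec [] (fun _ s => sInf {k | L (k :: s) G} :: s) n
  have ts : ∀ G n, t G (n + 1) = sInf {k | L (k :: t G n) G} :: t G n := fun _ _ => rfl
  have dI : ∀ s k, Dec b fun G => sInf {k | L (k :: s) G} = k := fun s k => by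
    have := ((dL (k :: s)).and (Dec.all fun j : Iio k => (dL (j.1 :: s)).not)).or
      ((dec_const (k = 0)).and (Dec.all fun j : ℕ => (dL (j :: s)).not))
    convert this using 2 with G
    by_cases hc : {k | L (k :: s) G}.Nonempty
    · refine ⟨fun e => .inl ⟨e ▸ Nat.sInf_mem hc, fun j hj =>
        Nat.notMem_of_lt_sInf (s := {k | L (k :: s) G}) (j.2.trans_eq e.symm) hj⟩, ?_⟩
      rintro (⟨e1, e2⟩ | ⟨-, e⟩)
      · exact le_antisymm (Nat.sInf_le e1) (not_lt.1 fun e => e2 ⟨_, e⟩ (Nat.sInf_mem hc))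
      · exact absurd hc.choose_spec (e _)
    · rw [not_nonempty_iff_eq_empty] at hc
      have hc' : ∀ j, ¬ L (j :: s) G := fun j hj => (hc ▸ hj : j ∈ (∅ : Set ℕ))
      rw [hc, Nat.sInf_empty]
      exact ⟨fun e => .inr ⟨e.symm, hc'⟩, fun e => e.elim (fun e => (hc' _ e.1).elim) (·.1.symm)⟩
  have dt : ∀ n s, Dec b fun G => t G n = s := fun n => by
    induction n with
    | zero => exact fun s => dec_const ([] = s)
    | succ n ih =>
      intro s
      have := Dec.ex fun z : ℕ × List ℕ => (dec_const (z.1 :: z.2 = s)).and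
        ((ih z.2).and (dI z.2 z.1))
      convert this using 2 with G
      rw [ts]
      exact ⟨fun e => ⟨(_, _), e, rfl, rfl⟩, fun ⟨z, e1, e2, e3⟩ => by rw [e2, e3, e1]⟩
  let z : Set α → ℕ → ℕ := fun G n => sInf {k | L (k :: t G n) G}
  have zr : ∀ G n, PiNat.res (z G) n = t G n := fun G n => by
    induction n with
    | zero => rfl
    | succ n ih => rw [PiNat.res_succ, ih, ts]
  refine ⟨z, measurable_pi_lambda _ fun n => measurable_to_countable' fun k => ?_,
    (h1.and (h2.and h3)).imp fun G ⟨g1, g2, g3⟩ => ?_⟩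
  · have := Dec.ex fun s : List ℕ => (dt n s).and (dI s k)
    convert this using 1
    refine iff_of_eq (congrArg _ (funext fun G => propext ?_))
    exact ⟨fun e => ⟨_, rfl, e⟩, fun ⟨s, e1, e2⟩ => by subst e1; exact e2⟩
  · have g4 : ∀ n, L (t G n) G := fun n => by
      induction n with
      | zero => exact g3
      | succ n ih => exact Nat.sInf_mem (g1 _ ih)
    by_contra hne
    obtain ⟨C, hC, c1, c2⟩ := exists_mem_nhds_isClosed_subset
      ((isOpen_ne (x := f G)).mem_nhds hne)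
    obtain ⟨v, ⟨y, n, rfl⟩, v1, v2⟩ := (PiNat.isTopologicalBasis_cylinders fun _ => ℕ).mem_nhds_iff.1
      (hφ.continuousAt hC)
    refine c2 (closure_minimal ?_ c1 (g2 _ (g4 n))) rfl
    rintro _ ⟨w, hw, rfl⟩
    refine v2 ?_
    rw [PiNat.cylinder_eq_res] at v1 ⊢
    rw [← zr, PiNat.res_length] at hw
    exact hw.trans v1

theorem fc_forall {X Y : Type v} [MeasurableSpace X] [StandardBorelSpace X] [MeasurableSpace Y]
    [StandardBorelSpace Y] {C : X → Y → Prop}
    (hC : Measurable fun p : X × Y => C p.1 p.2) {f : Set α → X} (hf : Nm b f)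
    (h : ∀ g, Nm b g → Fc b q fun G => C (f G) (g G)) : Fc b q fun G => ∀ y, C (f G) y := by
  let _ := upgradeStandardBorel X
  let _ := upgradeStandardBorel Y
  have hA := (measurableSet_setOfPred.2 hC.not).analyticSet
  rw [MeasureTheory.AnalyticSet] at hA
  rcases hA with hA | ⟨φ, h1, h2⟩
  · exact .of_all fun G y => not_not.1 fun hy =>
      absurd (show (f G, y) ∈ ({p | ¬ C p.1 p.2} : Set (X × Y)) from hy) (by rw [hA]; exact id)
  refine .glue fun r hr => not_not.1 fun hn => ?_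
  obtain ⟨z, z1, z2⟩ := unif_cont' (q := r) h1.fst hf fun t ht e => hn ⟨t, ht, e.imp fun G e y =>
    not_not.1 fun hy => by
      obtain ⟨z, hz⟩ : (f G, y) ∈ range φ := h2 ▸ hy
      exact e ⟨z, by rw [hz]⟩⟩
  refine Fc.absurd (PO.l hr) ((h _ (h1.snd.measurable.comp z1)).mono hr) (z2.imp fun G hG => ?_)
  have : φ (z G) ∈ ({p | ¬ C p.1 p.2} : Set (X × Y)) := h2 ▸ mem_range_self _
  exact hG ▸ this

end

variable {b : Rl} [PO b] {q : U}

theorem nb_forall {X Y : Type v} [MeasurableSpace X] [StandardBorelSpace X] [MeasurableSpace Y]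
    [StandardBorelSpace Y] {C : X → Y → Prop}
    (hC : Measurable fun p : X × Y => C p.1 p.2) {f : Set U → X} (hf : NB b f)
    (h : ∀ g, NB b g → Fc b q fun G => C (f G) (g G)) : Fc b q fun G => ∀ y, C (f G) y :=
  fc_forall hC hf.nm fun _ hg => (h _ hg.nb).imp' fun G hG _ e => by rwa [res_flt hG] at e

/-- A family that meets every named infinite set is forced to be a front. -/
theorem front_fc {c : Set U → Prop} {L : Set U → Finset ℕ → Prop} (hc : NB b c) (hL : NB b L)
    (h : ∀ H : Set U → Sn, NB b H → Fc b q fun G => c G → Inf (H G) →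
      ∃ t, L G t ∧ ∀ i ∈ t, H G i) : Fc b q fun G => c G → JF.Front (L G) :=
  (nb_forall (X := Prop × (Finset ℕ → Prop)) (Y := Sn)
    (C := fun x H => x.1 → Inf H → ∃ t, x.2 t ∧ ∀ i ∈ t, H i) (by unfold Inf; fun_prop)
    (hc.mk hL) h).imp fun _ e h1 H h2 => (e (· ∈ H) h1 fun m =>
      let ⟨i, h3, h4⟩ := h2.exists_gt m; ⟨i, h4.le, h3⟩).imp fun _ a => ⟨a.1, fun i hi => a.2 i hi⟩

end Pool.Agent.MP_5baa61_gt.JK
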