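import Pool.Agent.MP_5baa61_gt.JC.Base
import Pool.Agent.MP_5baa61_gt.JK.Rf

/-! Codes, marked reals and the list of statements; from a model of the list to the interface. -/

namespace Pool.Agent.MP_5baa61_gt.JK.Br

open Set Function Pool.Agent.MP_b60a07_lc.H92 Pool.Agent.MP_5baa61_gt.JC
open Encodable (encode)
open scoped Classical

set_option linter.unusedSectionVars false

/-- Objects that are coded by reals. -/
class Cd (X : Type) [MeasurableSpace X] where
  enc : X → RR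
  dec : RR → X
  me : Measurable enc
  md : Measurable dec
  de : ∀ x, dec (enc x) = x

open Cd

instance : Cd Prop := ⟨fun p _ => p, fun r => r 0, by fun_prop, by fun_prop, fun _ => rfl⟩

section
variable {X Y Z : Type} [MeasurableSpace X] [MeasurableSpace Y] [MeasurableSpace Z] [Cd X] [Cd Y]

@[fun_prop] theorem m_enc {f : Z → X} (h : Measurable f) : Measurable fun z => enc (f z) :=
  me.comp h

@[fun_prop] theorem m_dec {f : Z → RR} (h : Measurable f) : Measurable fun z => (dec (f z) : X) :=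
  md.comp h

instance {ι : Type} [Encodable ι] : Cd (ι → X) where
  enc f n := ∃ i m, Nat.pair (encode i) m = n ∧ enc (f i) m
  dec r i := dec fun m => r (Nat.pair (encode i) m)
  me := by fun_prop
  md := by fun_prop
  de f := funext fun i => (congrArg dec (funext fun m => propext ⟨fun ⟨j, k, h1, h2⟩ => by
    obtain ⟨h3, rfl⟩ := Nat.pair_eq_pair.1 h1
    exact Encodable.encode_injective h3 ▸ h2, fun h => ⟨i, m, rfl, h⟩⟩)).trans (de (f i))

instance : Cd (X × Y) where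
  enc z n := (∃ m, 2 * m = n ∧ enc z.1 m) ∨ ∃ m, 2 * m + 1 = n ∧ enc z.2 m
  dec r := (dec fun m => r (2 * m), dec fun m => r (2 * m + 1))
  me := by fun_prop
  md := by fun_prop
  de z := Prod.ext
    ((congrArg dec (funext fun m => propext ⟨fun h => h.elim
      (fun ⟨k, h1, h2⟩ => (by omega : k = m) ▸ h2) fun ⟨k, h1, _⟩ => by omega,
      fun h => .inl ⟨m, rfl, h⟩⟩)).trans (de z.1))
    ((congrArg dec (funext fun m => propext ⟨fun h => h.elim (fun ⟨k, h1, _⟩ => by omega)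
      fun ⟨k, h1, h2⟩ => (by omega : k = m) ▸ h2, fun h => .inr ⟨m, rfl, h⟩⟩)).trans (de z.2))

/-- The code of `x` with the label `t`. -/
def tg (t : ℕ) (x : X) : RR := fun n =>
  Nat.pair t 0 = n ∨ ∃ m, Nat.pair t (m + 1) = n ∧ enc x m

@[fun_prop] theorem m_tg (t : ℕ) {f : Z → X} (h : Measurable f) :
    Measurable fun z => tg t (f z) := by
  unfold tg; fun_prop

def cons (a : RR) (s : ℕ → RR) : ℕ → RR
  | 0 => a
  | n + 1 => s n

@[fun_prop] theorem m_cons {a : Z → RR} {s : Z → ℕ → RR} (h : Measurable a) (h' : Measurable s) :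
    Measurable fun z => cons (a z) (s z) := measurable_pi_lambda _ fun n => by
  cases n <;> simp only [cons] <;> fun_prop

@[fun_prop] theorem m_Norm {ν : Z → Nu} (h : Measurable ν) : Measurable fun z => Norm (ν z) := by
  have : ∀ z, Norm (ν z) ↔ (∀ c x, ν z (c + 1) x → ν z c x) ∧
      (∀ c x, ν z c x → x.Nonempty ∧ ∀ i ∈ x, c ≤ i) ∧ ∀ c x, ν z (c + 1) x → ∀ A : Finset ℕ,
        ∃ x', x' ⊆ x ∧ ν z c x' ∧ ((∀ i ∈ x', i ∈ A) ∨ ∀ i ∈ x', i ∉ A) :=
    fun z => ⟨fun h => ⟨h.1, h.2, h.3⟩, fun h => ⟨h.1, h.2.1, h.2.2⟩⟩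
  simp only [this]; fun_prop

@[fun_prop] theorem m_Often {K : Z → Sn} {u : Z → ℕ → Sn} (h : Measurable K) (h' : Measurable u) :
    Measurable fun z => Often (K z) (u z) := by
  unfold Often; fun_prop

@[fun_prop] theorem m_Thin {L : Z → Finset ℕ → Prop} (h : Measurable L) :
    Measurable fun z => JF.Thin (L z) := by
  unfold JF.Thin; fun_prop

end

/-- A statement: for every `x` there is `y` with `D x y t`, where `t n` says that the real
`ψ x y n` is marked. -/
structure TA where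
  X : Type
  Y : Type
  [mX : MeasurableSpace X]
  [mY : MeasurableSpace Y]
  [cX : Cd X]
  [cY : Cd Y]
  ψ : X → Y → ℕ → RR
  D : X → Y → RR → Prop
  mψ : Measurable fun z : X × Y => ψ z.1 z.2
  mD : Measurable fun z : (X × Y) × RR => D z.1.1 z.1.2 z.2

attribute [instance] TA.mX TA.mY TA.cX TA.cY

def axs (a : ℕ → TA) : Axs where
  ψ i n x y := (a i).ψ (dec x) (dec y) n
  D i x y t := (a i).D (dec x) (dec y) t
  mψ i n := (measurable_pi_apply n).comp ((a i).mψ.comp
    (f := fun z : RR × RR => (dec z.1, dec z.2)) (by fun_prop))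
  mD i := (a i).mD.comp (f := fun z : (RR × RR) × RR => ((dec z.1.1, dec z.1.2), z.2)) (by fun_prop)

abbrev Sq : Type := ℕ → Sn
abbrev Lf : Type := Finset ℕ → Prop
abbrev Nf : Type := Finset ℕ → ℕ → Sn

variable {B L : Type} [MeasurableSpace B] [MeasurableSpace L] [Cd B] [Cd L]

section
variable {Z : Type} [MeasurableSpace Z] (P : Par B L) {β : Z → B} {u : Z → L} {ν : Z → Nu}

@[fun_prop] theorem m_ok (h : Measurable ν) (h' : Measurable β) :
    Measurable fun z => P.ok (ν z) (β z) := P.m_ok.comp (h.prodMk h')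
@[fun_prop] theorem m_n1 (h : Measurable β) : Measurable fun z => P.n1 (β z) := P.m_n1.comp h
@[fun_prop] theorem m_sub (h : Measurable β) (h' : Measurable u) :
    Measurable fun z => P.sub (β z) (u z) := P.m_sub.comp (h.prodMk h')
@[fun_prop] theorem m_n2 (h : Measurable β) (h' : Measurable u) :
    Measurable fun z => P.n2 (β z) (u z) := P.m_n2.comp (h.prodMk h')
@[fun_prop] theorem m_m2 (h : Measurable β) (h' : Measurable u) :
    Measurable fun z => P.m2 (β z) (u z) := P.m_m2.comp (h.prodMk h')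

end

/-- The list of statements. The labels: 0 ideal, 1 convergent, 2 plus, 3 regime, 4 compatible,
5 not hit, 6 and 7 separating, 8 centre, 9 trap, 10 and 11 the cases, from 12 on the classes. -/
def ax (P : Par B L) : ℕ → TA
  | 0 => { X := Sn × Sn × Sn, Y := Prop
           ψ := fun x _ => cons (tg 0 x.1) (cons (tg 0 x.2.1) fun _ => tg 0 x.2.2)
           D := fun x _ t => t 0 → t 1 → (∀ i, x.2.2 i → x.1 i ∨ x.2.1 i) → t 2
           mψ := by fun_prop, mD := by fun_prop }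
  | 1 => { X := Sn, Y := Prop, ψ := fun x _ _ => tg 0 x, D := fun x _ t => ¬ Inf x → t 0
           mψ := by fun_prop, mD := by fun_prop }
  | 2 => { X := Nu × Sn, Y := Prop, ψ := fun x _ => cons (tg 4 x.1) fun _ => tg 0 x.2
           D := fun x _ t => t 0 → t 1 → ¬ Null x.1 fun e => ¬ x.2 e
           mψ := by fun_prop, mD := by fun_prop }
  | 3 => { X := Nu, Y := Sn, ψ := fun x y => cons (tg 4 x) fun _ => tg 0 y
           D := fun x y t => ¬ t 0 → t 1 ∧ Null x fun e => ¬ y e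
           mψ := by fun_prop, mD := by fun_prop }
  | 4 => { X := Mu × Sn, Y := Sn
           ψ := fun x y => cons (tg 5 x.1) (cons (tg 1 x.2) fun _ => tg 0 y)
           D := fun x y t => t 0 → t 1 → t 2 ∧ Null (sec x.1 x.2) fun e => ¬ y e
           mψ := by fun_prop, mD := by fun_prop }
  | 5 => { X := Mu, Y := Sn
           ψ := fun x y => cons (tg 5 x) (cons (tg 1 y) fun _ => tg 4 (sec x y))
           D := fun _ _ t => ¬ t 0 → t 1 ∧ t 2
           mψ := by fun_prop, mD := by fun_prop }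
  | 6 => { X := Sn, Y := Sn, ψ := fun _ y _ => tg 1 y
           D := fun x y t => Inf x → t 0 ∧ Inf y ∧ ∀ i, y i → x i
           mψ := by fun_prop, mD := by fun_prop }
  | 7 => { X := Sn, Y := Sn
           ψ := fun x y => cons (tg 1 x) (cons (tg 2 (x, y)) fun _ => tg 0 y)
           D := fun _ _ t => t 0 → t 1 ∧ t 2
           mψ := by fun_prop, mD := by fun_prop }
  | 8 => { X := Nu × Nu × Sq, Y := Sn × Sq
           ψ := fun x y => cons (tg 3 x.1) (cons (tg 0 y.1) fun _ => tg 6 (x.2.1, y.2))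
           D := fun x y t => t 0 → Norm x.2.1 → Adm x.1 x.2.1 →
             (t 1 ∧ ∀ k, Null x.2.1 fun e => x.2.2 k e ∧ ¬ y.1 e) ∨
               (t 2 ∧ ∀ m, ¬ Null x.2.1 (y.2 m) ∧ ∃ k, ∀ e, y.2 m e → x.2.2 k e)
           mψ := by fun_prop, mD := by fun_prop }
  | 9 => { X := (Nu × Sq) × Sn, Y := Prop, ψ := fun x _ => cons (tg 6 x.1) fun _ => tg 0 x.2
           D := fun x _ t => t 0 → t 1 → ∃ m, Null x.1.1 fun e => x.1.2 m e ∧ x.2 e
           mψ := by fun_prop, mD := by fun_prop }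
  | 10 => { X := Nu × Nu, Y := Lf × Nf
            ψ := fun x y => cons (tg 3 x.1) (cons (tg 4 x.2) fun _ => tg 7 (x.2, y))
            D := fun x y t => t 0 → Norm x.2 → Adm x.1 x.2 → t 1 → t 2 ∧ JF.Thin y.1 ∧
              (∀ s i, y.1 s → ¬ Null x.2 (y.2 s i)) ∧ ∀ s i e, y.2 s (i + 1) e → y.2 s i e
            mψ := by fun_prop, mD := by fun_prop }
  | 11 => { X := (Nu × Lf × Nf) × Sn × Sn, Y := Prop
            ψ := fun x _ => cons (tg 7 x.1) fun _ => tg 0 x.2.1
            D := fun x _ t => t 0 → t 1 → Inf x.2.2 → ∃ s, x.1.2.1 s ∧ (∀ i ∈ s, x.2.2 i) ∧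
              ∃ i, Null x.1.1 fun e => x.1.2.2 s i e ∧ x.2.1 e
            mψ := by fun_prop, mD := by fun_prop }
  | 12 => { X := Sq, Y := Sn, ψ := fun x y => cons (tg 8 (x, y)) fun i => tg 1 (x i)
            D := fun _ _ t => (∀ i, t (i + 1)) → t 0
            mψ := by fun_prop, mD := by fun_prop }
  | 13 => { X := Sq × Sn × Sn, Y := Prop
            ψ := fun x _ => cons (tg 8 (x.1, x.2.1)) (cons (tg 1 x.2.2) fun n => tg (n + 12) x)
            D := fun _ _ t => t 0 → t 1 → ∃ n, t (n + 2)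
            mψ := by fun_prop, mD := by fun_prop }
  | 14 => { X := (Sq × Sq) × Sn × Sn, Y := Prop
            ψ := fun x _ => cons (tg 9 x.1) fun _ => tg 2 x.2
            D := fun x _ t => t 0 → t 1 → Often x.2.1 x.1.1 → Often x.2.1 x.1.2 →
              ∃ j, Inf (x.1.2 j) ∧ ¬ Inf fun e => x.1.2 j e ∧ ¬ x.2.2 e
            mψ := by fun_prop, mD := by fun_prop }
  | 15 => { X := Prop, Y := Nu × B
            ψ := fun _ y => cons (tg 3 y.1) (cons (tg 4 y.1) (cons (tg 11 True)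
              (cons (tg 10 y.2) fun _ => tg 4 (P.n1 y.2))))
            D := fun _ y t => t 0 ∧ Norm y.1 ∧ t 1 ∧ (t 2 ∨ (t 3 ∧ P.ok y.1 y.2 ∧ t 4))
            mψ := by fun_prop, mD := by fun_prop }
  | 16 => { X := B × L, Y := Prop
            ψ := fun x _ => cons (tg 10 x.1) (cons (tg 4 (P.n2 x.1 x.2)) fun _ => tg 5 (P.m2 x.1 x.2))
            D := fun x _ t => t 0 → P.sub x.1 x.2 → t 1 → ¬ t 2
            mψ := by fun_prop, mD := by fun_prop }
  | 17 => { X := Nu × B, Y := L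
            ψ := fun x y => cons (tg 11 True) (cons (tg 3 x.1) (cons (tg 4 (P.n1 x.2))
              (cons (tg 4 (P.n2 x.2 y)) fun _ => tg 5 (P.m2 x.2 y))))
            D := fun x y t => t 0 → t 1 → P.ok x.1 x.2 → t 2 → P.sub x.2 y ∧ t 3 ∧ t 4
            mψ := by fun_prop, mD := by fun_prop }
  | n + 18 => { X := Sq × Sn × Sq, Y := Sq × Sq
                ψ := fun x y => cons (tg 9 y) fun j => tg (n + 12) (x.1, x.2.1, x.2.2 j)
                D := fun x y t => (∀ j, t (j + 1)) → t 0 ∧ (∀ i e, y.1 i e → x.1 i e) ∧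
                  (∀ j e, y.2 j e → x.2.2 j e) ∧ (Inf fun i => Inf (y.1 i)) ∧
                    Inf fun j => Inf (y.2 j)
                mψ := by fun_prop, mD := by fun_prop }

/-- The names of the statements that a marking gives. -/
def th (κ : (Set U → RR) → Set U → Prop) : Tg B where
  II K := κ fun G => tg 0 (K G)
  Conv K := κ fun G => tg 1 (K G)
  Plus K K' := κ fun G => tg 2 (K G, K' G)
  Reg ν := κ fun G => tg 3 (ν G)
  Comp ν := κ fun G => tg 4 (ν G)
  NHit μ := κ fun G => tg 5 (μ G)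
  Sep ν N := κ fun G => tg 6 (ν G, N G)
  SepT ν F N := κ fun G => tg 7 (ν G, F G, N G)
  Ctr x S := κ fun G => tg 8 (x G, S G)
  Trap u u' := κ fun G => tg 9 (u G, u' G)
  Two β := κ fun G => tg 10 (β G)
  One := κ fun _ => tg 11 True
  Cl n x S y := κ fun G => tg (n + 12) (x G, S G, y G)

variable {b : Rl} [PO b] {p : U} {κ : (Set U → RR) → Set U → Prop}

theorem ta {a : ℕ → TA} (h : Mdl (axs a) b p κ) (i : ℕ) (f : Set U → (a i).X) (hf : NB b f) :
    ∃ g : Set U → (a i).Y, NB b g ∧ Fc b p fun G =>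
      (a i).D (f G) (g G) fun n => κ (fun G => (a i).ψ (f G) (g G) n) G := by
  obtain ⟨g, h1, h2⟩ := h.ax i (fun G => enc (f G)) (hf.comp me)
  exact ⟨fun G => dec (g G), h1.comp md, by simpa only [axs, de] using h2⟩

theorem cgr {C : Axs} (h : Mdl C b p κ) {X : Type} [MeasurableSpace X] [Cd X] (t : ℕ)
    {f g : Set U → X} (hf : NB b f) (hg : NB b g) : Fc b p fun G => f G = g G →
      κ (fun G => tg t (f G)) G → κ (fun G => tg t (g G)) G := by
  have h1 : NB b fun G => tg t (f G) := hf.comp (m_tg t measurable_id)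
  have h2 : NB b fun G => tg t (g G) := hg.comp (m_tg t measurable_id)
  refine .glue fun r hr => ?_
  obtain ⟨s, s1, s2 | s2⟩ := (NB.dec (Measurable.eq h1 h2)) r (PO.l hr)
  · exact ⟨s, s1, (h.cg _ _ s (PO.l s1) h1 h2 s2).imp fun _ e _ => e.1⟩
  · exact ⟨s, s1, s2.imp fun _ e e' => absurd (congrArg (tg t) e') e⟩

/-- If every named infinite set contains a member, then every infinite set does. -/
theorem front_of {hy : Set U → Prop} {F : Set U → Finset ℕ → Prop} (nh : NB b hy) (nF : NB b F)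
    (h : ∀ H : Set U → ℕ → Prop, NB b H → Fc b p fun G => hy G → Inf (H G) →
      ∃ t, F G t ∧ ∀ i ∈ t, H G i) : Fc b p fun G => hy G → JF.Front (F G) := by
  let W : Finset ℕ → Set U → Prop := fun s G => hy G ∧ ∃ H : Set ℕ, H.Infinite ∧
    (s : Set ℕ) ⊆ H ∧ ∀ t, F G t → ¬ (t : Set ℕ) ⊆ H
  let Lv : Finset ℕ → U → Prop := fun s r => b r r ∧ ∀ r', b r' r → ¬ Fc b r' fun G => ¬ W s G
  refine .glue fun q hq => not_not.1 fun hn => ?_
  have imp : ∀ s (T : Set U → Prop), (∀ r, Lv s r → Fc b r T) →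
      Fc b q fun G => (∃ r ∈ G, Lv s r) → T G := fun s T hT => .glue fun r hr => by
    by_cases hc : ∃ t a, b t r ∧ b t a ∧ Lv s a
    · obtain ⟨t, a, h1, h2, h3⟩ := hc
      exact ⟨t, h1, ((hT a h3).mono h2).imp fun _ h _ => h⟩
    · exact ⟨r, PO.l hr, .of_flt fun G hG h1 ⟨a, h2, h3⟩ =>
        let ⟨t, _, h4, h5⟩ := hG.dir _ h1 _ h2; (hc ⟨t, a, h4, h5, h3⟩).elim⟩
  have h1 : Fc b q fun G => ∀ s m, (∃ r ∈ G, Lv s r) → ∃ k, m ≤ k ∧ ∃ r ∈ G, Lv (insert k s) r :=
    .all fun s => .all fun m => imp s _ fun r hr =>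
      (Fc.meet (D := fun t => ∃ k, m ≤ k ∧ Lv (insert k s) t) fun t ht => by
        by_contra hc
        simp only [Lv, not_exists, not_and, not_forall, not_not] at hc
        refine hr.2 t ht ((Fc.all fun k : Ici m => Fc.glue fun a ha => ?_).imp
          (S := fun G => ∀ k : Ici m, ¬ W (insert k.1 s) G) ?_)
        · obtain ⟨c, c1, c2⟩ := hc a ha k k.2 (PO.l ha)
          exact ⟨c, c1, c2⟩
        · rintro G hG ⟨g1, H, g2, g3, g4⟩
          obtain ⟨k, k1, k2⟩ := g2.exists_gt m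
          exact hG ⟨k, k2.le⟩ ⟨g1, H, g2, by
            rw [Finset.coe_insert]; exact insert_subset k1 g3, g4⟩).imp
        fun G ⟨t, h1, k, h2, h3⟩ => ⟨k, h2, t, h1, h3⟩
  have h2 : Fc b q fun G => ∀ s, (∃ r ∈ G, Lv s r) → hy G ∧ ∀ t, t ⊆ s → ¬ F G t :=
    .all fun s => imp s _ fun r hr => Dec.fc (nh.and (NB.all fun t => (nb_const (t ⊆ s)).imp
      (nF.ap t).not)).dec fun t ht h => hr.2 t ht (h.imp fun _ h ⟨g1, H, _, g3, g4⟩ =>
        h ⟨g1, fun t e e' => g4 t e' ((Finset.coe_subset.2 e).trans g3)⟩)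
  have h0 : Lv ∅ q := ⟨PO.l hq, fun r hr e => hn ⟨r, hr, e.imp fun G e g1 H g2 => by
    by_contra hc
    exact e ⟨g1, H, g2, by simp, fun t t1 t2 => hc ⟨t, t1, t2⟩⟩⟩⟩
  have h3 := (h1.and (h2.and Fc.self)).imp (T := fun G => hy G ∧ ∃ H : ℕ → Prop, Inf H ∧
      ∀ t, F G t → ¬ ∀ i ∈ t, H i) fun G ⟨g1, g2, g3⟩ => by
    choose! k k1 k2 using g1
    let s : ℕ → Finset ℕ := fun n => Nat.rec ∅ (fun n s => insert (k s n) s) n
    have s1 : ∀ n, ∃ r ∈ G, Lv (s n) r := fun n => by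
      induction n with
      | zero => exact ⟨q, g3, h0⟩
      | succ n ih => exact k2 _ n ih
    have s2 : Monotone s := monotone_nat_of_le_succ fun n => Finset.subset_insert _ _
    refine ⟨(g2 _ (s1 0)).1, fun i => ∃ n, i ∈ s n, fun m => ⟨k (s m) m, k1 _ m (s1 m), m + 1,
      Finset.mem_insert_self _ _⟩, fun t t1 t2 => ?_⟩
    choose! n hn using t2
    exact (g2 _ (s1 (t.sup n))).2 t (fun i hi => s2 (Finset.le_sup hi) (hn i hi)) t1
  obtain ⟨H, n1, n2⟩ := nb_unif (C := fun (x : Finset ℕ → Prop) (H : ℕ → Prop) => Inf H ∧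
    ∀ t, x t → ¬ ∀ i ∈ t, H i) (by fun_prop) nF (h3.imp fun _ h => h.2)
  exact Fc.not_false (PO.l hq) ((((h H n1).mono hq).and (h3.and n2)).imp fun G ⟨g1, g2, g3⟩ =>
    let ⟨t, t1, t2⟩ := g1 g2.1 g3.1; g3.2 t t1 t2)

theorem ns_of {P : Par B L} (h : Mdl (axs (ax P)) b p κ) : NS P b p (th κ) := by
  have fin : ∀ {A : N_ Sn}, NB b A → Fc b p fun G => ¬ Inf (A G) → (th (B := B) κ).II A G :=
    fun {A} h1 => let ⟨_, _, e⟩ := ta h 1 A h1; e
  have se : ∀ {ν : N_ Nu} {F : N_ Lf} {N : N_ Nf} {K H : N_ Sn}, NB b ν → NB b F → NB b N →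
      NB b K → NB b H → Fc b p fun G => (th (B := B) κ).SepT ν F N G → (th (B := B) κ).II K G →
        Inf (H G) → ∃ t, F G t ∧ (∀ i ∈ t, H G i) ∧ ∃ i, Null (ν G) fun e => N G t i e ∧ K G e :=
    fun {ν F N K H} h1 h2 h3 h4 h5 =>
      let ⟨_, _, e⟩ := ta h 11 (fun G => ((ν G, F G, N G), K G, H G))
        ((h1.mk (h2.mk h3)).mk (h4.mk h5))
      e
  refine
    { nb_II := fun _ => h.nb _, nb_Conv := fun _ => h.nb _, nb_Comp := fun _ => h.nb _
      nb_NHit := fun _ => h.nb _, nb_Plus := fun _ _ => h.nb _, nb_Sep := fun _ _ => h.nb _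
      nb_Cl := fun _ _ _ => h.nb _, nb_Two := fun _ => h.nb _, nb_One := h.nb _
      cg_Conv := cgr h 1, cg_Comp := cgr h 4
      cg_Cl := fun {n x S y y'} h1 h2 h3 h4 =>
        (cgr h (n + 12) (h1.mk (h2.mk h3)) (h1.mk (h2.mk h4))).imp fun G e e' => e (by rw [e'])
      union := fun {K K' A} h1 h2 h3 =>
        let ⟨_, _, e⟩ := ta h 0 (fun G => (K G, K' G, A G)) (h1.mk (h2.mk h3)); e
      fin := fin
      comp_elim := fun {ν K} h1 h2 => let ⟨_, _, e⟩ := ta h 2 (fun G => (ν G, K G)) (h1.mk h2); e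
      comp_intro := fun {ν} h1 => ta h 3 ν h1
      nhit_elim := fun {μ K} h1 h2 => ta h 4 (fun G => (μ G, K G)) (h1.mk h2)
      hit := fun {μ} h1 => ta h 5 μ h1
      conv := fun {A} h1 => ta h 6 A h1
      plus := fun {K} h1 => ta h 7 K h1
      rk := fun {ν0 ν E} h1 h2 h3 =>
        let ⟨g, g1, e⟩ := ta h 8 (fun G => (ν0 G, ν G, E G)) (h1.mk (h2.mk h3))
        ⟨fun G => (g G).1, fun G => (g G).2, g1.comp measurable_fst, g1.comp measurable_snd, e⟩
      sep_elim := fun {ν N K} h1 h2 h3 =>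
        let ⟨_, _, e⟩ := ta h 9 (fun G => ((ν G, N G), K G)) ((h1.mk h2).mk h3); e
      sepb := fun {ν0 ν} h1 h2 => ?_
      sept_elim := se
      ctr := fun {x} h1 => ta h 12 x h1
      cl := fun {x S y} h1 h2 h3 =>
        let ⟨_, _, e⟩ := ta h 13 (fun G => (x G, S G, y G)) (h1.mk (h2.mk h3)); e
      trap := fun {x S x'} n h1 h2 h3 =>
        let ⟨g, g1, e⟩ := ta h (n + 18) (fun G => (x G, S G, x' G)) (h1.mk (h2.mk h3))
        ⟨fun G => (g G).1, fun G => (g G).2, g1.comp measurable_fst, g1.comp measurable_snd, e⟩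
      trap_elim := fun {u u' K K'} h1 h2 h3 h4 =>
        let ⟨_, _, e⟩ := ta h 14 (fun G => ((u G, u' G), K G, K' G)) ((h1.mk h2).mk (h3.mk h4)); e
      start := let ⟨g, g1, e⟩ := ta h 15 (fun _ => True) (nb_const _)
        ⟨fun G => (g G).1, fun G => (g G).2, g1.comp measurable_fst, g1.comp measurable_snd, e⟩
      two := fun {β u} h1 h2 => let ⟨_, _, e⟩ := ta h 16 (fun G => (β G, u G)) (h1.mk h2); e
      one := fun {ν0 β} h1 h2 => ta h 17 (fun G => (ν0 G, β G)) (h1.mk h2) }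
  obtain ⟨g, g1, e⟩ := ta h 10 (fun G => (ν0 G, ν G)) (h1.mk h2)
  have a1 : NB b fun G => (g G).1 := g1.comp measurable_fst
  have a2 : NB b fun G => (g G).2 := g1.comp measurable_snd
  have a3 := front_of (p := p) (h.nb fun G => tg 7 (ν G, (g G).1, (g G).2)) a1 fun H hH =>
    ((se h2 a1 a2 (nb_const fun _ => False) hH).and (fin (nb_const fun _ => False))).imp
      fun G ⟨e1, e2⟩ e3 e4 => let ⟨t, t1, t2, _⟩ := e1 e3 (e2 fun h => (h 0).elim fun _ h => h.2) e4
        ⟨t, t1, t2⟩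
  exact ⟨_, _, a1, a2, (e.and a3).imp fun G ⟨e1, e2⟩ c1 c2 c3 c4 =>
    let ⟨d1, d2, d3⟩ := e1 c1 c2 c3 c4; ⟨d1, d2, e2 d1, d3⟩⟩

theorem per_of {c : Rl} [PO c] {κ' : (Set U → RR) → Set U → Prop}
    (h : ∀ f, NB b f → Fc c p fun G => κ' f G ↔ κ f G) :
    Per (B := B) b c p (th κ) (th κ') :=
  have key : ∀ {X : Type} [MeasurableSpace X] [Cd X] (t : ℕ) {f : Set U → X}, NB b f →
      Fc c p fun G => κ (fun G => tg t (f G)) G → κ' (fun G => tg t (f G)) G :=
    fun t _ hf => (h _ (hf.comp (m_tg t measurable_id))).imp fun _ e => e.2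
  ⟨key 0, fun h1 h2 => key 2 (h1.mk h2), key 3, key 5, fun h1 h2 => key 6 (h1.mk h2)⟩

end Pool.Agent.MP_5baa61_gt.JK.Br
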