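import Pool.Agent.MP_5baa61_gt.JK.MDef

/-! Convergent sets in a compact weakly first countable space of the model. -/

namespace Pool.Agent.MP_5baa61_gt.JK

open Function Set Pool.Agent.ZF92 Pool.Agent.MP_b60a07_lc.H92
open scoped Classical

set_option linter.unusedSectionVars false

universe u w

theorem not_inf {A : Sn} : ¬ Inf A ↔ ∃ m, ∀ i, m ≤ i → ¬ A i := by
  simp only [Inf, not_forall, not_exists, not_and]

theorem Inf.diff {A B : Sn} (h : Inf A) (h' : ¬ Inf fun i => A i ∧ ¬ B i) :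
    Inf fun i => A i ∧ B i :=
  (Inf.or (h.mono fun i hi => (em (B i)).imp (fun h => ⟨hi, h⟩) fun h => ⟨hi, h⟩)).resolve_right h'

theorem inf_all {A : Sn} (h : ∀ i, A i) : Inf A := fun m => ⟨m, le_rfl, h m⟩

variable {M : Set ZFSet.{0}} [hM : Fact (ZFC M)]
variable {K : Type w} [Srt M K] [Sm M K] [TopologicalSpace K] [DTop M K] [T2Space K]
variable {V : K → ℕ → PS M K} {u d : ℕ → K} {S : ℕ → Prop} {y z : K}

theorem df_lim (hV : WB M V) (du : DfF M u) {Z : Type u} [Srt M Z] {S : Z → Sn}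
    (dS : DfF M fun z : Z × ℕ => S z.1 z.2) {g : Z → K} (dg : DfF M g) :
    DfF M fun z => Lim V u (S z) (g z) := by
  have dV := hV.df
  simp only [Lim, Inf, all_iff]; fun_prop

/-- A convergent sequence is eventually inside every neighbourhood of the limit. -/
theorem Lim.ev (hV : WB M V) (h : Lim V u S y) {o : Set K} (ho : IsOpen o) (hy : y ∈ o) :
    ¬ Inf fun i => S i ∧ u i ∉ o := fun hn =>
  let ⟨n, h1⟩ := hV.nhds ho hy
  h.2 n (hn.mono fun _ hi => ⟨hi.1, fun h => hi.2 (h1 _ h)⟩)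

theorem Lim.inf (hV : WB M V) (h : Lim V u S y) {o : Set K} (ho : IsOpen o) (hy : y ∈ o) :
    Inf fun i => S i ∧ u i ∈ o := h.1.diff (h.ev hV ho hy)

theorem Lim.mem_closure (hV : WB M V) (h : Lim V u S y) {s : Set K}
    (hs : Inf fun i => S i ∧ u i ∈ s) : y ∈ closure s := by
  by_contra hn
  exact h.ev hV isClosed_closure.isOpen_compl hn
    (hs.mono fun i hi => ⟨hi.1, fun h => h (subset_closure hi.2)⟩)

/-- The limit is the only point whose weak neighbourhoods are all met infinitely often. -/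
theorem Lim.eq (hV : WB M V) (h : Lim V u S y) (h' : ∀ j, Inf fun i => S i ∧ u i ∈ V z j) :
    y = z := by
  by_contra e
  obtain ⟨a, c, ha, hc, h1, h2, h3⟩ := t2_separation e
  obtain ⟨n, hn⟩ := hV.nhds hc h2
  exact h.ev hV ha h1 ((h' n).mono fun i hi => ⟨hi.1, fun h => disjoint_left.1 h3 h (hn _ hi.2)⟩)

theorem Lim.unique (hV : WB M V) (h : Lim V u S y) (h' : Lim V u S z) : y = z :=
  h.eq hV fun j => h'.1.diff (h'.2 j)

theorem lim_of (hV : WB M V) (du : DfF M u) (dS : DfF M S)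
    (h : ∀ j, Inf fun i => S i ∧ u i ∈ V y j) :
    ∃ B : Sn, DfF M B ∧ (∀ i, B i → S i) ∧ Lim V u B y := by
  have dV := hV.df
  obtain ⟨c, dc, hc⟩ := exists_choice (M := M)
    (R := fun (n i : ℕ) => n ≤ i ∧ S i ∧ u i ∈ V y n) (by fun_prop) fun n => h n n
  refine ⟨fun i => ∃ n, c n = i, by fun_prop, ?_, fun m => ⟨c m, (hc m).1, m, rfl⟩,
    fun j => not_inf.2 ⟨(Finset.range j).sup c + 1, ?_⟩⟩
  · rintro _ ⟨n, rfl⟩
    exact (hc n).2.1
  · rintro _ h1 ⟨⟨n, rfl⟩, h2⟩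
    rcases lt_or_ge n j with h3 | h3
    · exact absurd (Finset.le_sup (f := c) (Finset.mem_range.2 h3)) (by omega)
    · exact h2 (hV.mono h3 (hc n).2.2)

/-- Sequential compactness. -/
theorem lim_exists (hK : MCpt M K) (hV : WB M V) (du : DfF M u) (dS : DfF M S) (hS : Inf S) :
    ∃ B : Sn, DfF M B ∧ (∀ i, B i → S i) ∧ ∃ y, Lim V u B y := by
  by_contra hn
  have h1 : ∀ x, ∃ n m, ∀ i, m ≤ i → ¬ (S i ∧ u i ∈ V x n) := fun x => by
    by_contra hc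
    obtain ⟨B, h1, h2, h3⟩ := lim_of hV du dS (y := x) fun j => by
      by_contra h
      exact hc ⟨j, not_inf.1 h⟩
    exact hn ⟨B, h1, h2, x, h3⟩
  obtain ⟨y, hy⟩ := exists_acc hK du dS hS
  obtain ⟨n, m, h2⟩ := h1 y
  have ho : IsOpen {x | ¬ ∃ i, (m ≤ i ∧ S i) ∧ u i = x} :=
    (hV.op _ (by fun_prop)).2 fun x hx => by
      obtain ⟨n', m', h3⟩ := h1 x
      have hf : (u '' {i | i < m' ∧ m ≤ i ∧ S i}).Finite :=
        ((finite_lt_nat m').subset fun _ h => h.1).image _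
      obtain ⟨k, hk⟩ := hV.nhds hf.isClosed.isOpen_compl (x := x)
        fun ⟨i, h4, h5⟩ => hx ⟨i, h4.2, h5⟩
      refine ⟨max n' k, ?_⟩
      rintro _ h4 ⟨i, h5, rfl⟩
      rcases lt_or_ge i m' with h6 | h6
      · exact hk _ (hV.mono (le_max_right _ _) h4) ⟨i, ⟨h6, h5⟩, rfl⟩
      · exact h3 i h6 ⟨h5.2, hV.mono (le_max_left _ _) h4⟩
  obtain ⟨i, h3, h4, h5⟩ := acc_iff.1 hy _ ho
    (fun ⟨i, h3, h4⟩ => h2 i h3.1 ⟨h3.2, h4 ▸ hV.self y n⟩) m
  exact h5 ⟨i, ⟨h3, h4⟩, rfl⟩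

theorem CtrAt.unique (hV : WB M V) {x : ℕ → Sn} (h : CtrAt V d x S y) (h' : CtrAt V d x S z) :
    y = z := by
  obtain ⟨f, h1, h2⟩ := h
  obtain ⟨g, h3, h4⟩ := h'
  obtain rfl : f = g := Fn.ext fun i => (h1 i).unique hV (h3 i)
  exact h2.unique hV h4

theorem Often.inf {A : Sn} {v : ℕ → Sn} {P : Sn} (h : Often A v) (j0 : ℕ)
    (e : ∀ j i, j0 ≤ j → v j i → P i) : Inf fun i => A i ∧ P i := fun m =>
  let ⟨j, h1, i, h2, h3, h4⟩ := h (max m j0)
  ⟨i, (le_max_left _ _).trans h2, h3, e j i ((le_max_right _ _).trans h1) h4⟩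

theorem exists_cvg {p : K} {n0 : ℕ} (h : Bad V d p n0) : Cvg V d := by
  have hK := h.cpt
  have hV := h.wb
  have dd := h.dd
  have dV := hV.df
  have lims : ∀ x : ℕ → Sn, (DfF M fun z : ℕ × ℕ => x z.1 z.2) → (∀ i, ∃ y, Lim V d (x i) y) →
      ∃ f : ℕ → K, DfF M f ∧ ∀ i, Lim V d (x i) (f i) := fun x dx hx =>
    exists_choice (M := M) (R := fun i y => Lim V d (x i) y)
      (df_lim hV dd (S := fun z : ℕ × K => x z.1) (by fun_prop) (by fun_prop)) hx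
  refine ⟨fun A dA hA => lim_exists hK hV dd dA hA, fun x dx hx => ?_, ?_,
    fun n x S x' dx dx' hx => ?_⟩
  · obtain ⟨f, df, hf⟩ := lims x dx hx
    obtain ⟨S, dS, -, z, hz⟩ := lim_exists hK hV df (S := fun _ => True) (by fun_prop)
      (inf_all fun _ => trivial)
    exact ⟨S, dS, z, ⟨f, df⟩, hf, hz⟩
  · rintro x S y ⟨z, hz⟩ ⟨v, hv⟩
    by_cases e : v = z
    · exact ⟨0, z, hz, v, hv, .inl ⟨rfl, e⟩⟩
    · obtain ⟨m, hm⟩ := hV.nhds (isOpen_compl_singleton (x := v)) (show z ∈ _ from Ne.symm e)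
      exact ⟨m + 1, z, hz, v, hv, .inr ⟨m, rfl, fun h => hm v h rfl⟩⟩
  obtain ⟨z, hz, -⟩ := hx 0
  have h1 : ∀ j, ∃ v, Lim V d (x' j) v ∧ ((n = 0 ∧ v = z) ∨ ∃ m, n = m + 1 ∧ v ∉ V z m) :=
    fun j => let ⟨_, h1, h2⟩ := hx j; h1.unique hV hz ▸ h2
  obtain ⟨f, hf, hS⟩ := hz
  rcases n with _ | m
  · have h2 : ∀ j, Lim V d (x' j) z := fun j => by
      obtain ⟨v, h2, ⟨-, rfl⟩ | ⟨m, h3, -⟩⟩ := h1 j
      exacts [h2, absurd h3 (by omega)]
    have h3 : ∀ j, Inf fun e => x' j e ∧ d e ∈ V z j := fun j => (h2 j).1.diff ((h2 j).2 j)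
    refine ⟨x, fun j e => x' j e ∧ d e ∈ V z j, dx, by fun_prop, ?_, fun _ _ => id,
      fun _ _ h => h.1, inf_all fun i => (hf i).1, inf_all h3⟩
    rintro A A' ⟨y, hy, l, hl⟩ - h4
    obtain rfl : y = z := hy.eq hV fun j => h4.inf j fun _ _ h5 h6 => hV.mono h5 h6.2
    exact ⟨0, h3 0, fun h5 => (h2 0).2 l (h5.mono fun e he => ⟨he.1.1, fun h => he.2 ((hl e).2 h)⟩)⟩
  · obtain ⟨g, dg, hg⟩ := lims x' dx' fun j => (h1 j).imp fun _ h => h.1
    have h2 : ∀ j, g j ∉ V z m := fun j => by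
      obtain ⟨v, h2, ⟨h3, -⟩ | ⟨m', h3, h4⟩⟩ := h1 j
      · exact absurd h3 (by omega)
      · obtain rfl : m = m' := by omega
        exact h2.unique hV (hg j) ▸ h4
    obtain ⟨S', -, -, z', hS'⟩ := lim_exists hK hV dg (S := fun _ => True) (by fun_prop)
      (inf_all fun _ => trivial)
    have e : z ≠ z' := by
      rintro rfl
      exact hS'.2 m (hS'.1.mono fun j hj => ⟨hj, h2 j⟩)
    obtain ⟨a, c, ha, hc, h3, h4, h5⟩ := t2_separation e
    obtain ⟨W, w1, w2, w3⟩ := reg hK ha h3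
    obtain ⟨W', v1, v2, v3⟩ := reg hK hc h4
    refine ⟨fun i e => x i e ∧ d e ∈ W, fun j e => x' j e ∧ d e ∈ W', by fun_prop, by fun_prop, ?_,
      fun _ _ h => h.1, fun _ _ h => h.1,
      (hS.inf hV w1 w2).mono fun i hi => (hf i).inf hV w1 hi.2,
      (hS'.inf hV v1 v2).mono fun j hj => (hg j).inf hV v1 hj.2⟩
    rintro A A' ⟨y, hy, -⟩ h6 h7
    exact (disjoint_left.1 h5 (w3 y (hy.mem_closure hV (h6.inf 0 fun _ _ _ h => h.2)))
      (v3 y (hy.mem_closure hV (h7.inf 0 fun _ _ _ h => h.2)))).elim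

end Pool.Agent.MP_5baa61_gt.JK
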