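import Pool.Agent.MP_5baa61_gt.JK.MDef

/-! The two regimes: an ideal and a norm for a sequence that clusters at a bad point. -/

namespace Pool.Agent.MP_5baa61_gt.JK

open Function Set Pool.Agent.ZF92 Pool.Agent.MP_b60a07_lc.H92
open scoped Classical

set_option linter.unusedSectionVars false

universe w

variable {M : Set ZFSet.{0}} [hM : Fact (ZFC M)]
variable {K : Type w} [Srt M K] [Sm M K] [TopologicalSpace K] [DTop M K] [T2Space K]
variable {V : K → ℕ → PS M K} {d : ℕ → K} {p : K} {n0 : ℕ}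

/-- The first regime: every point has a weak neighbourhood with a null trace. -/
theorem rg_of_null {ν0 : Nu} (d0 : DfF M fun z : ℕ × Finset ℕ => ν0 z.1 z.2) (hn : Norm ν0)
    (hp : ¬ Null ν0 fun _ => True) (h : ∀ y, ∃ j, Null ν0 fun i => d i ∈ V y j) :
    Rg V d (Null ν0) ν0 := by
  have e0 : ∀ i : ℕ, i ∉ PS.of M fun _ : ℕ => False := fun i => by
    rw [PS.mem_of (by fun_prop)]; exact id
  refine ⟨by simp only [Null, all_iff, imp_iff]; fun_prop, d0, hn,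
    fun A B C hA hB e => hn.union hA hB e, fun A hA => hn.fin hA,
    fun A hA hB => hp (hn.union hA hB fun i _ => em _), h, fun ν E dν dE h1 h2 => ?_,
    fun ν dν h1 h2 h3 => ?_⟩
  · by_cases hc : ∀ k, Null ν (E k)
    · exact .inl ⟨fun _ => False, by fun_prop, hn.empty fun _ => id,
        fun k => (hc k).mono fun _ h => h.1⟩
    · obtain ⟨k, hk⟩ := not_forall.1 hc
      exact .inr ⟨fun _ => E k, by fun_prop, fun A hA => ⟨0, (h2.null hA).mono fun _ h => h.2⟩,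
        fun _ => ⟨hk, k, fun _ => id⟩⟩
  · refine ⟨fun t => t = ∅, fun _ _ => True, by fun_prop, by fun_prop, fun A H hA _ =>
      ⟨∅, rfl, fun i hi => absurd hi (Finset.notMem_empty i), 0,
        (h2.null hA).mono fun _ h => h.2⟩, fun t t' e e' _ _ => e.trans e'.symm,
      fun _ _ _ h => h3 _ (hn.empty e0) (h.mono fun _ _ => trivial), fun _ _ _ _ => trivial⟩

/-- Every proper norm of the model has a point all of whose traces are positive. -/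
def RegN (V : K → ℕ → PS M K) (d : ℕ → K) : Prop :=
  ∀ ν : Nu, (DfF M fun z : ℕ × Finset ℕ => ν z.1 z.2) → Norm ν → (¬ Null ν fun _ => True) →
    ∃ y, ∀ j, ¬ Null ν fun i => d i ∈ V y j

/-- The point is not in the closure of the subsequence. -/
def Far (d : ℕ → K) (y : K) (A : Sn) : Prop := y ∉ closure {x | ∃ i, A i ∧ d i = x}

theorem Far.trace (hV : WB M V) {y : K} {A : Sn} (h : Far d y A) :
    ∃ j, ∀ z ∈ V y j, Far d z A := hV.nhds isClosed_closure.isOpen_compl h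

theorem Far.not {A : Sn} {i : ℕ} (h : Far d (d i) A) : ¬ A i := fun hi =>
  h (subset_closure ⟨i, hi, rfl⟩)

theorem far_of (h : Bad V d p n0) (hN : RegN V d) {ν : Nu} {E : ℕ → Sn}
    (dν : DfF M fun z : ℕ × Finset ℕ => ν z.1 z.2) (dE : DfF M fun z : ℕ × ℕ => E z.1 z.2)
    (hn : Norm ν) (hp : p ∉ closure {y | ∃ k, ∀ j, ¬ Null ν fun e => E k e ∧ d e ∈ V y j}) :
    ∃ R : Sn, DfF M R ∧ Far d p R ∧ ∀ k, Null ν fun e => E k e ∧ ¬ R e := by
  have dd := h.dd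
  obtain ⟨O, dO, o1, o2, o3⟩ := around h.cpt hp
  refine ⟨fun i => O (d i), by fun_prop, fun hc => o2 (closure_mono ?_ hc), fun k => ?_⟩
  · rintro _ ⟨i, hi, rfl⟩; exact hi
  by_contra hc
  obtain ⟨y, hy⟩ := hN (rsn ν fun e => E k e ∧ ¬ O (d e))
    (by simp only [rsn, all_iff, imp_iff]; fun_prop) (hn.rsn _)
    fun h => hc ((null_rsn.1 h).mono fun _ h => ⟨trivial, h⟩)
  simp only [null_rsn] at hy
  obtain ⟨j, hj⟩ := h.wb.nhds o1 (o3 y (subset_closure ⟨k, fun j h =>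
    hy j (h.mono fun _ h => ⟨h.2.1, h.1⟩)⟩))
  exact hy j (hn.empty fun i hi => hi.2.2 (hj _ hi.1))

/-- The point carries a thin family with positive sets that escape from every far set. -/
def Car (M : Set ZFSet.{0}) [Fact (ZFC M)] {K : Type w} [TopologicalSpace K] (d : ℕ → K) (ν : Nu)
    (y : K) (L : PS M (Finset ℕ)) (N : PS M ((Finset ℕ × ℕ) × ℕ)) : Prop :=
  JF.Thin (· ∈ L) ∧ (∀ t i, t ∈ L → ¬ Null ν fun e => ((t, i), e) ∈ N) ∧
    (∀ t i e, ((t, i + 1), e) ∈ N → ((t, i), e) ∈ N) ∧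
      ∀ A H : PS M ℕ, Far d y (· ∈ A) → Inf (· ∈ H) → ∃ t, t ∈ L ∧ (∀ i ∈ t, i ∈ H) ∧
        ∃ i, ∀ e, ((t, i), e) ∈ N → e ∉ A

theorem df_car {Z : Type*} [Srt M Z] {ν : Nu} (dd : DfF M d)
    (dν : DfF M fun z : ℕ × Finset ℕ => ν z.1 z.2) {y : Z → K} {L : Z → PS M (Finset ℕ)}
    {N : Z → PS M ((Finset ℕ × ℕ) × ℕ)} (dy : DfF M y) (dL : DfF M L) (dN : DfF M N) :
    DfF M fun z => Car M d ν (y z) (L z) (N z) := by
  simp only [Car, JF.Thin, Null, Far, Inf, Finset.subset_iff, all_iff, imp_iff]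
  fun_prop

/-- The finite set `s` has least element `k` and the rest is `t`. -/
def Hd (s : Finset ℕ) (k : ℕ) (t : Finset ℕ) : Prop :=
  (∀ i ∈ t, k < i) ∧ ∀ i, i ∈ s ↔ i = k ∨ i ∈ t

theorem Hd.sub {s s' t t' : Finset ℕ} {k k' : ℕ} (h : Hd s k t) (h' : Hd s' k' t') (e : s ⊆ s')
    (e' : ∀ i ∈ s', i ∉ s → ∀ j ∈ s, j < i) :
    k = k' ∧ t ⊆ t' ∧ ∀ i ∈ t', i ∉ t → ∀ j ∈ t, j < i := by
  have a1 : k ∈ s := (h.2 k).2 (.inl rfl)
  have a2 : k' ≤ k := ((h'.2 k).1 (e a1)).elim (fun e => e.ge) fun h => (h'.1 k h).le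
  have a3 : k' ∈ s := not_not.1 fun hn => (e' k' ((h'.2 k').2 (.inl rfl)) hn k a1).not_ge a2
  have a4 : k = k' := ((h.2 k').1 a3).elim Eq.symm fun h3 => absurd (h.1 k' h3) a2.not_gt
  subst a4
  refine ⟨rfl, fun i hi => ((h'.2 i).1 (e ((h.2 i).2 (.inr hi)))).resolve_left (h.1 i hi).ne',
    fun i hi hn j hj => e' i ((h'.2 i).2 (.inr hi)) (fun hs => ?_) j ((h.2 j).2 (.inr hj))⟩
  exact ((h.2 i).1 hs).elim (h'.1 i hi).ne' hn

theorem car_glue (hV : WB M V) {ν : Nu} {x : K} {y : ℕ → K} {L : ℕ → PS M (Finset ℕ)}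
    {N : ℕ → PS M ((Finset ℕ × ℕ) × ℕ)} (dL : DfF M L) (dN : DfF M N)
    (h1 : ∀ n, y n ∈ V x n) (h2 : ∀ n, Car M d ν (y n) (L n) (N n)) :
    ∃ L N, Car M d ν x L N := by
  obtain ⟨L', eL⟩ : ∃ L' : PS M (Finset ℕ), ∀ s, s ∈ L' ↔ ∃ k t, Hd s k t ∧ t ∈ L k :=
    ⟨_, fun s => PS.mem_of (by simp only [Hd, all_iff, imp_iff]; fun_prop)⟩
  obtain ⟨N', eN⟩ : ∃ N' : PS M ((Finset ℕ × ℕ) × ℕ), ∀ z, z ∈ N' ↔
      ∃ k t, Hd z.1.1 k t ∧ ((t, z.1.2), z.2) ∈ N k :=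
    ⟨_, fun s => PS.mem_of (by simp only [Hd, all_iff, imp_iff]; fun_prop)⟩
  refine ⟨L', N', fun s s' hs hs' e e' => ?_, fun s i hs hc => ?_, fun s i e he => ?_,
    fun A H hA hH => ?_⟩
  · obtain ⟨k, t, a1, a2⟩ := (eL s).1 hs
    obtain ⟨k', t', a3, a4⟩ := (eL s').1 hs'
    obtain ⟨rfl, a5, a6⟩ := a1.sub a3 e e'
    obtain rfl := (h2 k).1 t t' a2 a4 a5 a6
    exact Finset.ext fun i => (a1.2 i).trans (a3.2 i).symm
  · obtain ⟨k, t, a1, a2⟩ := (eL s).1 hs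
    exact (h2 k).2.1 t i a2 (hc.mono fun e he => (eN _).2 ⟨k, t, a1, he⟩)
  · obtain ⟨k, t, a1, a2⟩ := (eN _).1 he
    exact (eN _).2 ⟨k, t, a1, (h2 k).2.2.1 t i e a2⟩
  · obtain ⟨n, hn⟩ := hA.trace hV
    obtain ⟨k, a1, a2⟩ := hH n
    have eH : ∀ i, i ∈ PS.of M (fun i => i ∈ H ∧ k < i) ↔ i ∈ H ∧ k < i := fun i =>
      PS.mem_of (by fun_prop)
    obtain ⟨t, b1, b2, i, b3⟩ := (h2 k).2.2.2 A (PS.of M fun i => i ∈ H ∧ k < i)
      (hn _ (hV.mono a1 (h1 k))) fun m =>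
        let ⟨i, c1, c2⟩ := hH (max m (k + 1))
        ⟨i, (le_max_left _ _).trans c1, (eH i).2 ⟨c2, (le_max_right _ _).trans c1⟩⟩
    have b4 : Hd (insert k t) k t := ⟨fun i hi => ((eH i).1 (b2 i hi)).2, fun i => Finset.mem_insert⟩
    refine ⟨insert k t, (eL _).2 ⟨k, t, b4, b1⟩, fun j hj => ?_, i, fun e he => ?_⟩
    · rcases Finset.mem_insert.1 hj with rfl | hj
      exacts [a2, ((eH j).1 (b2 j hj)).1]
    · obtain ⟨k', t', c1, c2⟩ := (eN _).1 he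
      obtain ⟨rfl, c3, -⟩ := b4.sub c1 subset_rfl fun i hi hn => absurd hi hn
      obtain rfl := c3.antisymm (c1.sub b4 subset_rfl fun i hi hn => absurd hi hn).2.1
      exact b3 e c2

theorem car_closed (hV : WB M V) (dd : DfF M d) {ν : Nu}
    (dν : DfF M fun z : ℕ × Finset ℕ => ν z.1 z.2) :
    IsOpen {y | ¬ ∃ L N, Car M d ν y L N} := by
  have dV := hV.df
  have dC : DfF M fun z : K × PS M (Finset ℕ) × PS M ((Finset ℕ × ℕ) × ℕ) =>
    Car M d ν z.1 z.2.1 z.2.2 := df_car dd dν (by fun_prop) (by fun_prop) (by fun_prop)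
  refine (hV.op _ (DfF.not ((DfF.ex (P := fun y (z : PS M (Finset ℕ) × PS M ((Finset ℕ × ℕ) × ℕ)) =>
    Car M d ν y z.1 z.2) dC).congr fun _ => Prod.exists.symm))).2 fun x hx => ?_
  by_contra hn
  push Not at hn
  obtain ⟨f, df, hf⟩ := exists_choice (M := M) (R := fun (n : ℕ)
    (z : K × PS M (Finset ℕ) × PS M ((Finset ℕ × ℕ) × ℕ)) =>
      z.1 ∈ V x n ∧ Car M d ν z.1 z.2.1 z.2.2)
    (DfF.and (by fun_prop) (dC.comp (DfF.snd DfF.id))) fun n =>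
      let ⟨y, h1, L, N, h2⟩ := hn n; ⟨(y, L, N), h1, h2⟩
  exact hx (car_glue hV (y := fun n => (f n).1) (by fun_prop) (by fun_prop) (fun n => (hf n).1)
    fun n => (hf n).2)

theorem car_base (hV : WB M V) (dd : DfF M d) {ν : Nu} {y : K}
    (h : ∀ j, ¬ Null ν fun e => d e ∈ V y j) : ∃ L N, Car M d ν y L N := by
  have dV := hV.df
  obtain ⟨L', eL⟩ : ∃ L' : PS M (Finset ℕ), ∀ s, s ∈ L' ↔ s = ∅ :=
    ⟨_, fun s => PS.mem_of (by fun_prop)⟩
  obtain ⟨N', eN⟩ : ∃ N' : PS M ((Finset ℕ × ℕ) × ℕ), ∀ z, z ∈ N' ↔ d z.2 ∈ V y z.1.2 :=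
    ⟨_, fun s => PS.mem_of (by fun_prop)⟩
  refine ⟨L', N', fun s s' hs hs' _ _ => ((eL s).1 hs).trans ((eL s').1 hs').symm,
    fun s i _ hc => h i (hc.mono fun e he => (eN _).2 he),
    fun s i e he => (eN _).2 (hV.anti _ _ _ ((eN _).1 he)), fun A H hA _ => ?_⟩
  obtain ⟨j, hj⟩ := hA.trace hV
  exact ⟨∅, (eL _).2 rfl, fun i hi => absurd hi (Finset.notMem_empty i), j,
    fun e he => (hj _ ((eN _).1 he)).not⟩

/-- The second regime. -/
theorem rg_of_regN (h : Bad V d p n0) (hN : RegN V d) :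
    Rg V d (Far d p) fun c x => ∃ m, c ≤ m ∧ x = {m} := by
  have dd := h.dd
  have hV := h.wb
  have dV := hV.df
  have un : ∀ A B C, Far d p A → Far d p B → (∀ i, C i → A i ∨ B i) → Far d p C :=
    fun A B C hA hB e hc => by
    refine ((closure_union (s := {x | ∃ i, A i ∧ d i = x}) (t := {x | ∃ i, B i ∧ d i = x})).subset
      (closure_mono ?_ hc)).elim hA hB
    rintro _ ⟨i, hi, rfl⟩
    exact (e i hi).imp (fun h => ⟨i, h, rfl⟩) fun h => ⟨i, h, rfl⟩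
  have fi : ∀ A, ¬ Inf A → Far d p A := fun A hA hc => by
    simp only [Inf, not_forall, not_exists, not_and] at hA
    obtain ⟨m, hm⟩ := hA
    have : {x | ∃ i, A i ∧ d i = x}.Finite := ((finite_lt_nat m).image d).subset (by
      rintro _ ⟨i, hi, rfl⟩
      exact ⟨i, not_le.1 fun h => hm i h hi, rfl⟩)
    obtain ⟨i, -, hi⟩ := this.isClosed.closure_subset hc
    exact h.miss i (hi ▸ hV.self p n0)
  refine ⟨by simp only [Far]; fun_prop, DfF.congr (P := fun z : ℕ × Finset ℕ =>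
      ∃ m, z.1 ≤ m ∧ All fun i => i ∈ z.2 ↔ i = m) (by fun_prop) fun z =>
        exists_congr fun m => and_congr_right fun _ => by simp [All, Finset.ext_iff],
    ⟨fun c x ⟨m, h1, h2⟩ => ⟨m, by omega, h2⟩, ?_, ?_⟩, un, fi, fun A hA ⟨c, hc⟩ => ?_,
    fun y => ?_, fun ν E dν dE h1 _ => ?_, fun ν dν h1 _ h3 => ?_⟩
  · rintro c _ ⟨m, h1, rfl⟩
    exact ⟨Finset.singleton_nonempty m, fun i hi => Finset.mem_singleton.1 hi ▸ h1⟩
  · rintro c _ ⟨m, h1, rfl⟩ A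
    refine ⟨{m}, subset_rfl, ⟨m, by omega, rfl⟩, ?_⟩
    simp only [Finset.mem_singleton, forall_eq]
    exact em _
  · refine un _ (fun i => i < c) (fun _ => True) hA (fi _ fun h => ?_) (fun i _ => ?_)
      (closure_mono (by rintro _ ⟨i, hi⟩; exact ⟨i, trivial, hi⟩) h.cl)
    · obtain ⟨i, h1, h2⟩ := h c
      omega
    · refine or_iff_not_imp_right.2 fun hi => ?_
      simpa using hc {i} ⟨i, not_lt.1 hi, rfl⟩
  · by_cases e : y = p
    · exact ⟨n0, fi _ fun hc => let ⟨i, _, hi⟩ := hc 0; h.miss i (e ▸ hi)⟩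
    · obtain ⟨W, w1, w2, w3⟩ := reg h.cpt (isOpen_compl_singleton (x := p)) e
      obtain ⟨j, hj⟩ := hV.nhds w1 w2
      refine ⟨j, fun hc => w3 p (closure_mono ?_ hc) rfl⟩
      rintro _ ⟨i, hi, rfl⟩
      exact hj _ hi
  · by_cases hp : p ∈ closure {y | ∃ k, ∀ j, ¬ Null ν fun e => E k e ∧ d e ∈ V y j}
    · obtain ⟨y, dy, y1, y2⟩ := hV.tight (by simp only [Null, all_iff, imp_iff]; fun_prop) hp
      obtain ⟨k, dk, hk⟩ := exists_choice (M := M) (R := fun n k : ℕ =>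
        ∀ j, ¬ Null ν fun e => E k e ∧ d e ∈ V (y n) j)
        (by simp only [Null, all_iff, imp_iff]; fun_prop) y1
      obtain ⟨q, dq, hq⟩ := Cts.enum (M := M) (ℕ × ℕ)
      refine .inr ⟨fun m e => E (k (q m).1) e ∧ d e ∈ V (y (q m).1) (q m).2, by fun_prop,
        fun A hA => ?_, fun m => ⟨hk _ _, _, fun _ h => h.1⟩⟩
      obtain ⟨_, a1, n, rfl⟩ := mem_closure_iff.1 y2 _ isClosed_closure.isOpen_compl hA
      obtain ⟨j, hj⟩ := Far.trace hV a1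
      obtain ⟨m, hm⟩ := hq (n, j)
      refine ⟨m, h1.empty fun e he => ?_⟩
      simp only [hm] at he
      exact (hj _ he.1.2).not he.2
    · exact .inl (far_of h hN dν dE h1 hp)
  · have hp : p ∈ closure {y | ∃ _ : ℕ, ∀ j, ¬ Null ν fun e => True ∧ d e ∈ V y j} := by
      by_contra hp
      obtain ⟨R, dR, r1, r2⟩ := far_of h hN (E := fun _ _ => True) dν (by fun_prop) h1 hp
      have e : ∀ i, i ∈ PS.of M R ↔ R i := fun i => PS.mem_of dR
      exact h3 (PS.of M R) (by simpa only [e] using r1)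
        ((r2 0).mono fun i hi => ⟨trivial, fun h => hi ((e i).2 h)⟩)
    obtain ⟨L, N, c1, c2, c3, c4⟩ : ∃ L N, Car M d ν p L N := by
      by_contra hn
      obtain ⟨y, y1, _, y2⟩ := mem_closure_iff.1 hp _ (car_closed hV dd dν) hn
      exact y1 (car_base hV dd fun j h => y2 j (h.mono fun _ h => h.2))
    refine ⟨(· ∈ L), fun z e => (z, e) ∈ N, by fun_prop, by fun_prop, fun A H hA hH => ?_,
      c1, c2, c3⟩
    obtain ⟨t, a1, a2, i, a3⟩ := c4 A H hA hH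
    exact ⟨t, a1, a2, i, h1.empty fun e he => a3 e he.1 he.2⟩

theorem exists_rg (h : Bad V d p n0) : ∃ II ν0, Rg V d II ν0 := by
  by_cases hN : RegN V d
  · exact ⟨_, _, rg_of_regN h hN⟩
  · simp only [RegN, not_forall, not_exists, not_not] at hN
    obtain ⟨ν, h1, h2, h3, h4⟩ := hN
    exact ⟨_, _, rg_of_null h1 h2 h3 h4⟩

end Pool.Agent.MP_5baa61_gt.JK
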