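import Pool.Agent.MP_5baa61_gt.JK.TGlue
import Pool.Agent.MP_5baa61_gt.JK.MCvg
import Pool.Agent.MP_5baa61_gt.JK.MRg

/-! From the absence of bad points in a model to the topological statement. -/

namespace Pool.Agent.MP_5baa61_gt.JK

open Function Set Pool.Agent.ZF92 Pool.Agent.MP_b60a07_lc.H92
open scoped Classical

set_option linter.unusedSectionVars false

universe w

variable {M : Set ZFSet.{0}} [hM : Fact (ZFC M)]

theorem exists_bad {K : Type w} [Srt M K] [Sm M K] [TopologicalSpace K] [DTop M K] [T2Space K]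
    {V : K → ℕ → PS M K} (hK : MCpt M K) (hV : WB M V) {p : K} (hp : ¬ FC M p) :
    ∃ d n0, Bad V d p n0 := by
  have e : ∀ x : K, x ∈ PS.of M fun _ : K => True := fun x => (PS.mem_of (by fun_prop)).2 trivial
  obtain ⟨d, n, h1, h2, h3, -⟩ := exists_seq hK hV (b := fun _ => PS.of M fun _ : K => True)
    (by fun_prop) (fun _ => ⟨(eq_univ_of_forall
      (s := ((PS.of M fun _ : K => True : PS M K) : Set K)) e).symm ▸ isOpen_univ, e p⟩) hp
  exact ⟨d, n, hK, hV, h1, h2, h3⟩

/-- If no space of the model carries a system of traces, then in the model every compact weakly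
first countable space is first countable. -/
theorem top_of_noSys (h : ∀ (K : Type 1) [Srt M K] [Sm M K] [TopologicalSpace K] [DTop M K]
      [T2Space K] (V : K → ℕ → PS M K) (d : ℕ → K) (II : Sn → Prop) (ν0 : Nu),
      WB M V → DfF M d → Cvg V d → Rg V d II ν0 → False)
    {X T : ZFSet} (hX : X ∈ M) (hT : T ∈ M) (h1 : CompactSp M X T) (h2 : WeakFC M X T)
    {p : ZFSet} (hp : p ∈ X) : FirstCtAt M T p := by
  obtain ⟨_, _, k⟩ := exists_topo (K := ⟨X, hX⟩) hT h1
  have e : un M (El M ⟨X, hX⟩) = X := un_el _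
  obtain ⟨_, hK⟩ := k.of_compact (e.symm ▸ h1)
  obtain ⟨V, hV⟩ := exists_wb k (e.symm ▸ h2)
  obtain ⟨p, rfl⟩ := mem_un.1 (e.symm ▸ hp : p ∈ un M (El M ⟨X, hX⟩))
  by_contra hn
  obtain ⟨d, n, hb⟩ := exists_bad hK hV fun e => hn ((fc_iff k).2 e)
  obtain ⟨II, ν0, hr⟩ := exists_rg hb
  exact h _ V d II ν0 hV hb.dd (exists_cvg hb) hr

end Pool.Agent.MP_5baa61_gt.JK
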