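import Pool.Agent.MP_5baa61_gt.JK.Rf

/-! Transfer of the non-existence of forced models to a countable model of set theory. -/

namespace Pool.Agent.MP_5baa61_gt.JK

open Set Function Pool.Agent.MP_b60a07_lc.H92 Pool.Agent.ZF92
open scoped Classical

section
variable {P : Type 1} {le : P → P → Prop} [Pre le] [PO le] {t : P}

/-- The set-theoretic name of a name of a real. -/
def qn (le : P → P → Prop) (t : P) (φ : Set P → RR) : Name P :=
  relN (fun n : ULift.{1} ℕ => natName t n.down) fun n y => Fc le y fun H => φ H n.down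

/-- The real named by a set-theoretic name. -/
def ev (le : P → P → Prop) (t : P) (s : Name P) (H : Set P) : RR :=
  fun n => ∃ z ∈ H, fMem le (natName t n) s z

/-- The real named by `φ` belongs to the set named by `τ`. -/
def kq (le : P → P → Prop) (t : P) (τ : Name P) (φ : Set P → RR) (H : Set P) : Prop :=
  ∃ z ∈ H, fMem le (qn le t φ) τ z

omit [PO le] in
theorem nat_fEq (ht : ∀ p, le p t) {a b : ℕ} {p : P}
    (h : fEq le (natName t a) (natName t b) p) : a = b := by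
  induction a using Nat.strong_induction_on generalizing b p with
  | _ a ih =>
  rw [natName_eq t a, natName_eq t b] at h
  refine le_antisymm (not_lt.1 fun hlt => ?_) (not_lt.1 fun hlt => ?_)
  · obtain ⟨r, -, h1⟩ := h.1 ⟨⟨b, hlt⟩⟩ p (lrefl p)
    obtain ⟨j, -, he⟩ := h1 (ht r)
    exact absurd (ih b hlt he) (ne_of_gt j.down.2)
  · obtain ⟨r, -, h1⟩ := h.2 ⟨⟨a, hlt⟩⟩ p (lrefl p)
    obtain ⟨i, -, he⟩ := h1 (ht r)
    exact absurd (ih i.down i.down.2 he) (ne_of_lt i.down.2)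

theorem fMem_qn (ht : ∀ p, le p t) {φ : Set P → RR} {n : ℕ} {z : P} :
    fMem le (natName t n) (qn le t φ) z ↔ Fc le z fun H => φ H n := by
  refine ⟨fun h => .glue fun q hq => ?_, fun h =>
    fMem_relN (nm := fun n : ULift.{1} ℕ => natName t n.down) (a := ⟨n⟩) h⟩
  obtain ⟨r, r1, ⟨⟨m, y⟩, hy⟩, r2, r3⟩ := h q hq
  obtain rfl : m.down = n := nat_fEq ht r3
  exact ⟨r, r1, Fc.mono hy r2⟩

theorem fEq_qn {φ ψ : Set P → RR} {y : P} (h : Fc le y fun H => φ H = ψ H) :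
    fEq le (qn le t φ) (qn le t ψ) y :=
  ⟨fun ⟨⟨n, _⟩, hz⟩ q hq => ⟨q, lrefl q, fun h1 =>
    ⟨⟨(n, q), ((h.mono hq).and (Fc.mono hz h1)).imp fun _ h => h.1 ▸ h.2⟩, lrefl q, fEq_refl _ _⟩⟩,
   fun ⟨⟨n, _⟩, hz⟩ q hq => ⟨q, lrefl q, fun h1 =>
    ⟨⟨(n, q), ((h.mono hq).and (Fc.mono hz h1)).imp fun _ h => h.1 ▸ h.2⟩, lrefl q, fEq_refl _ _⟩⟩⟩

omit [Pre le] in
theorem nm_ev (s : Name P) : Nm le (ev le t s) :=
  measurable_pi_lambda (α := Fl le) _ fun _ => dec_iff.1 (dec_meet _)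

theorem kq_congr (τ : Name P) (φ ψ : Set P → RR) (y : P) (h : Fc le y fun H => φ H = ψ H) :
    Fc le y fun H => kq le t τ φ H ↔ kq le t τ ψ H := by
  have key : ∀ φ ψ : Set P → RR, (Fc le y fun H => φ H = ψ H) → ∀ H, Flt le H → y ∈ H →
      kq le t τ φ H → kq le t τ ψ H := fun φ ψ h H hH hy ⟨z, z1, z2⟩ =>
    let ⟨r, r0, r1, r2⟩ := hH.dir _ hy _ z1
    ⟨r, r0, fMem_congr_left (fEq_qn (h.mono r1)) (fMem_mono r2 z2)⟩
  exact .of_flt fun H hH hy => ⟨key φ ψ h H hH hy, key ψ φ (h.imp fun _ => Eq.symm) H hH hy⟩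

omit [Pre le] in
/-- What is forced by a member of the generic filter is true. -/
theorem fc_truth (S : Set P → Prop) (q : P) : Fc le q fun H => (∃ z ∈ H, Fc le z S) → S H :=
  .glue fun r hr => by
    by_cases h : ∃ s, le s r ∧ Fc le s S
    · obtain ⟨s, s1, s2⟩ := h
      exact ⟨s, s1, s2.imp fun _ h _ => h⟩
    · exact ⟨r, PO.l hr, .of_flt fun H hH h1 ⟨z, z1, z2⟩ =>
        let ⟨s, _, s1, s2⟩ := hH.dir _ h1 _ z1; (h ⟨s, s1, z2.mono s2⟩).elim⟩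

theorem ev_qn (ht : ∀ p, le p t) {φ : Set P → RR} (hφ : Nm le φ) (q : P) :
    Fc le q fun H => ev le t (qn le t φ) H = φ H := by
  refine (Fc.all fun n => (fc_truth (fun H => φ H n) q).and
    (T := fun H => φ H n → ∃ z ∈ H, Fc le z fun H => φ H n) (.glue fun r hr => ?_)).imp
    fun H h => funext fun n => propext (by simpa only [ev, fMem_qn ht] using Iff.intro (h n).1 (h n).2)
  obtain ⟨s, s1, s2 | s2⟩ := hφ.dec (P := fun x => x n) (by fun_prop) r (PO.l hr)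
  exacts [⟨s, s1, Fc.self.imp fun _ h _ => ⟨s, h, s2⟩⟩, ⟨s, s1, s2.imp fun _ h h' => (h h').elim⟩]

/-- A generic filter for countably many schemes of properties. -/
theorem exists_gen_fc (ht : ∀ p, le p t) {J : Type} [Countable J]
    (S : J → (ℕ → Name P) → Set P → Prop) : ∃ N G, N.Countable ∧ Gen le (R0 le t) N G ∧
      (∀ j w, Fin' N w → ∀ q ∈ G, Fc le q (S j w) → S j w G) ∧
      ∀ j w, Fin' N w → (Dns le t fun r => ∃ x, Fc le r (S j (cs x w))) →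
        ∃ x ∈ N, S j (cs x w) G := by
  choose D d1 d2 using fun j w => fc_truth (le := le) (S j w) t
  obtain ⟨N, G, hc, h, h'⟩ := exists_gen_zfc le t (J := J × Option ℕ) fun j w x q =>
    j.2.elim (Fc le q (S j.1 (cs x w))) fun n => D j.1 w n q
  have tr : ∀ j w, Fin' N w → ∀ q ∈ G, Fc le q (S j w) → S j w G := fun j w hw q q1 q2 =>
    d2 j w G ⟨fun _ hp _ hq => h.dir hp hq, fun _ hp _ e => h.up hp e⟩ (h.top_mem ht) (fun n =>
      let ⟨r, r1, _, _, r2⟩ := h'.dense (j, some n) hw (h.top_mem ht) fun q hq =>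
        let ⟨s, s1, s2⟩ := d1 j w n q hq; ⟨s, s1, emp, s2⟩
      ⟨r, r1, r2⟩) ⟨q, q1, q2⟩
  refine ⟨N, G, hc, h, tr, fun j w hw hd => ?_⟩
  obtain ⟨r, r1, x, x1, x2⟩ := h'.dense (j, none) hw (h.top_mem ht) hd
  exact ⟨x, x1, tr j _ (hw.cons x1) r r1 x2⟩

end

theorem transfer (K : Kind) (C : Axs) (hM : Main K C) (B : ℕ → RR → RR → Prop)
    (mB : ∀ j, Measurable fun z : RR × RR => B j z.1 z.2) (tB : ∀ j x, ∃ y, B j x y) :
    ∃ (M : Set ZFSet.{0}) (_ : Fact (ZFC M)),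
      (∀ j (A : PS M ℕ), ∃ A' : PS M ℕ, B j (· ∈ A) (· ∈ A')) ∧
      (∀ i n (A A' : PS M ℕ), ∃ E : PS M ℕ, (· ∈ E) = C.ψ i n (· ∈ A) (· ∈ A')) ∧
      ∀ k : PS M ℕ → Prop, DfF M k → ¬ ∀ i (A : PS M ℕ), ∃ A' : PS M ℕ,
        C.D i (· ∈ A) (· ∈ A') fun n =>
          ∃ E : PS M ℕ, (· ∈ E) = C.ψ i n (· ∈ A) (· ∈ A') ∧ k E := by
  obtain ⟨t, ht⟩ := exists_topQ (K := K)
  let e := ev (leQ (K := K)) t
  let ψ : ℕ → ℕ → Name (QQ K) → Name (QQ K) → Set (QQ K) → RR := fun i n x y H =>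
    C.ψ i n (e x H) (e y H)
  let Q : ℕ → Name (QQ K) → Name (QQ K) → Name (QQ K) → Set (QQ K) → Prop := fun i x y τ H =>
    ¬ C.D i (e x H) (e y H) fun n => kq leQ t τ (ψ i n x y) H
  obtain ⟨N, G, hc, h, tr, ex⟩ := exists_gen_fc ht (J := (ℕ ⊕ ℕ × ℕ) ⊕ Option ℕ)
    (Sum.elim (Sum.elim (fun j v H => B j (e (v 1) H) (e (v 0) H)) fun i v H =>
      v 0 = qn leQ t (ψ i.1 i.2 (v 1) (v 2)) ∧ e (v 0) H = ψ i.1 i.2 (v 1) (v 2) H)
      fun i v H => i.elim (∃ i, ∃ q ∈ H, ∀ y, Fc leQ q (Q i (v 0) y (v 1)))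
        fun i => Q i (v 0) (v 1) (v 2) H)
  have : Countable N := hc
  have hZ : Fact (ZFC (val N G '' N)) := ⟨h.zfc ht⟩
  have hn := h.emb_nat ht
  have nam : ∀ A : PS (val N G '' N) ℕ, ∃ s ∈ N, (· ∈ A) = e s G := fun A =>
    let ⟨s, s1, s2⟩ := h.exists_name hn (s := (· ∈ A)) (by fun_prop)
    ⟨s, s1, funext fun n => propext (s2 n)⟩
  have ps : ∀ s ∈ N, ∃ A : PS (val N G '' N) ℕ, (· ∈ A) = e s G := fun s hs =>
    ⟨_, funext fun n => propext (PS.mem_of ((DfF.cd_mem_set DfF.id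
      (mem_image_of_mem (val N G) hs)).congr fun n => by
        rw [(hn n).2, h.val_mem_iff (hn n).1 hs]; rfl))⟩
  have hψ : ∀ i n, ∀ x ∈ N, ∀ y ∈ N, qn leQ t (ψ i n x y) ∈ N ∧
      e (qn leQ t (ψ i n x y)) G = ψ i n x y G := fun i n x hx y hy => by
    obtain ⟨z, x1, x0, x2⟩ := ex (.inl (.inr (i, n))) _ (h.env2 hx hy) fun r hr =>
      ⟨r, lrefl r, _, (ev_qn ht ((C.mψ i n).comp ((nm_ev x).prodMk (nm_ev y))) r).imp
        fun _ h => ⟨rfl, h⟩⟩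
    obtain rfl : z = qn leQ t (ψ i n x y) := x0
    exact ⟨x1, x2⟩
  refine ⟨_, hZ, fun j A => ?_, fun i n A A' => ?_, fun k dk hk => ?_⟩
  · obtain ⟨s, s1, s2⟩ := nam A
    obtain ⟨x, x1, x2⟩ := ex (.inl (.inl j)) _ (h.env1 s1) fun r hr => by
      obtain ⟨g, g1, g2⟩ := unif (q := r) (mB j) (nm_ev (le := leQ) (t := t) s)
        (.of_all fun _ => tB j _)
      exact ⟨r, lrefl r, qn leQ t g, (g2.and (ev_qn ht g1 r)).imp fun H h => by
        have := h.1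
        rwa [← h.2] at this⟩
    obtain ⟨A', a⟩ := ps x x1
    exact ⟨A', by rw [s2, a]; exact x2⟩
  · obtain ⟨x, x1, x2⟩ := nam A
    obtain ⟨y, y1, y2⟩ := nam A'
    obtain ⟨E, a⟩ := ps _ (hψ i n x x1 y y1).1
    exact ⟨E, by rw [a, x2, y2]; exact (hψ i n x x1 y y1).2⟩
  obtain ⟨τ, hτ, e1⟩ := cd_mem (M := val N G '' N) (PS.of (val N G '' N) k)
  obtain ⟨x, x1, i, q, q1, q2⟩ := ex (.inr none) _ (h.env1 hτ) fun r _ => by
    by_contra hc
    refine no_model (x0 := r) (κQ := kq leQ t τ) hM (fun _ => dec_meet _) (kq_congr τ)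
      fun i Φ hΦ s hs => ?_
    by_contra hd
    refine hc ⟨s, hs, qn leQ t Φ, Fc.self.imp fun H hH => ⟨i, s, hH, fun y => ?_⟩⟩
    have d : Dec leQ fun H => C.D i (Φ H) (e y H) fun n =>
        kq leQ t τ (fun H => C.ψ i n (Φ H) (e y H)) H :=
      dec_iff.2 ((C.mD i).comp ((hΦ.prodMk (nm_ev y)).prodMk
        (measurable_pi_lambda (α := Fl leQ) _ fun _ => dec_iff.1 (dec_meet _))))
    have h1 := ev_qn ht hΦ s
    refine ((d.not.fc fun z hz h => hd ⟨z, hz, e y, nm_ev y, h.imp fun _ => not_not.1⟩).and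
      (h1.and (Fc.all fun n => kq_congr (t := t) τ (ψ i n (qn leQ t Φ) y)
        (fun H => C.ψ i n (Φ H) (e y H)) s (h1.imp fun H h => by rw [← h])))).imp fun H h => ?_
    have := h.1
    simp only [Q, cs_zero, cs_succ, h.2.2]
    rwa [← h.2.1] at this
  obtain ⟨A, a⟩ := ps x x1
  obtain ⟨A', a'⟩ := hk i A
  obtain ⟨y, y1, y2⟩ := nam A'
  refine tr (.inr (some i)) _ ((h.env2 y1 hτ).cons x1) q q1 (q2 y) ?_
  rw [a, y2] at a'
  suffices (fun n => kq leQ t τ (ψ i n x y) G) = fun n =>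
      ∃ E : PS (val N G '' N) ℕ, (· ∈ E) = C.ψ i n (e x G) (e y G) ∧ k E by
    rw [← this] at a'; exact a'
  funext n
  obtain ⟨n1, n2⟩ := hψ i n x x1 y y1
  have key : ∀ E : PS (val N G '' N) ℕ, (· ∈ E) = ψ i n x y G →
      (k E ↔ kq leQ t τ (ψ i n x y) G) := fun E hE => by
    have : val N G (qn leQ t (ψ i n x y)) = cd (val N G '' N) E := by
      ext z
      rw [mem_cd_ps, qn, relN, mem_val]
      have m : ∀ m, m ∈ E ↔ ∃ z ∈ G, Fc leQ z fun H => ψ i n x y H m := fun m => by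
        simpa only [e, ev, fMem_qn ht] using iff_of_eq (congrFun (hE.trans n2.symm) m)
      exact ⟨fun ⟨s, _, s2, s3⟩ => ⟨_, (m _).2 ⟨_, s2, s.2⟩, s3.symm.trans (hn _).2.symm⟩,
        fun ⟨j, j1, j2⟩ => let ⟨z, z1, z2⟩ := (m j).1 j1
          ⟨⟨(⟨j⟩, z), z2⟩, (hn j).1, z1, (j2.trans (hn j).2).symm⟩⟩
    rw [← PS.mem_of dk, ← cd_mem_cd_ps, ← e1, ← this, h.val_mem_iff n1 hτ]
    rfl
  obtain ⟨E, hE⟩ := ps _ n1
  exact propext ⟨fun h => ⟨E, hE.trans n2, (key E (hE.trans n2)).2 h⟩,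
    fun ⟨E, h1, h2⟩ => (key E h1).1 h2⟩

end Pool.Agent.MP_5baa61_gt.JK
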