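import Pool.Agent.MP_5baa61_gt.JK.BrA
import Pool.Agent.MP_5baa61_gt.JK.MBad
import Pool.Agent.MP_5baa61_gt.JK.Tr

/-! A bad point of a space of the model gives a marking that satisfies the list of statements. -/

namespace Pool.Agent.MP_5baa61_gt.JK.Br

open Set Function Pool.Agent.ZF92 Pool.Agent.MP_b60a07_lc.H92 Cd
open Encodable (encode)
open scoped Classical

set_option linter.unusedSectionVars false

universe u w

variable {M : Set ZFSet.{0}} [hM : Fact (ZFC M)]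
variable {X Y : Type} [MeasurableSpace X] [MeasurableSpace Y] [Cd X] [Cd Y]

theorem dec_prop (r : RR) : (dec r : Prop) = r 0 := rfl
theorem dec_fun {ι : Type} [Encodable ι] (r : RR) (i : ι) :
    (dec r : ι → X) i = dec fun m => r (Nat.pair (encode i) m) := rfl
theorem dec_fst (r : RR) : (dec r : X × Y).1 = dec fun m => r (2 * m) := rfl
theorem dec_snd (r : RR) : (dec r : X × Y).2 = dec fun m => r (2 * m + 1) := rfl

/-- The object has a code in the model. -/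
def InM (M : Set ZFSet.{0}) [Fact (ZFC M)] (x : X) : Prop := ∃ A : PS M ℕ, dec (· ∈ A) = x

theorem ps_eq {r : ℕ → Prop} (h : DfF M r) : (· ∈ PS.of M r) = r :=
  funext fun _ => propext (PS.mem_of h)

theorem inM_dec {r : ℕ → Prop} (h : DfF M r) : InM M (dec r : X) := ⟨PS.of M r, by rw [ps_eq h]⟩

theorem inM_of {x : X} (h : DfF M (enc x)) : InM M x := de x ▸ inM_dec h

theorem InM.fst {z : X × Y} (h : InM M z) : InM M z.1 := by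
  obtain ⟨A, rfl⟩ := h
  exact inM_dec (r := fun m => 2 * m ∈ A) (by fun_prop)

theorem InM.snd {z : X × Y} (h : InM M z) : InM M z.2 := by
  obtain ⟨A, rfl⟩ := h
  exact inM_dec (r := fun m => 2 * m + 1 ∈ A) (by fun_prop)

theorem InM.mk {x : X} {y : Y} (h : InM M x) (h' : InM M y) : InM M (x, y) := by
  obtain ⟨A, rfl⟩ := h
  obtain ⟨A', rfl⟩ := h'
  obtain ⟨E, hE⟩ := inM_dec (M := M) (X := X × Y)
    (r := fun n => (∃ m, 2 * m = n ∧ m ∈ A) ∨ ∃ m, 2 * m + 1 = n ∧ m ∈ A') (by fun_prop)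
  refine ⟨E, hE.trans (Prod.ext (congrArg dec (funext fun m => propext ⟨fun h => h.elim
      (fun ⟨k, h1, h2⟩ => (by omega : k = m) ▸ h2) fun ⟨k, h1, _⟩ => by omega,
      fun h => .inl ⟨m, rfl, h⟩⟩))
    (congrArg dec (funext fun m => propext ⟨fun h => h.elim (fun ⟨k, h1, _⟩ => by omega)
      fun ⟨k, h1, h2⟩ => (by omega : k = m) ▸ h2, fun h => .inr ⟨m, rfl, h⟩⟩)))⟩

theorem ex_imp {D : X → Prop} (H : Prop) (h1 : H → ∃ y, InM M y ∧ D y) (h2 : ¬ H → ∀ y, D y) :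
    ∃ y, InM M y ∧ D y :=
  (em H).elim h1 fun h => ⟨_, inM_dec (r := fun _ => True) (by fun_prop), h2 h _⟩

/-- The enumeration of the type belongs to the model. -/
class DE (M : Set ZFSet.{0}) [Fact (ZFC M)] (ι : Type) [Srt M ι] [Encodable ι] : Prop where
  df : DfF M (encode : ι → ℕ)

instance : DE M ℕ := ⟨DfF.id⟩

section
variable {ι κ μ : Type} [Srt M ι] [Encodable ι] [DE M ι] [Srt M κ] [Encodable κ] [DE M κ]
  [Srt M μ] [Encodable μ] [DE M μ]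

@[fun_prop] theorem df_encode {Z : Type u} [Srt M Z] {f : Z → ι} (h : DfF M f) :
    DfF M fun z => encode (f z) := DE.df.comp h

theorem df1 {x : ι → Prop} : InM M x ↔ DfF M x := by
  refine ⟨fun ⟨A, h⟩ => h ▸ ?_, fun h => inM_of ?_⟩
  · change DfF M fun i => Nat.pair (encode i) 0 ∈ A
    fun_prop
  · change DfF M fun n => ∃ i m, Nat.pair (encode i) m = n ∧ x i
    fun_prop

theorem df2 {x : ι → κ → Prop} : InM M x ↔ DfF M fun z : ι × κ => x z.1 z.2 := by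
  refine ⟨fun ⟨A, h⟩ => h ▸ ?_, fun h => inM_of ?_⟩
  · simp only [dec_fun, dec_prop]
    fun_prop
  · change DfF M fun n => ∃ i m, Nat.pair (encode i) m = n ∧
      ∃ k m', Nat.pair (encode k) m' = m ∧ x i k
    fun_prop

theorem inM3 {x : ι × κ → μ → Prop} (h : DfF M fun z : (ι × κ) × μ => x z.1 z.2) :
    InM M fun i k => x (i, k) := by
  refine inM_of ?_
  change DfF M fun n => ∃ i m, Nat.pair (encode i) m = n ∧
    ∃ k m', Nat.pair (encode k) m' = m ∧ ∃ l m'', Nat.pair (encode l) m'' = m' ∧ x (i, k) l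
  fun_prop

end

theorem InM.ps {x : Sn} (h : InM M x) : ∃ A : PS M ℕ, x = (· ∈ A) :=
  ⟨_, (ps_eq (df1.1 h)).symm⟩

theorem inM_ps (A : PS M ℕ) : InM M (fun i => i ∈ A : Sn) := df1.2 (by fun_prop)

theorem df_cases {Z : Type u} [Srt M Z] {P : ℕ → Z → Prop} (h0 : DfF M (P 0))
    (h1 : DfF M fun z : Z × ℕ => P (z.2 + 1) z.1) : DfF M fun z : Z × ℕ => P z.2 z.1 :=
  (((DfF.id.snd.eq (DfF.const 0)).and (h0.comp DfF.id.fst)).or (DfF.ex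
    (P := fun (z : Z × ℕ) n => z.2 = n + 1 ∧ P (n + 1) z.1) (DfF.and (by fun_prop)
      (h1.comp (g := fun z : (Z × ℕ) × ℕ => (z.1.1, z.2)) (by fun_prop))))).congr fun ⟨z, n⟩ => by
    cases n <;> simp

variable {K : Type w} [Srt M K] [Sm M K] [TopologicalSpace K] [DTop M K] [T2Space K]

def MNHit (V : K → ℕ → PS M K) (d : ℕ → K) (II : Sn → Prop) (μ : Mu) : Prop :=
  ∀ A : PS M ℕ, (∃ y, Lim V d (· ∈ A) y) → ¬ MComp M II (sec μ (· ∈ A))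

/-- The meaning of the labels. -/
def Tag (V : K → ℕ → PS M K) (d : ℕ → K) (II : Sn → Prop) (ν0 : Nu) (o : Prop) (E0 : PS M ℕ) :
    ℕ → RR → Prop
  | 0, r => II (dec r)
  | 1, r => ∃ y, Lim V d (dec r) y
  | 2, r => MPlus V d (dec r : Sn × Sn).1 (dec r : Sn × Sn).2
  | 3, r => dec r = ν0
  | 4, r => MComp M II (dec r)
  | 5, r => MNHit V d II (dec r)
  | 6, r => MSep M II (dec r : Nu × Sq).1 (dec r : Nu × Sq).2
  | 7, r => MSepT M II (dec r : Nu × Lf × Nf).1 (dec r : Nu × Lf × Nf).2.1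
      (dec r : Nu × Lf × Nf).2.2
  | 8, r => ∃ z, CtrAt V d (dec r : Sq × Sn).1 (dec r : Sq × Sn).2 z
  | 9, r => MTrap V d (dec r : Sq × Sq).1 (dec r : Sq × Sq).2
  | 10, r => ¬ o ∧ r = (· ∈ E0)
  | 11, _ => o
  | n + 12, r => MCl V d n (dec r : Sq × Sn × Sn).1 (dec r : Sq × Sn × Sn).2.1
      (dec r : Sq × Sn × Sn).2.2

/-- The marking that belongs to a meaning of the labels. -/
def kk (T : ℕ → RR → Prop) (r : RR) : Prop :=
  ∃ t, r (Nat.pair t 0) ∧ T t fun m => r (Nat.pair t (m + 1))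

theorem kk_tg (T : ℕ → RR → Prop) (t : ℕ) (x : X) : kk T (tg t x) ↔ T t (enc x) := by
  have e : (fun m => tg t x (Nat.pair t (m + 1))) = enc x := funext fun m => by
    simp [tg, Nat.pair_eq_pair]
  refine ⟨fun ⟨s, h1, h2⟩ => ?_, fun h => ⟨t, .inl rfl, e ▸ h⟩⟩
  obtain rfl : t = s := by simpa [tg, Nat.pair_eq_pair] using h1
  exact e ▸ h2

theorem df_kk {T : ℕ → RR → Prop} (h : DfF M fun z : PS M ℕ × ℕ => T z.2 (· ∈ z.1)) :
    DfF M fun E : PS M ℕ => kk T (· ∈ E) :=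
  (DfF.ex (P := fun (E : PS M ℕ) t => Nat.pair t 0 ∈ E ∧
      T t (· ∈ PS.of M fun m => Nat.pair t (m + 1) ∈ E)) (DfF.and (by fun_prop)
    (h.comp (g := fun z : PS M ℕ × ℕ => (PS.of M fun m => Nat.pair z.2 (m + 1) ∈ z.1, z.2))
      (by fun_prop)))).congr fun E => exists_congr fun t => by rw [ps_eq (by fun_prop)]

variable {V : K → ℕ → PS M K} {d : ℕ → K} {II : Sn → Prop} {ν0 : ℕ → Finset ℕ → Prop}
variable [DE M (Finset ℕ)]

theorem df_tag (hV : WB M V) (dd : DfF M d) (hr : Rg V d II ν0) (o : Prop) (E0 : PS M ℕ) :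
    DfF M fun z : PS M ℕ × ℕ => Tag V d II ν0 o E0 z.2 (· ∈ z.1) := by
  have dV := hV.df
  have d0 := hr.d0
  obtain ⟨J, dJ, e⟩ : ∃ J : PS M ℕ → Prop, DfF M J ∧ ∀ A : PS M ℕ, II (· ∈ A) = J A :=
    ⟨_, hr.dI, fun _ => rfl⟩
  refine df_cases (P := fun t (A : PS M ℕ) => Tag V d II ν0 o E0 t (· ∈ A))
    ((dJ.comp (g := fun A : PS M ℕ => PS.of M fun i : ℕ => Nat.pair (encode i) 0 ∈ A)
      (by fun_prop)).congr fun A => by rw [← e, ps_eq (by fun_prop)]; rfl) ?_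
  refine df_cases (P := fun t (A : PS M ℕ) => Tag V d II ν0 o E0 (t + 1) (· ∈ A)) ?_ ?_
  rotate_left
  refine df_cases (P := fun t (A : PS M ℕ) => Tag V d II ν0 o E0 (t + 2) (· ∈ A)) ?_ ?_
  rotate_left
  refine df_cases (P := fun t (A : PS M ℕ) => Tag V d II ν0 o E0 (t + 3) (· ∈ A)) ?_ ?_
  rotate_left
  refine df_cases (P := fun t (A : PS M ℕ) => Tag V d II ν0 o E0 (t + 4) (· ∈ A)) ?_ ?_
  rotate_left
  refine df_cases (P := fun t (A : PS M ℕ) => Tag V d II ν0 o E0 (t + 5) (· ∈ A)) ?_ ?_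
  rotate_left
  refine df_cases (P := fun t (A : PS M ℕ) => Tag V d II ν0 o E0 (t + 6) (· ∈ A)) ?_ ?_
  rotate_left
  refine df_cases (P := fun t (A : PS M ℕ) => Tag V d II ν0 o E0 (t + 7) (· ∈ A)) ?_ ?_
  rotate_left
  refine df_cases (P := fun t (A : PS M ℕ) => Tag V d II ν0 o E0 (t + 8) (· ∈ A)) ?_ ?_
  rotate_left
  refine df_cases (P := fun t (A : PS M ℕ) => Tag V d II ν0 o E0 (t + 9) (· ∈ A)) ?_ ?_
  rotate_left
  refine df_cases (P := fun t (A : PS M ℕ) => Tag V d II ν0 o E0 (t + 10) (· ∈ A)) ?_ ?_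
  rotate_left
  refine df_cases (P := fun t (A : PS M ℕ) => Tag V d II ν0 o E0 (t + 11) (· ∈ A)) ?_ ?_
  rotate_left
  all_goals
    simp only [Tag, MPlus, MNHit, MComp, MSep, MSepT, MTrap, MCl, CtrAt, Lim, Inf, Null,
      Often, sec, e, dec_fst, dec_snd, dec_fun, dec_prop, funext_iff, all_iff, imp_iff]
    fun_prop

variable {B L : Type} [MeasurableSpace B] [MeasurableSpace L] [Cd B] [Cd L]

theorem holds (P : Par B L) (hV : WB M V) (dd : DfF M d) (hc : Cvg V d) (hr : Rg V d II ν0)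
    (cl : ∀ β : B, InM M β → DfF M (enc β)) :
    ∃ k : RR → Prop, (DfF M fun E : PS M ℕ => k (· ∈ E)) ∧ ∀ i (x : (ax P i).X), InM M x →
      ∃ y : (ax P i).Y, InM M y ∧ (ax P i).D x y fun n => k ((ax P i).ψ x y n) := by
  have dV := hV.df
  obtain ⟨o, ho⟩ : ∃ o : Prop, o ↔ ∀ β : B, InM M β → P.ok ν0 β → MComp M II (P.n1 β) →
    ∃ u : L, InM M u ∧ P.sub β u ∧ MComp M II (P.n2 β u) ∧ MNHit V d II (P.m2 β u) := ⟨_, .rfl⟩
  obtain ⟨β0, b1, b2⟩ := ex_imp (M := M) (D := fun β : B => ¬ o → P.ok ν0 β ∧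
      MComp M II (P.n1 β) ∧ ∀ u : L, InM M u → P.sub β u → MComp M II (P.n2 β u) →
        ¬ MNHit V d II (P.m2 β u)) (¬ o) (fun h => by
      simp only [ho, not_forall, not_exists, not_and] at h
      obtain ⟨β, h1, h2, h3, h4⟩ := h
      exact ⟨β, h1, fun _ => ⟨h2, h3, h4⟩⟩) fun h _ h' => absurd h' h
  obtain ⟨k, hk⟩ : ∃ k, k = kk (Tag V d II ν0 o (PS.of M (enc β0))) := ⟨_, rfl⟩
  have k0 : ∀ A : Sn, k (tg 0 A) ↔ II A := fun _ => by simp only [hk, kk_tg, Tag, de]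
  have k1 : ∀ A : Sn, k (tg 1 A) ↔ ∃ y, Lim V d A y := fun _ => by simp only [hk, kk_tg, Tag, de]
  have k2 : ∀ z : Sn × Sn, k (tg 2 z) ↔ MPlus V d z.1 z.2 := fun _ => by
    simp only [hk, kk_tg, Tag, de]
  have k3 : ∀ ν : Nu, k (tg 3 ν) ↔ ν = ν0 := fun _ => by simp only [hk, kk_tg, Tag, de]
  have k4 : ∀ ν : Nu, k (tg 4 ν) ↔ MComp M II ν := fun _ => by simp only [hk, kk_tg, Tag, de]
  have k5 : ∀ μ : Mu, k (tg 5 μ) ↔ MNHit V d II μ := fun _ => by simp only [hk, kk_tg, Tag, de]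
  have k6 : ∀ z : Nu × Sq, k (tg 6 z) ↔ MSep M II z.1 z.2 := fun _ => by
    simp only [hk, kk_tg, Tag, de]
  have k7 : ∀ z : Nu × Lf × Nf, k (tg 7 z) ↔ MSepT M II z.1 z.2.1 z.2.2 := fun _ => by
    simp only [hk, kk_tg, Tag, de]
  have k8 : ∀ z : Sq × Sn, k (tg 8 z) ↔ ∃ y, CtrAt V d z.1 z.2 y := fun _ => by
    simp only [hk, kk_tg, Tag, de]
  have k9 : ∀ z : Sq × Sq, k (tg 9 z) ↔ MTrap V d z.1 z.2 := fun _ => by
    simp only [hk, kk_tg, Tag, de]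
  have k10 : ∀ β : B, k (tg 10 β) ↔ ¬ o ∧ β = β0 := fun β => by
    simp only [hk, kk_tg, Tag, ps_eq (cl β0 b1)]
    exact and_congr_right fun _ => ⟨fun e => by rw [← de β, e, de], fun e => by rw [e]⟩
  have k11 : k (tg 11 True) ↔ o := by simp only [hk, kk_tg, Tag]
  have k12 : ∀ n (z : Sq × Sn × Sn), k (tg (n + 12) z) ↔ MCl V d n z.1 z.2.1 z.2.2 :=
    fun _ _ => by simp only [hk, kk_tg, Tag, de]
  have tr : InM M True := inM_of (DfF.const True)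
  have nc : ∀ ν, ¬ MComp M II ν → ∃ A : Sn, InM M A ∧ II A ∧ Null ν fun e => ¬ A e := fun ν h => by
    simp only [MComp, not_forall, not_not] at h
    obtain ⟨A, h1, h2⟩ := h
    exact ⟨_, inM_ps A, h1, h2⟩
  refine ⟨k, hk ▸ df_kk (df_tag hV dd hr _ _), fun i => ?_⟩
  match i with
  | 0 => exact fun x _ => ⟨True, tr, fun a b c =>
      (k0 _).2 (hr.union _ _ _ ((k0 _).1 a) ((k0 _).1 b) c)⟩
  | 1 => exact fun x _ => ⟨True, tr, fun a => (k0 _).2 (hr.fin _ a)⟩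
  | 2 =>
    rintro ⟨ν, A⟩ hx
    obtain ⟨A, rfl⟩ := hx.snd.ps
    exact ⟨True, tr, fun a b => (k4 _).1 a A ((k0 _).1 b)⟩
  | 3 =>
    refine fun ν _ => ex_imp (¬ k (tg 4 ν)) (fun h => ?_) (fun h _ a => absurd a h)
    obtain ⟨A, h1, h2, h3⟩ := nc ν fun e => h ((k4 _).2 e)
    exact ⟨A, h1, fun _ => ⟨(k0 _).2 h2, h3⟩⟩
  | 4 =>
    rintro ⟨μ, A⟩ hx
    obtain ⟨A, rfl⟩ := hx.snd.ps
    refine ex_imp (k (tg 5 μ) ∧ k (tg 1 (fun i => i ∈ A : Sn))) (fun h => ?_)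
      (fun h _ a b => absurd ⟨a, b⟩ h)
    obtain ⟨A', h1, h2, h3⟩ := nc _ ((k5 _).1 h.1 A ((k1 _).1 h.2))
    exact ⟨A', h1, fun _ _ => ⟨(k0 _).2 h2, h3⟩⟩
  | 5 =>
    refine fun μ _ => ex_imp (¬ k (tg 5 μ)) (fun h => ?_) fun h _ a => absurd a h
    have h0 : ¬ MNHit V d II μ := fun e => h ((k5 _).2 e)
    simp only [MNHit, not_forall, not_not] at h0
    obtain ⟨A, h1, h2⟩ := h0
    exact ⟨_, inM_ps A, fun _ => ⟨(k1 _).2 h1, (k4 _).2 h2⟩⟩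
  | 6 =>
    refine fun A hx => ex_imp (Inf A) (fun h => ?_) (fun h _ a => absurd a h)
    obtain ⟨C, h1, h2, y, h3⟩ := hc.conv A (df1.1 hx) h
    exact ⟨C, df1.2 h1, fun _ => ⟨(k1 _).2 ⟨y, h3⟩, h3.1, h2⟩⟩
  | 7 =>
    refine fun A _ => ex_imp (k (tg 1 A)) (fun h => ?_) (fun h _ a => absurd a h)
    obtain ⟨y, h1⟩ := (k1 _).1 h
    obtain ⟨j, h2⟩ := hr.a1 y
    have h3 : DfF M fun i : ℕ => d i ∈ V y j := by clear cl; fun_prop
    exact ⟨fun i => d i ∈ V y j, df1.2 h3, fun _ =>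
      ⟨(k2 _).2 ⟨y, h1, j, fun _ => .rfl⟩, (k0 _).2 h2⟩⟩
  | 8 =>
    rintro ⟨ν1, ν, E⟩ hx
    refine ex_imp (k (tg 3 ν1) ∧ Norm ν ∧ Adm ν1 ν) (fun ⟨h1, h2, h3⟩ => ?_)
      fun h _ a b c => absurd ⟨a, b, c⟩ h
    rcases hr.rk ν E (df2.1 hx.snd.fst) (df2.1 hx.snd.snd) h2 ((k3 _).1 h1 ▸ h3) with
      ⟨R, r1, r2, r3⟩ | ⟨N, r1, r2, r3⟩
    · exact ⟨(R, E), (df1.2 r1).mk hx.snd.snd, fun _ _ _ => .inl ⟨(k0 _).2 r2, r3⟩⟩
    · exact ⟨(fun _ => True, N), (df1.2 (DfF.const True)).mk (df2.2 r1),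
        fun _ _ _ => .inr ⟨(k6 _).2 r2, r3⟩⟩
  | 9 =>
    rintro ⟨z, A⟩ hx
    obtain ⟨A, rfl⟩ := hx.snd.ps
    exact ⟨True, tr, fun a b => (k6 _).1 a A ((k0 _).1 b)⟩
  | 10 =>
    rintro ⟨ν1, ν⟩ hx
    refine ex_imp (k (tg 3 ν1) ∧ Norm ν ∧ Adm ν1 ν ∧ k (tg 4 ν)) (fun ⟨h1, h2, h3, h4⟩ => ?_)
      fun h _ a b c e => absurd ⟨a, b, c, e⟩ h
    obtain ⟨F, N, r1, r2, r3, r4⟩ := hr.sepb ν (df2.1 hx.snd) h2 ((k3 _).1 h1 ▸ h3) ((k4 _).1 h4)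
    exact ⟨(F, fun t i => N (t, i)), (df1.2 r1).mk (inM3 r2), fun _ _ _ _ => ⟨(k7 _).2 r3, r4⟩⟩
  | 11 =>
    rintro ⟨z, A, H⟩ hx
    obtain ⟨A, rfl⟩ := hx.snd.fst.ps
    obtain ⟨H, rfl⟩ := hx.snd.snd.ps
    exact ⟨True, tr, fun a b c => (k7 _).1 a A H ((k0 _).1 b) c⟩
  | 12 =>
    refine fun x hx => ex_imp (∀ i, k (tg 1 (x i))) (fun h => ?_) (fun h _ a => absurd a h)
    obtain ⟨S, h1, h2⟩ := hc.ctr x (df2.1 hx) fun i => (k1 _).1 (h i)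
    exact ⟨S, df1.2 h1, fun _ => (k8 _).2 h2⟩
  | 13 => exact fun x _ => ⟨True, tr, fun a b =>
      (hc.cl _ _ _ ((k8 _).1 a) ((k1 _).1 b)).imp fun n h => (k12 n _).2 h⟩
  | 14 =>
    rintro ⟨z, A, A'⟩ hx
    obtain ⟨A, rfl⟩ := hx.snd.fst.ps
    obtain ⟨A', rfl⟩ := hx.snd.snd.ps
    exact ⟨True, tr, fun a b => (k9 _).1 a A A' ((k2 _).1 b)⟩
  | 15 => exact fun _ _ => ⟨(ν0, β0), (df2.2 hr.d0).mk b1, (k3 _).2 rfl, hr.norm, (k4 _).2 hr.comp,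
      (em o).imp k11.2 fun h => ⟨(k10 _).2 ⟨h, rfl⟩, (b2 h).1, (k4 _).2 (b2 h).2.1⟩⟩
  | 16 =>
    rintro ⟨β, u⟩ hx
    refine ⟨True, tr, fun a b c e => ?_⟩
    obtain ⟨h1, rfl⟩ := (k10 _).1 a
    exact (b2 h1).2.2 u hx.snd b ((k4 _).1 c) ((k5 _).1 e)
  | 17 =>
    rintro ⟨ν, β⟩ hx
    refine ex_imp (k (tg 11 True) ∧ k (tg 3 ν) ∧ P.ok ν β ∧ k (tg 4 (P.n1 β)))
      (fun ⟨h1, h2, h3, h4⟩ => ?_) fun h _ a b c e => absurd ⟨a, b, c, e⟩ h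
    obtain ⟨u, u1, u2, u3, u4⟩ := ho.1 (k11.1 h1) β hx.snd ((k3 _).1 h2 ▸ h3) ((k4 _).1 h4)
    exact ⟨u, u1, fun _ _ _ _ => ⟨u2, (k4 _).2 u3, (k5 _).2 u4⟩⟩
  | n + 18 =>
    rintro ⟨x, S, x'⟩ hx
    refine ex_imp (∀ j, k (tg (n + 12) (x, S, x' j))) (fun h => ?_) fun h _ a => absurd a h
    obtain ⟨u, u', u1, u2, u3, u4⟩ := hc.trap n x S x' (df2.1 hx.fst) (df2.1 hx.snd.snd)
      fun j => (k12 n _).1 (h j)
    exact ⟨(u, u'), (df2.2 u1).mk (df2.2 u2), fun _ => ⟨(k9 _).2 u3, u4⟩⟩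

omit [DE M (Finset ℕ)] in
theorem de_finset {A : PS M ℕ} (h : (· ∈ A) = fun n => (∃ s : Finset ℕ, Nat.pair (encode s) 0 = n) ∨
    ∃ (s : Finset ℕ) (i : ℕ), i ∈ s ∧ Nat.pair (encode s) (i + 1) = n) : DE M (Finset ℕ) := by
  have e := fun n => iff_of_eq (congrFun h n)
  refine ⟨DfF.of_rel (P := fun s n => Nat.pair n 0 ∈ A ∧ ∀ i, i ∈ s ↔ Nat.pair n (i + 1) ∈ A)
    (by simp only [all_iff]; fun_prop) fun s n => ?_⟩
  simp only [e, Nat.pair_eq_pair, Nat.succ_ne_zero, and_false, exists_false, or_false, and_true,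
    (Nat.succ_ne_zero _).symm, false_or, Nat.add_right_cancel_iff]
  constructor
  · rintro rfl
    exact ⟨⟨s, rfl⟩, fun i => ⟨fun h => ⟨s, i, h, rfl, rfl⟩, fun ⟨t, j, h1, h2, h3⟩ =>
      Encodable.encode_injective h2 ▸ h3 ▸ h1⟩⟩
  · rintro ⟨⟨t, rfl⟩, h1⟩
    refine congrArg _ (Finset.ext fun i => (h1 i).trans ⟨fun ⟨t, j, h1, h2, h3⟩ =>
      Encodable.encode_injective h2 ▸ h3 ▸ h1, fun h => ⟨t, i, h, rfl, rfl⟩⟩)

omit hM in
theorem final (P : Par B L) (Q : Kind)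
    (h : ∀ (s : St Q) (p : U) (θ : Tg B), s.b p p → NS P s.b p θ →
      (∀ ν, NB s.b ν → NB s.b (θ.Reg ν)) → ∃ (s' : St Q) (q : U), s.le s' ∧ s'.b q p ∧
        ∀ (s'' : St Q) (θ' : Tg B), s'.le s'' → NS P s''.b q θ' → Per s.b s''.b q θ θ' → False) :
    ∃ M : Set ZFSet.{0}, ZFC M ∧ ∀ X ∈ M, ∀ T ∈ M, CompactSp M X T → WeakFC M X T →
      ∀ p ∈ X, FirstCtAt M T p := by
  obtain ⟨M, hM, c1, c2, c3⟩ := transfer Q (axs (ax P)) (fun s p κ m hκ =>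
      let ⟨s', q, h1, h2, h3⟩ := h s p (th κ) m (ns_of hκ) fun _ _ => hκ.nb _
      ⟨s', q, h1, h2, fun s'' κ' h4 h5 h6 => h3 s'' (th κ') h4 (ns_of h5) (per_of h6)⟩)
    (fun j x y => ∀ n, y n ↔ if j = 0 then (∃ s : Finset ℕ, Nat.pair (encode s) 0 = n) ∨
      ∃ (s : Finset ℕ) (i : ℕ), i ∈ s ∧ Nat.pair (encode s) (i + 1) = n else enc (dec x : B) n)
    (fun j => by split_ifs <;> fun_prop) fun j x => ⟨_, fun _ => .rfl⟩
  refine ⟨M, hM.out, fun X hX T hT h1 h2 p hp => top_of_noSys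
    (fun K _ _ _ _ _ V d II ν0 hV dd hc hr => ?_) hX hT h1 h2 hp⟩
  obtain ⟨A, hA⟩ := c1 0 (PS.of M fun _ => True)
  have := de_finset (funext fun n => propext (hA n))
  obtain ⟨k, k1, k2⟩ := holds P hV dd hc hr fun β ⟨E, hE⟩ => by
    obtain ⟨E', h3⟩ := c1 1 E
    exact DfF.congr (P := fun n => n ∈ E') (by fun_prop) fun n => by rw [← hE]; exact (h3 n).symm
  refine c3 _ k1 fun i E => ?_
  obtain ⟨_, ⟨E', rfl⟩, h3⟩ := k2 i _ ⟨E, rfl⟩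
  refine ⟨E', cast (congrArg _ (funext fun n => propext ?_)) h3⟩
  obtain ⟨F, hF⟩ := c2 i n E E'
  refine ⟨fun e => ⟨F, hF, ?_⟩, fun ⟨F', h4, h5⟩ => ?_⟩
  · exact cast (congrArg k hF.symm) e
  · exact cast (congrArg k h4) h5

end Pool.Agent.MP_5baa61_gt.JK.Br
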