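import Pool.Agent.MP_5baa61_gt.JK.Ex

/-! Stages with promises, chains of stages, capturing of statements about names. -/

namespace Pool.Agent.MP_5baa61_gt.JK

open Set Function Pool.Agent.MP_b60a07_lc.H92
open scoped Classical

universe v

/-- A kind of promise that passes to direct limits. -/
structure Kind where
  b0 : Rl
  g0 : Good b0
  Pr : Type 1
  keep : Rl → Pr → Prop
  top : Pr
  ktop : keep b0 top
  le : Pr → Pr → Prop
  lr : ∀ π, le π π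
  small : ∀ (d : Od → Rl) (π : Pr) (ξ : Od), (∀ i, Good (d i)) → Good (sup d) →
    (∀ i, Ext (d i) (sup d)) → (∀ i j, ∃ k, Ext (d i) (d k) ∧ Ext (d j) (d k) ∧ keep (d k) π) →
    (∀ i, ∃ j ≤ ξ, d i = d j) → (∃ i, keep (d i) π) → keep (sup d) π
  long : ∀ (d : Od → Rl) (π : Pr), (∀ i, Good (d i)) → Good (sup d) →
    (∀ i, Ext (d i) (sup d)) → (∀ i j, i ≤ j → Ext (d i) (d j)) →
    (∀ i, keep (d i) π) → keep (sup d) π

variable {K : Kind}

/-- A stage: a forcing notion with a list of promises that it keeps. -/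
structure St (K : Kind) where
  b : Rl
  pr : Set K.Pr
  g : Good b
  sz : ∃ e : Od → Option K.Pr, ∀ π ∈ pr, ∃ i, e i = some π
  k : ∀ π ∈ pr, K.keep b π
  e0 : Ext K.b0 b
  tp : K.top ∈ pr
  dir : ∀ π ∈ pr, ∀ π' ∈ pr, ∃ ρ ∈ pr, K.le ρ π ∧ K.le ρ π'

instance (s : St K) : PO s.b := po s.g

def St.le (s t : St K) : Prop := Ext s.b t.b ∧ s.pr ⊆ t.pr

theorem St.refl (s : St K) : s.le s := ⟨s.g.ext, subset_rfl⟩

theorem St.le.trans {s t u : St K} (h : s.le t) (h' : t.le u) : s.le u :=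
  ⟨h.1.trans h'.1 u.g.tr, h.2.trans h'.2⟩

theorem sz_union (d : Od → St K) : ∃ e : Od → Option K.Pr, ∀ π ∈ ⋃ i, (d i).pr, ∃ i, e i = some π := by
  choose e he using fun i => (d i).sz
  obtain ⟨c, hc⟩ := surj_prod
  refine ⟨fun i => e (c i).1 (c i).2, fun π h => ?_⟩
  obtain ⟨i, h⟩ := mem_iUnion.1 h
  obtain ⟨j, hj⟩ := he i π h
  obtain ⟨k, hk⟩ := hc (i, j)
  exact ⟨k, by simp only [hk, hj]⟩

theorem dir_union {d : Od → St K} (hd : ∀ i j, ∃ k, (d i).le (d k) ∧ (d j).le (d k)) :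
    ∀ π ∈ ⋃ i, (d i).pr, ∀ π' ∈ ⋃ i, (d i).pr, ∃ ρ ∈ ⋃ i, (d i).pr, K.le ρ π ∧ K.le ρ π' :=
  fun π h π' h' => by
  obtain ⟨i, h⟩ := mem_iUnion.1 h
  obtain ⟨j, h'⟩ := mem_iUnion.1 h'
  obtain ⟨k, h1, h2⟩ := hd i j
  obtain ⟨ρ, h3, h4⟩ := (d k).dir π (h1.2 h) π' (h2.2 h')
  exact ⟨ρ, mem_iUnion.2 ⟨k, h3⟩, h4⟩

theorem sup_small (d : Od → St K) (ξ : Od) (hd : ∀ i j, ∃ k, (d i).le (d k) ∧ (d j).le (d k))
    (hs : ∀ i, ∃ j ≤ ξ, d i = d j) :
    ∃ s : St K, s.b = sup (fun i => (d i).b) ∧ ∀ i, (d i).le s := by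
  have hd' : ∀ i j, ∃ k, Ext (d i).b (d k).b ∧ Ext (d j).b (d k).b := fun i j =>
    let ⟨k, h1, h2⟩ := hd i j; ⟨k, h1.1, h2.1⟩
  have hg : Good (sup fun i => (d i).b) := good_sup (fun i => (d i).g) hd' fun f hf => by
    obtain ⟨k, hk⟩ := ub_top.fiber (K := Iic ξ) (fun i k => (d k.1).b (f i) (f i)) fun i _ => by
      obtain ⟨η, h⟩ := hf i
      obtain ⟨j, h1, h2⟩ := hs η
      exact ⟨⟨j, h1⟩, h2 ▸ h⟩
    obtain ⟨i, j, -, -, h2, -, r, h3, h4⟩ := (d k).g.cc.pair hk id f fun _ h => h.2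
    exact ⟨i, j, h2, r, ⟨k, h3⟩, k, h4⟩
  refine ⟨⟨_, ⋃ i, (d i).pr, hg, sz_union d, fun π h => ?_,
    (d 0).e0.trans (ext_sup hd' 0) hg.tr, mem_iUnion.2 ⟨0, (d 0).tp⟩, dir_union hd⟩, rfl,
    fun i => ⟨ext_sup hd' i, subset_iUnion (fun i => (d i).pr) i⟩⟩
  obtain ⟨i, h⟩ := mem_iUnion.1 h
  refine K.small _ π ξ (fun i => (d i).g) hg (ext_sup hd') (fun a c => ?_)
    (fun i => let ⟨j, h1, h2⟩ := hs i; ⟨j, h1, by rw [h2]⟩) ⟨i, (d i).k π h⟩
  obtain ⟨k, h1, h2⟩ := hd a c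
  obtain ⟨l, h3, h4⟩ := hd k i
  exact ⟨l, (h1.trans h3).1, (h2.trans h3).1, (d l).k π (h4.2 h)⟩

theorem sup_shift {d : Od → Rl} (hd : ∀ i j, i ≤ j → Ext (d i) (d j)) (i : Od) :
    sup (fun j => d (max i j)) = sup d :=
  funext₂ fun _ _ => propext ⟨fun ⟨_, h⟩ => ⟨_, h⟩,
    fun ⟨j, h⟩ => ⟨j, (hd _ _ (le_max_right i j)).le h⟩⟩

/-- A continuous chain of stages along the ordinals. -/
theorem chainS (s0 : St K) (F : Od → St K → St K) (hF : ∀ ξ (c : St K), c.le (F ξ c)) :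
    ∃ (s : St K) (c : Od → St K), (∀ ξ, s0.le (c ξ) ∧ (F ξ (c ξ)).le s) ∧
      (∀ ξ η, ξ ≤ η → (c ξ).le (c η)) ∧ ∀ p, s.b p p → ∃ ξ, (c ξ).b p p := by
  let L : (Od → St K) → St K := fun d =>
    if h : ∃ s : St K, s.b = sup (fun i => (d i).b) ∧ ∀ i, (d i).le s then h.choose else s0
  let s : Od → St K := (wellFounded_lt (α := Od)).fix fun ξ g =>
    F ξ (L fun η => if h : η < ξ then g η h else s0)
  let c : Od → St K := fun ξ => L fun η => if η < ξ then s η else s0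
  have hs : ∀ ξ, s ξ = F ξ (c ξ) := fun ξ => WellFounded.fix_eq _ _ ξ
  have step : ∀ ξ, (s0.le (c ξ) ∧ ∀ η < ξ, (s η).le (c ξ)) →
      s0.le (s ξ) ∧ ∀ η ≤ ξ, (s η).le (s ξ) := fun ξ h => by
    have h2 := hF ξ (c ξ)
    rw [← hs] at h2
    exact ⟨h.1.trans h2, fun η hη => hη.eq_or_lt.elim (fun e => e ▸ St.refl _)
      fun hη => (h.2 η hη).trans h2⟩
  have key : ∀ ξ, (s0.le (c ξ) ∧ ∀ η < ξ, (s η).le (c ξ)) ∧
      (c ξ).b = sup fun η => (if η < ξ then s η else s0).b := fun ξ => by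
    induction ξ using WellFoundedLT.induction with
    | ind ξ ih =>
    have h1 := fun η hη => step η (ih η hη).1
    have hb : ∀ η, s0.le (if η < ξ then s η else s0) := fun η => by
      split_ifs with h
      exacts [(h1 η h).1, s0.refl]
    have h := sup_small (fun η => if η < ξ then s η else s0) ξ (fun i j => by
      by_cases hi : i < ξ
      · by_cases hj : j < ξ
        · have hk := max_lt hi hj
          exact ⟨max i j, by
            simpa only [hi, hj, hk, if_true] using ⟨(h1 _ hk).2 i (le_max_left _ _),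
              (h1 _ hk).2 j (le_max_right _ _)⟩⟩
        · exact ⟨i, St.refl _, by rw [if_neg hj]; exact hb i⟩
      · exact ⟨j, by rw [if_neg hi]; exact hb j, St.refl _⟩) fun i => by
      by_cases hi : i < ξ
      exacts [⟨i, hi.le, rfl⟩, ⟨ξ, le_rfl, by simp [hi]⟩]
    have e : c ξ = h.choose := dif_pos h
    rw [e]
    exact ⟨⟨by simpa using h.choose_spec.2 ξ,
      fun η hη => by simpa only [hη, if_true] using h.choose_spec.2 η⟩, h.choose_spec.1⟩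
  have h1 := fun ξ => step ξ (key ξ).1
  have cs : ∀ ξ, (c ξ).le (s ξ) := fun ξ => hs ξ ▸ hF ξ _
  have mono : ∀ i j, i ≤ j → Ext (s i).b (s j).b := fun i j h => ((h1 j).2 i h).1
  have hd : ∀ i j, ∃ k, Ext (s i).b (s k).b ∧ Ext (s j).b (s k).b := fun i j =>
    ⟨max i j, mono _ _ (le_max_left _ _), mono _ _ (le_max_right _ _)⟩
  have tr : ∀ {p q r}, sup (fun i => (s i).b) p q → sup (fun i => (s i).b) q r →
      sup (fun i => (s i).b) p r := sup_tr (fun i => (s i).g) hd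
  have h2 : ∀ ξ, Ext (c ξ).b (sup fun i => (s i).b) := fun ξ => (cs ξ).1.trans (ext_sup hd ξ) tr
  have hg : Good (sup fun i => (s i).b) := good_sup (fun i => (s i).g) hd fun f hf => by
    choose π p1 p2 p3 p4 using fun ξ => (h2 ξ).red (f ξ) (hf ξ)
    have h3 : ∀ ξ, ∃ η, (0 < ξ → η < ξ) ∧ (s η).b (π ξ) (π ξ) := fun ξ => by
      obtain ⟨η, h⟩ := (key ξ).2 ▸ p1 ξ
      by_cases hη : η < ξ
      · exact ⟨η, fun _ => hη, by simpa [hη] using h⟩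
      · exact ⟨0, id, (h1 0).1.1.le (by simpa [hη] using h)⟩
    choose g g1 g2 using h3
    choose k hk using hf
    obtain ⟨η, hη⟩ := fodor g g1
    obtain ⟨i, j, hi, hj, h4, h5, r, h6, h7⟩ := (s η).g.cc.pair (hη.gt η) k π
      fun i hi => (mono _ _ hi.1).le (g2 i)
    obtain ⟨u, u1, u2⟩ := p4 i r (((key i).1.2 η hi.2).1.le h6)
    obtain ⟨ρ, -, -, r3, -⟩ := (h2 j).red u (let ⟨a, h⟩ := u1; ⟨a, (s a).g.l h⟩)
    have h8 := ((key j).1.2 η hj.2).1.le h7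
    obtain ⟨v, v1, v2⟩ := p4 j ρ ((c j).g.tr (r3 r ((c j).g.l h8) u1) h8)
    exact ⟨i, j, h4, v, tr v1 ((h2 j).le (r3 _ (((key j).1.2 _ h5).1.le (hk i)) u2)), v2⟩
  have hk : ∀ π ∈ ⋃ i, (s i).pr, K.keep (sup fun i => (s i).b) π := fun π h => by
    obtain ⟨i, h⟩ := mem_iUnion.1 h
    have e := sup_shift mono i
    rw [← e]
    exact K.long _ π (fun j => (s _).g) (e ▸ hg) (fun j => e ▸ ext_sup hd _)
      (fun a c h => mono _ _ (max_le_max_left i h))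
      fun j => (s _).k π (((h1 _).2 i (le_max_left i j)).2 h)
  let S : St K := ⟨_, ⋃ i, (s i).pr, hg, sz_union s, hk, (s 0).e0.trans (ext_sup hd 0) hg.tr,
    mem_iUnion.2 ⟨0, (s 0).tp⟩, dir_union fun i j =>
      ⟨max i j, (h1 _).2 i (le_max_left _ _), (h1 _).2 j (le_max_right _ _)⟩⟩
  have hS : ∀ ξ, (s ξ).le S := fun ξ => ⟨ext_sup hd ξ, subset_iUnion (fun i => (s i).pr) ξ⟩
  refine ⟨S, c, fun ξ => ⟨(key ξ).1.1, hs ξ ▸ hS ξ⟩, fun ξ η h =>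
      h.eq_or_lt.elim (fun e => e ▸ St.refl _) fun h => (cs ξ).trans ((key η).1.2 ξ h),
    fun p hp => ?_⟩
  obtain ⟨ξ, h⟩ := hp
  exact ⟨ξ + 1, ((key _).1.2 ξ (lt_add_one ξ)).1.le h⟩

/-- A condition of the whole forcing: a stage and a condition in it. -/
structure QQ (K : Kind) where
  s : St K
  p : U
  m : s.b p p

def leQ (x y : QQ K) : Prop := y.s.le x.s ∧ x.s.b x.p y.p

instance : Pre (leQ (K := K)) where
  refl x := ⟨x.s.refl, x.m⟩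
  trans {x _ _} h h' := ⟨h'.1.trans h.1, x.s.g.tr h.2 (h.1.1.le h'.2)⟩

theorem exists_topQ : ∃ t : QQ K, ∀ x, leQ x t :=
  ⟨⟨⟨K.b0, {K.top}, K.g0, ⟨fun _ => some K.top, by simp⟩, by simpa using K.ktop, K.g0.ext, rfl,
    by simpa using K.lr _⟩, t0, K.g0.top0⟩, fun x =>
    ⟨⟨x.s.e0, singleton_subset_iff.2 x.s.tp⟩, x.s.g.top x.m⟩⟩

instance : PO (leQ (K := K)) := ⟨fun _ => lrefl _, fun _ => lrefl _, ltrans⟩

/-- Downward closed. -/
def DnQ (R : QQ K → Prop) : Prop := ∀ ⦃x y⦄, leQ y x → R x → R y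

variable {X : Type v} [MeasurableSpace X] [StandardBorelSpace X] [Nonempty X]

/-- The property of a name and a condition respects forced equality of names. -/
def Cg (R : (Set U → X) → QQ K → Prop) : Prop :=
  ∀ f g x, NB x.s.b f → NB x.s.b g → (Fc x.s.b x.p fun G => f G = g G) → R f x → R g x

/-- The diamond principle of the generic iteration: above every stage there is a stage that
reflects the given statements about its own names. -/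
theorem captureS {ι : Type 1} (e : Od → ι) (he : Surjective e) (R : ι → (Set U → X) → QQ K → Prop)
    (hR : ∀ i f, DnQ (R i f)) (hC : ∀ i, Cg (R i)) (s0 : St K) : ∃ s : St K, s0.le s ∧
      ∀ i f p m y, NB s.b f → leQ y ⟨s, p, m⟩ → R i f y → ∃ q m', s.b q p ∧ R i f ⟨s, q, m'⟩ := by
  have one : ∀ c : St K, ∃ s : St K, c.le s ∧ ∀ i f p, NB c.b f → c.b p p →
      ∀ y : QQ K, s.le y.s → y.s.b y.p p → R i f y → ∃ g, NB c.b g ∧
        (Fc c.b t0 fun G => f G = g G) ∧ ∃ q m', s.b q p ∧ R i g ⟨s, q, m'⟩ := fun c => by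
    obtain ⟨u, hu⟩ := c.g.sz
    obtain ⟨k, hk⟩ := surj_prod
    obtain ⟨E, e1, e2⟩ := list_names c.g X
    have h1 : ∀ ξ (a : St K), ∃ a' : St K, a.le a' ∧ ((∃ y : QQ K, a.le y.s ∧
        y.s.b y.p (u (k ξ).2) ∧ R (e (k (k ξ).1).1) (E (k (k ξ).1).2) y) →
        ∃ q m', a'.b q (u (k ξ).2) ∧ R (e (k (k ξ).1).1) (E (k (k ξ).1).2) ⟨a', q, m'⟩) :=
      fun ξ a => by
      by_cases h : ∃ y : QQ K, a.le y.s ∧ y.s.b y.p (u (k ξ).2) ∧
        R (e (k (k ξ).1).1) (E (k (k ξ).1).2) y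
      · obtain ⟨x, h1, h2, h3⟩ := h
        exact ⟨x.s, h1, fun _ => ⟨x.p, x.m, h2, h3⟩⟩
      · exact ⟨a, a.refl, fun h' => absurd h' h⟩
    choose F hF using h1
    obtain ⟨s, d, h2, -, -⟩ := chainS c F fun ξ a => (hF ξ a).1
    have h3 : ∀ ξ, (d ξ).le s := fun ξ => (hF ξ _).1.trans (h2 ξ).2
    have h4 := (h2 0).1.trans (h3 0)
    refine ⟨s, h4, fun i f p hf hp y hy hp' hr => ?_⟩
    obtain ⟨i, rfl⟩ := he i
    obtain ⟨j, rfl⟩ := hu p hp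
    obtain ⟨l, hl⟩ := e2 f hf
    obtain ⟨ζ, hζ⟩ := hk (i, l)
    obtain ⟨ξ, hξ⟩ := hk (ζ, j)
    have h5 := (h4.trans hy).1
    obtain ⟨q, m, q1, q2⟩ := (hF ξ (d ξ)).2 ⟨y, (h3 ξ).trans hy, by
      simp only [hξ, hζ]
      refine ⟨hp', hC _ f _ y (hf.ext h5) ((e1 l).ext h5) ?_ hr⟩
      exact (hl.up (Measurable.eq hf (e1 l)) h5 c.g.top0).mono (y.s.g.top y.m)⟩
    simp only [hξ, hζ] at q1 q2
    have q3 := (h2 ξ).2.1.le q1
    exact ⟨E l, e1 l, hl, q, s.g.l q3, q3, hR _ _ (x := ⟨_, q, m⟩) ⟨(h2 ξ).2, s.g.l q3⟩ q2⟩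
  choose F hF using one
  obtain ⟨s, d, h2, h3, h4⟩ := chainS s0 (fun _ => F) fun _ a => (hF a).1
  have h5 : ∀ ξ, (d ξ).le s := fun ξ => (hF _).1.trans (h2 ξ).2
  refine ⟨s, (h2 0).1.trans (h5 0), fun i f p m y hf hy hr => ?_⟩
  obtain ⟨β, u, g, g1, g2, g3⟩ := small_support s.g hf
  choose k hk using fun j => h4 _ (g1 j)
  obtain ⟨γ, hγ⟩ := exists_bd k
  obtain ⟨ξ, hξ⟩ := h4 p m
  have hg : NB (d (max ξ γ)).b g := g2 _ fun j =>
    (h3 _ _ ((hγ j).le.trans (le_max_right _ _))).1.le (hk j)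
  have hg' := hg.ext (h5 _).1
  obtain ⟨g', a1, a2, q, m', q1, q2⟩ := (hF (d (max ξ γ))).2 i g p hg
    ((h3 _ _ (le_max_left _ _)).1.le hξ) y ((h2 _).2.trans hy.1) hy.2
    (hC i f g y (hf.ext hy.1.1) (hg'.ext hy.1.1)
      ((g3.up (Measurable.eq hf hg') hy.1.1 s.g.top0).mono (y.s.g.top y.m)) hr)
  have q3 := (h2 _).2.1.le q1
  refine ⟨q, s.g.l q3, q3, hC i g' f _ (a1.ext (h5 _).1) hf ?_
    (hR _ _ (x := ⟨_, q, m'⟩) ⟨(h2 _).2, s.g.l q3⟩ q2)⟩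
  exact (((a2.up (Measurable.eq hg a1) (h5 _).1 (d _).g.top0).and g3).mono
    (s.g.top (s.g.l q3))).imp fun _ h => h.1.symm.trans h.2.symm

end Pool.Agent.MP_5baa61_gt.JK
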