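import Pool.Agent.MP_5baa61_gt.JK.Nm
import Pool.Agent.MP_b60a07_lc.h92.Base

/-! Names that persist along complete embeddings, nice names. -/

namespace Pool.Agent.MP_5baa61_gt.JK

open Set Function MeasureTheory Pool.Agent.MP_b60a07_lc.H92
open scoped Classical

universe v

theorem po {b : Rl} (h : Good b) : PO b := ⟨h.l, h.r, h.tr⟩

/-- The part of a filter that lies in the domain of `b`. -/
def res (b : Rl) (G : Set U) : Set U := {p ∈ G | b p p}

variable {a b c : Rl} {p q r : U} {S T : Set U → Prop} {G : Set U}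

theorem Flt.dom [PO b] (h : Flt b G) (hp : p ∈ G) : b p p :=
  let ⟨_, _, h1, _⟩ := h.dir p hp p hp; PO.r h1

theorem res_flt [PO b] (h : Flt b G) : res b G = G :=
  Set.ext fun _ => ⟨And.left, fun hp => ⟨hp, h.dom hp⟩⟩

theorem res_res (h : Ext a b) : res a (res b G) = res a G :=
  Set.ext fun _ => ⟨fun e => ⟨e.1.1, e.2⟩, fun e => ⟨⟨e.1, h.le e.2⟩, e.2⟩⟩

theorem res_idem : res b (res b G) = res b G :=
  Set.ext fun _ => ⟨fun e => e.1, fun e => ⟨e, e.2⟩⟩

theorem ext_flt [PO b] [PO c] (h : Ext b c) (hG : Flt c G) : Flt b (res b G) := by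
  refine ⟨fun p hp q hq => ?_, fun p hp q e => ⟨hG.up _ hp.1 _ (h.le e), PO.r e⟩⟩
  obtain ⟨r, h1, h2, h3⟩ := hG.dir p hp.1 q hq.1
  obtain ⟨π, p1, p2, p3, -⟩ := h.red r (PO.l h2)
  exact ⟨π, ⟨hG.up _ h1 _ p2, p1⟩, p3 p hp.2 h2, p3 q hq.2 h3⟩

theorem ext_fc [PO b] [PO c] (h : Ext b c) (hq : b q q) (hS : Fc b q S) :
    Fc c q fun G => S (res b G) := by
  obtain ⟨D, h1, h2⟩ := hS
  refine ⟨fun n s => ∃ d, b d d ∧ D n d ∧ c s d, fun n r hr => ?_, fun G hG h3 h4 =>
    h2 _ (ext_flt h hG) ⟨h3, hq⟩ fun n => ?_⟩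
  · obtain ⟨π, p1, -, p3, p4⟩ := h.red r (PO.l hr)
    obtain ⟨d, d1, d2⟩ := h1 n π (p3 q hq hr)
    obtain ⟨s, s1, s2⟩ := p4 d d1
    exact ⟨s, s2, d, PO.l d1, d2, s1⟩
  · obtain ⟨s, s1, d, d1, d2, d3⟩ := h4 n
    exact ⟨d, ⟨hG.up _ s1 _ d3, d1⟩, d2⟩

theorem ext_dec [PO b] [PO c] (h : Ext b c) (hS : Dec b S) : Dec c fun G => S (res b G) :=
  fun r hr => by
  obtain ⟨π, p1, -, -, p4⟩ := h.red r hr
  obtain ⟨d, d1, d2⟩ := hS π p1
  obtain ⟨s, s1, s2⟩ := p4 d d1
  exact ⟨s, s2, d2.imp (fun e => (ext_fc h (PO.l d1) e).mono s1)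
    fun e => (ext_fc h (PO.l d1) e).mono s1⟩

/-- Filters with the sigma-algebra of the properties that are decided by `b` and depend only on
the part of the filter inside the domain of `b`. -/
def Lc (b : Rl) : Type 1 := let _ := b; Set U

instance [PO b] : MeasurableSpace (Lc b) where
  MeasurableSet' S := (Dec b fun G => S G) ∧ ∀ G : Set U, S (res b G) ↔ S G
  measurableSet_empty := ⟨dec_const False, fun _ => Iff.rfl⟩
  measurableSet_compl _ h := ⟨h.1.not, fun G => not_congr (h.2 G)⟩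
  measurableSet_iUnion S h := by
    refine ⟨?_, fun G => (mem_iUnion.trans (exists_congr fun i => (h i).2 G)).trans mem_iUnion.symm⟩
    have := Dec.ex fun i => (h i).1
    convert this using 2
    exact mem_iUnion

variable {X : Type v} [MeasurableSpace X] {f g : Set U → X}

/-- `f` is a `b`-name that can be read in every extension of `b`. -/
def NB (b : Rl) [PO b] {X : Type v} [MeasurableSpace X] (f : Set U → X) : Prop :=
  Measurable (α := Lc b) f

variable [PO b]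

theorem nb_iff : NB b S ↔ Dec b S ∧ ∀ G, S (res b G) ↔ S G :=
  (measurableSet_setOfPred (α := Lc b)).symm

theorem NB.dec (h : NB b S) : Dec b S := (nb_iff.1 h).1

theorem NB.nm (h : NB b f) : Nm b f := fun _ hs => (h hs).1

theorem Nm.nb (h : Nm b f) : NB b fun G => f (res b G) := fun s hs =>
  ⟨dec_local fun q hq => ⟨q, fun G => f G ∈ s, hq, h hs, .of_flt fun G hG _ => by
    change f (res b G) ∈ s ↔ _
    rw [res_flt hG]⟩, fun G => by
    change f (res b (res b G)) ∈ s ↔ f (res b G) ∈ s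
    rw [res_idem]⟩

theorem NB.ext [PO c] (h : NB b f) (e : Ext b c) : NB c f := fun s hs => by
  obtain ⟨h1, h2⟩ := h hs
  refine ⟨?_, fun G => ?_⟩
  · have := ext_dec e h1
    convert this using 2 with G
    exact (h2 G).symm
  · have := h2 (res c G)
    rw [res_res e] at this
    exact this.symm.trans (h2 G)

theorem NB.comp {Y : Type*} [MeasurableSpace Y] (h : NB b f) {φ : X → Y} (hφ : Measurable φ) :
    NB b fun G => φ (f G) := hφ.comp h

theorem NB.mk {Y : Type*} [MeasurableSpace Y] {g : Set U → Y} (h : NB b f) (h' : NB b g) :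
    NB b fun G => (f G, g G) := Measurable.prodMk h h'

theorem nb_const (x : X) : NB b fun _ => x := measurable_const

theorem nb_pi {ι : Type*} {f : Set U → ι → X} (h : ∀ i, NB b fun G => f G i) : NB b f :=
  measurable_pi_lambda _ h

theorem nb_meet {D : U → Prop} (h : ∀ s, D s → b s s) : NB b fun G => ∃ s ∈ G, D s :=
  nb_iff.2 ⟨dec_meet D, fun _ => ⟨fun ⟨s, h1, h2⟩ => ⟨s, h1.1, h2⟩,
    fun ⟨s, h1, h2⟩ => ⟨s, ⟨h1, h s h2⟩, h2⟩⟩⟩

/-- Forcing goes up along a complete embedding. -/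
theorem Fc.up [PO c] (h : Fc b q S) (hS : NB b S) (e : Ext b c) (hq : b q q) : Fc c q S :=
  (ext_fc e hq h).imp fun G => ((nb_iff.1 hS).2 G).1

/-- Forcing goes down to a reduction. -/
theorem Fc.down [PO c] (h : Fc c r S) (hS : NB b S) (e : Ext b c)
    (hp : ∀ q, b q p → ∃ s, c s q ∧ c s r) : Fc b p S :=
  hS.dec.fc fun q hq h' => by
    obtain ⟨s, s1, s2⟩ := hp q hq
    exact Fc.absurd (PO.l s1) (h.mono s2) ((h'.up (Measurable.not hS) e (PO.l hq)).mono s1)

theorem fc_ext [PO c] (hS : NB b S) (e : Ext b c) (hq : b q q) : Fc c q S ↔ Fc b q S :=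
  ⟨fun h => h.down hS e fun s hs => ⟨s, e.le (PO.l hs), e.le hs⟩, fun h => h.up hS e hq⟩

theorem nb_mix [Nonempty X] {P : X → Set U → Prop}
    (h : Dns b q fun r => ∃ f, NB b f ∧ Fc b r fun G => P (f G) G) :
    ∃ f, NB b f ∧ Fc b q fun G => P (f G) G := by
  obtain ⟨f, h1, h2⟩ := mix_fc (h.imp fun _ ⟨f, h1, h2⟩ => ⟨f, h1.nm, h2⟩)
  exact ⟨_, h1.nb, h2.imp' fun G hG _ e => by rwa [res_flt hG]⟩

/-- Mixing when the property mentions conditions. -/
theorem nb_mix' [Nonempty X] {P : U → (Set U → X) → Prop}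
    (h : Dns b q fun r => ∃ f, NB b f ∧ P r f) : ∃ f, NB b f ∧
      Dns b q fun r => ∃ g, NB b g ∧ (∃ a, b r a ∧ b a q ∧ P a g) ∧ Fc b r fun G => f G = g G := by
  obtain ⟨f, h1, h2⟩ := mix (P := fun r f => NB b f ∧ P r f)
    (h.imp fun _ ⟨f, h1, h2⟩ => ⟨f, h1.nm, h1, h2⟩)
  exact ⟨_, h1.nb, h2.imp fun r ⟨g, _, ⟨a, h3, h4, h5, h6⟩, h7⟩ =>
    ⟨g, h5, ⟨a, h3, h4, h6⟩, h7.imp' fun G hG _ e => by rwa [res_flt hG]⟩⟩

theorem nb_unif {X Y : Type v} [MeasurableSpace X] [StandardBorelSpace X] [MeasurableSpace Y]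
    [StandardBorelSpace Y] [Nonempty Y] {C : X → Y → Prop}
    (hC : Measurable fun p : X × Y => C p.1 p.2) {f : Set U → X} (hf : NB b f)
    (h : Fc b q fun G => ∃ y, C (f G) y) : ∃ g, NB b g ∧ Fc b q fun G => C (f G) (g G) := by
  obtain ⟨g, h1, h2⟩ := unif hC hf.nm h
  exact ⟨_, h1.nb, h2.imp' fun G hG _ e => by rwa [res_flt hG]⟩

theorem nb_local (hl : ∀ G, f (res b G) = f G)
    (h : ∀ q, b q q → ∃ r g, b r q ∧ NB b g ∧ Fc b r fun G => f G = g G) : NB b f := by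
  have := (nm_local fun q hq => let ⟨r, g, h1, h2, h3⟩ := h q hq; ⟨r, g, h1, h2.nm, h3⟩).nb
  simpa only [hl] using this

/-- Every name agrees with a name that is read off from a bounded family of conditions. -/
theorem nice_set (hb : Good b) {s : Od → U} (hs : ∀ p, b p p → ∃ i, s i = p)
    {f : Set U → ℕ → Prop} (hf : NB b f) : ∃ (β : Od) (C : ℕ → Set (Iic β)),
      (∀ n, ∀ i ∈ C n, b (s i) (s i)) ∧ Fc b t0 fun G => ∀ n, f G n ↔ ∃ i ∈ C n, s i ∈ G := by
  choose β hβ using fun n => hb.nice hs fun p => b p p ∧ Fc b p fun G => f G n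
  obtain ⟨γ, hγ⟩ := exists_bd β
  refine ⟨γ, fun n => {i | b (s i) (s i) ∧ Fc b (s i) fun G => f G n}, fun n i hi => hi.1,
    .all fun n => .glue fun r hr => ?_⟩
  obtain ⟨t, t1, t2 | t2⟩ := (hf.comp (measurable_pi_apply n)).dec r (PO.l hr)
  · obtain ⟨i, i1, i2, u, u1, u2⟩ := hβ n t (PO.l t1) ⟨PO.l t1, t2⟩
    exact ⟨u, PO.tr u1 t1, ((t2.mono u1).and (.of_le u2)).imp fun G h =>
      iff_of_true h.1 ⟨⟨i, i1.trans (hγ n).le⟩, i2, h.2⟩⟩
  · refine ⟨t, t1, t2.imp' fun G hG h1 h2 => iff_of_false h2 fun ⟨i, i1, i2⟩ => ?_⟩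
    obtain ⟨u, -, u1, u2⟩ := hG.dir _ h1 _ i2
    exact Fc.absurd (PO.l u1) (i1.2.mono u2) (t2.mono u1)

theorem exists_code (X : Type v) [MeasurableSpace X] [StandardBorelSpace X] [Nonempty X] :
    ∃ (e : X → ℕ → Prop) (d : (ℕ → Prop) → X), Measurable e ∧ Measurable d ∧ ∀ x, d (e x) = x := by
  obtain ⟨e, h1, h2⟩ := MeasurableSpace.measurable_injection_nat_bool_of_countablySeparated X
  have h3 := h1.measurableEmbedding h2
  refine ⟨fun x n => e x n = true, fun y => h3.invFun fun n => decide (y n), by fun_prop,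
    h3.measurable_invFun.comp (measurable_pi_lambda _ fun n =>
      (measurable_from_top (f := fun p : Prop => decide p)).comp (measurable_pi_apply n)),
    fun x => ?_⟩
  simpa using h3.leftInverse_invFun x

/-- The name read off from a code. -/
def cn (s : Od → U) (d : (ℕ → Prop) → X) {β : Od} (C : ℕ → Set (Iic β)) (G : Set U) : X :=
  d fun n => ∃ i ∈ C n, s i ∈ G

theorem nb_cn {s : Od → U} {d : (ℕ → Prop) → X} (hd : Measurable d) {β : Od}
    {C : ℕ → Set (Iic β)} (h : ∀ n, ∀ i ∈ C n, b (s i) (s i)) : NB b (cn s d C) :=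
  NB.comp (φ := d) (nb_pi fun n => by
    have := nb_meet (b := b) (D := fun p => ∃ i ∈ C n, s i = p) fun p ⟨i, h1, h2⟩ => h2 ▸ h n i h1
    convert this using 2 with G
    exact ⟨fun ⟨i, h1, h2⟩ => ⟨_, h2, i, h1, rfl⟩, fun ⟨_, h2, i, h1, e⟩ => ⟨i, h1, e ▸ h2⟩⟩) hd

variable [StandardBorelSpace X] [Nonempty X]

/-- Every name has a small support. -/
theorem small_support (hb : Good b) (hf : NB b f) : ∃ (β : Od) (u : Iic β → U) (g : Set U → X),
    (∀ i, b (u i) (u i)) ∧ (∀ (a : Rl) [PO a], (∀ i, a (u i) (u i)) → NB a g) ∧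
      Fc b t0 fun G => f G = g G := by
  obtain ⟨s, hs⟩ := hb.sz
  obtain ⟨e, d, h1, h2, h3⟩ := exists_code X
  obtain ⟨β, C, c1, c2⟩ := nice_set hb hs (hf.comp h1)
  refine ⟨β, fun i => if b (s i) (s i) then s i else t0, cn s d C, fun i => ?_,
    fun a _ ha => nb_cn h2 fun n i hi => ?_, c2.imp fun G hG => ?_⟩
  · dsimp only
    split_ifs with h
    exacts [h, hb.top0]
  · simpa only [c1 n i hi, if_true] using ha i
  · rw [← h3 (f G), cn]
    exact congrArg d (funext fun n => propext (hG n))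

/-- The continuum hypothesis at a stage: all names are listed along the ordinals. -/
theorem list_names (hb : Good b) (X : Type v) [MeasurableSpace X] [StandardBorelSpace X]
    [Nonempty X] : ∃ E : Od → Set U → X, (∀ i, NB b (E i)) ∧
      ∀ f, NB b f → ∃ i, Fc b t0 fun G => f G = E i G := by
  obtain ⟨s, hs⟩ := hb.sz
  obtain ⟨e, d, h1, h2, h3⟩ := exists_code X
  choose k hk using fun β : Od => exists_surj (ℕ → Set (Iic β)) (by
    simpa using (Cardinal.small_iff_lift_mk_lt_univ.{1, 0}.1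
      (inferInstance : Small.{0} (ℕ → Set (Iic β)))).le)
  obtain ⟨c, hc⟩ := surj_prod
  let F : ∀ β : Od, (ℕ → Set (Iic β)) → Set U → X := fun β C =>
    if ∀ n, ∀ j ∈ C n, b (s j) (s j) then cn s d C else fun _ => Classical.arbitrary X
  refine ⟨fun i => F (c i).1 (k _ (c i).2), fun i => ?_, fun f hf => ?_⟩
  · simp only [F]
    split_ifs with h
    exacts [nb_cn h2 h, nb_const _]
  · obtain ⟨β, C, c1, c2⟩ := nice_set hb hs (hf.comp h1)
    obtain ⟨j, rfl⟩ := hk β C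
    obtain ⟨i, hi⟩ := hc (β, j)
    refine ⟨i, c2.imp fun G hG => ?_⟩
    change _ = (fun z : Od × Od => F z.1 (k _ z.2) G) (c i)
    rw [hi]
    simp only [F]
    rw [if_pos c1, ← h3 (f G), cn]
    exact congrArg d (funext fun n => propext (hG n))

end Pool.Agent.MP_5baa61_gt.JK
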