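import Mathlib.MeasureTheory.Constructions.Polish.Basic
import Mathlib.Order.Zorn

/-! Forcing as a category notion: a condition forces a set of filters when every filter through
the condition that meets countably many given dense sets belongs to the set. -/

namespace Pool.Agent.MP_5baa61_gt.JK

open Set Function
open scoped Classical

universe u v

variable {α : Type u} {b : α → α → Prop}

/-- A preorder on the set of points `p` with `b p p`. -/
class PO (b : α → α → Prop) : Prop where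
  l : ∀ {p q}, b p q → b p p
  r : ∀ {p q}, b p q → b q q
  tr : ∀ {p q r}, b p q → b q r → b p r

structure Flt (b : α → α → Prop) (G : Set α) : Prop where
  dir : ∀ p ∈ G, ∀ q ∈ G, ∃ r ∈ G, b r p ∧ b r q
  up : ∀ p ∈ G, ∀ q, b p q → q ∈ G

/-- Densely many conditions below `q` have the property. -/
def Dns (b : α → α → Prop) (q : α) (D : α → Prop) : Prop := ∀ r, b r q → ∃ s, b s r ∧ D s

/-- The condition `q` forces the property `S` of the generic filter. -/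
def Fc (b : α → α → Prop) (q : α) (S : Set α → Prop) : Prop :=
  ∃ D : ℕ → α → Prop, (∀ n, Dns b q (D n)) ∧
    ∀ G, Flt b G → q ∈ G → (∀ n, ∃ s ∈ G, D n s) → S G

variable [hb : PO b] {p q r : α} {S T : Set α → Prop}

theorem Dns.mono {D : α → Prop} (h : Dns b q D) (hp : b p q) : Dns b p D :=
  fun r hr => h r (PO.tr hr hp)

omit hb in
theorem Dns.imp {D E : α → Prop} (h : Dns b q D) (e : ∀ s, D s → E s) : Dns b q E :=
  fun r hr => let ⟨s, h1, h2⟩ := h r hr; ⟨s, h1, e s h2⟩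

theorem Dns.imp' {D E : α → Prop} (h : Dns b q D) (e : ∀ s, b s q → D s → E s) : Dns b q E :=
  fun r hr => let ⟨s, h1, h2⟩ := h r hr; ⟨s, h1, e s (PO.tr h1 hr) h2⟩

theorem Dns.bind {D E : α → Prop} (h : Dns b q D) (e : ∀ s, b s q → D s → ∃ t, b t s ∧ E t) :
    Dns b q E := fun r hr =>
  let ⟨s, h1, h2⟩ := h r hr; let ⟨t, h3, h4⟩ := e s (PO.tr h1 hr) h2; ⟨t, PO.tr h3 h1, h4⟩

theorem Fc.mono (h : Fc b q S) (hp : b p q) : Fc b p S :=
  let ⟨D, h1, h2⟩ := h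
  ⟨D, fun n => (h1 n).mono hp, fun G hG hq => h2 G hG (hG.up _ hq _ hp)⟩

omit hb in
theorem Fc.imp' (h : Fc b q S) (e : ∀ G, Flt b G → q ∈ G → S G → T G) : Fc b q T :=
  let ⟨D, h1, h2⟩ := h; ⟨D, h1, fun G hG hq hD => e G hG hq (h2 G hG hq hD)⟩

omit hb in
theorem Fc.imp (h : Fc b q S) (e : ∀ G, S G → T G) : Fc b q T := h.imp' fun G _ _ => e G

theorem Fc.of_flt (e : ∀ G, Flt b G → q ∈ G → S G) : Fc b q S :=
  ⟨fun _ _ => True, fun _ r hr => ⟨r, PO.l hr, trivial⟩, fun G hG hq _ => e G hG hq⟩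

theorem Fc.of_all (e : ∀ G, S G) : Fc b q S := .of_flt fun G _ _ => e G

theorem Fc.self : Fc b q fun G => q ∈ G := .of_flt fun _ _ h => h

theorem Fc.of_le (h : b q p) : Fc b q fun G => p ∈ G := .of_flt fun _ hG hq => hG.up _ hq _ h

omit hb in
theorem Fc.meet {D : α → Prop} (h : Dns b q D) : Fc b q fun G => ∃ s ∈ G, D s :=
  ⟨fun _ => D, fun _ => h, fun _ _ _ h => h 0⟩

theorem Fc.all {ι : Sort v} [Countable ι] {S : ι → Set α → Prop} (h : ∀ i, Fc b q (S i)) :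
    Fc b q fun G => ∀ i, S i G := by
  rcases isEmpty_or_nonempty ι with _ | _
  · exact .of_all fun _ i => isEmptyElim i
  obtain ⟨e, he⟩ := exists_surjective_nat ι
  choose D h1 h2 using h
  refine ⟨fun n => D (e n.unpair.1) n.unpair.2, fun n => h1 _ _, fun G hG hq hD i => ?_⟩
  obtain ⟨m, rfl⟩ := he i
  exact h2 _ G hG hq fun n => by simpa using hD (m.pair n)

theorem Fc.and (h : Fc b q S) (h' : Fc b q T) : Fc b q fun G => S G ∧ T G :=
  (Fc.all (S := fun i : Bool => cond i S T) fun i => by cases i; exacts [h', h]).imp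
    fun _ h => ⟨h true, h false⟩

theorem Fc.mp (h : Fc b q fun G => S G → T G) (h' : Fc b q S) : Fc b q T :=
  (h.and h').imp fun _ h => h.1 h.2

/-- A forced property holds for some filter through the condition. -/
theorem Fc.exists (h : Fc b q S) (hq : b q q) : ∃ G, Flt b G ∧ q ∈ G ∧ S G := by
  obtain ⟨D, h1, h2⟩ := h
  have : ∀ n (r : {r // b r q}), ∃ s : {r // b r q}, b s.1 r.1 ∧ D n s.1 := fun n r =>
    let ⟨s, h3, h4⟩ := h1 n r.1 r.2; ⟨⟨s, PO.tr h3 r.2⟩, h3, h4⟩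
  choose F f1 f2 using this
  let s : ℕ → {r // b r q} := fun n => Nat.rec ⟨q, hq⟩ (fun n r => F n r) n
  have hs : ∀ m n, m ≤ n → b (s n).1 (s m).1 := fun m n h => by
    induction h with
    | refl => exact PO.l (s m).2
    | step _ ih => exact PO.tr (f1 _ _) ih
  have hG : Flt b {p | ∃ n, b (s n).1 p} :=
    ⟨fun p ⟨m, hm⟩ r ⟨n, hn⟩ => ⟨(s (max m n)).1, ⟨_, hs _ _ le_rfl⟩,
      PO.tr (hs _ _ (le_max_left _ _)) hm, PO.tr (hs _ _ (le_max_right _ _)) hn⟩,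
      fun p ⟨m, hm⟩ r h => ⟨m, PO.tr hm h⟩⟩
  exact ⟨_, hG, ⟨0, hq⟩, h2 _ hG ⟨0, hq⟩ fun n => ⟨(s (n + 1)).1, ⟨n + 1, hs (n + 1) _ le_rfl⟩, f2 n _⟩⟩

theorem Fc.not_false (hq : b q q) : ¬ Fc b q fun _ => False := fun h =>
  let ⟨_, _, _, h⟩ := h.exists hq; h

theorem Fc.const {P : Prop} (hq : b q q) (h : Fc b q fun _ => P) : P :=
  let ⟨_, _, _, h⟩ := h.exists hq; h

theorem Fc.absurd (hq : b q q) (h : Fc b q S) (h' : Fc b q fun G => ¬ S G) : False :=
  (h.and h').imp (T := fun _ => False) (fun _ h => h.2 h.1) |>.const hq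

/-- A maximal antichain inside a dense set. -/
theorem Dns.antichain {D : α → Prop} (h : Dns b q D) : ∃ A : Set α, (∀ a ∈ A, b a q ∧ D a) ∧
    (∀ a ∈ A, ∀ c ∈ A, ∀ r, b r a → b r c → a = c) ∧ Dns b q fun s => ∃ a ∈ A, b s a := by
  obtain ⟨A, hA⟩ := zorn_subset {A : Set α | (∀ a ∈ A, b a q ∧ D a) ∧
      ∀ a ∈ A, ∀ c ∈ A, ∀ r, b r a → b r c → a = c} fun C hC hc =>
    ⟨⋃₀ C, ⟨fun a ⟨s, h1, h2⟩ => (hC h1).1 a h2, fun a ⟨s, h1, h2⟩ c ⟨t, h3, h4⟩ =>
      (hc.total h1 h3).elim (fun h => (hC h3).2 a (h h2) c h4) fun h => (hC h1).2 a h2 c (h h4)⟩,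
      fun _ => subset_sUnion_of_mem⟩
  refine ⟨A, hA.prop.1, hA.prop.2, fun r hr => ?_⟩
  obtain ⟨s, h1, h2⟩ := h r hr
  by_contra hn
  push Not at hn
  have h3 : ∀ a ∈ A, ∀ t, b t a → b t s → False := fun a ha t h4 h5 => hn t (PO.tr h5 h1) a ha h4
  have := hA.eq_of_subset (t := insert s A) ⟨by
    rintro a (rfl | ha)
    exacts [⟨PO.tr h1 hr, h2⟩, hA.prop.1 a ha], by
    rintro a (rfl | ha) c (rfl | hc) t h4 h5
    exacts [rfl, (h3 c hc t h5 h4).elim, (h3 a ha t h4 h5).elim, hA.prop.2 a ha c hc t h4 h5]⟩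
    (subset_insert _ _)
  exact h3 s (this ▸ mem_insert _ _) s (PO.l h1) (PO.l h1)

theorem Fc.glue (h : Dns b q fun r => Fc b r S) : Fc b q S := by
  obtain ⟨A, h1, h2, h3⟩ := h.antichain
  choose! D d1 d2 using fun a ha => (h1 a ha).2
  refine ⟨fun n s => ∃ a ∈ A, b s a ∧ D a n s, fun n => h3.bind fun s _ ⟨a, ha, hs⟩ => ?_,
    fun G hG _ hD => ?_⟩
  · obtain ⟨t, t1, t2⟩ := d1 a ha n s hs
    exact ⟨t, t1, a, ha, PO.tr t1 hs, t2⟩
  · obtain ⟨s, s1, a, ha, s2, -⟩ := hD 0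
    refine d2 a ha G hG (hG.up _ s1 _ s2) fun n => ?_
    obtain ⟨t, t1, c, hc, t2, t3⟩ := hD n
    obtain ⟨r, -, r1, r2⟩ := hG.dir _ s1 _ t1
    exact ⟨t, t1, h2 a ha c hc r (PO.tr r1 s2) (PO.tr r2 t2) ▸ t3⟩

/-- The property is decided by densely many conditions. -/
def Dec (b : α → α → Prop) (S : Set α → Prop) : Prop :=
  ∀ q, b q q → ∃ r, b r q ∧ (Fc b r S ∨ Fc b r fun G => ¬ S G)

theorem Dec.of_not (h : Dec b S) (hn : ¬ Fc b q S) : ∃ r, b r q ∧ Fc b r fun G => ¬ S G := by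
  by_contra hc
  push Not at hc
  exact hn (.glue fun r hr => let ⟨s, h1, h2⟩ := h r (PO.l hr)
    ⟨s, h1, h2.resolve_right (hc s (PO.tr h1 hr))⟩)

theorem Dec.fc (h : Dec b S) (hn : ∀ r, b r q → ¬ Fc b r fun G => ¬ S G) : Fc b q S := by
  by_contra hc
  obtain ⟨r, h1, h2⟩ := h.of_not hc
  exact hn r h1 h2

omit hb in
theorem Dec.not (h : Dec b S) : Dec b fun G => ¬ S G := fun q hq =>
  let ⟨r, h1, h2⟩ := h q hq; ⟨r, h1, h2.symm.imp_right fun h => h.imp fun _ => not_not.2⟩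

theorem Dec.ex {ι : Sort v} [Countable ι] {S : ι → Set α → Prop} (h : ∀ i, Dec b (S i)) :
    Dec b fun G => ∃ i, S i G := fun q hq => by
  by_cases hc : ∃ i r, b r q ∧ Fc b r (S i)
  · obtain ⟨i, r, h1, h2⟩ := hc
    exact ⟨r, h1, .inl (h2.imp fun _ h => ⟨i, h⟩)⟩
  · push Not at hc
    exact ⟨q, hq, .inr ((Fc.all fun i => (h i).not.fc fun r hr h =>
      hc i r hr (h.imp fun _ => not_not.1)).imp fun _ => not_exists.2)⟩

theorem dec_mem (p : α) : Dec b fun G => p ∈ G := fun q hq => by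
  by_cases h : ∃ r, b r q ∧ b r p
  · obtain ⟨r, h1, h2⟩ := h
    exact ⟨r, h1, .inl (.of_le h2)⟩
  · exact ⟨q, hq, .inr (.of_flt fun G hG h1 h2 =>
      let ⟨r, _, h3, h4⟩ := hG.dir _ h1 _ h2; h ⟨r, h3, h4⟩)⟩

/-- A forced countable disjunction is decided. -/
theorem Fc.ex {ι : Sort v} [Countable ι] {S : ι → Set α → Prop} (h : Fc b q fun G => ∃ i, S i G)
    (d : ∀ i, Dec b (S i)) : Dns b q fun r => ∃ i, Fc b r (S i) := fun r hr => by
  by_contra hc
  push Not at hc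
  exact Fc.absurd (PO.l hr) (h.mono hr) ((Fc.all fun i => (d i).not.fc fun s hs h =>
    hc s hs i (h.imp fun _ => not_not.1)).imp fun _ => not_exists.2)

/-- Filters with the sigma-algebra of decided properties. -/
def Fl (b : α → α → Prop) : Type u := let _ := b; Set α

instance : MeasurableSpace (Fl b) where
  MeasurableSet' S := Dec b fun G => S G
  measurableSet_empty q hq := ⟨q, hq, .inr (.of_all fun _ => id)⟩
  measurableSet_compl _ h := h.not
  measurableSet_iUnion S h := by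
    have := Dec.ex h
    convert this using 2
    exact mem_iUnion

end Pool.Agent.MP_5baa61_gt.JK
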