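import Pool.Agent.MP_5baa61_gt.JK.BrM
import Pool.Agent.MP_5baa61_gt.JC.All

/-! The three parts together. -/

namespace Pool.Agent.MP_5baa61_gt.JK

open Pool.Agent.ZF92 Pool.Agent.MP_b60a07_lc.H92

theorem model : ∃ M : Set ZFSet.{0}, ZFC M ∧ ∀ X ∈ M, ∀ T ∈ M, CompactSp M X T → WeakFC M X T →
    ∀ p ∈ X, FirstCtAt M T p :=
  let ⟨b0, e, g0, lv⟩ := JB.all_lv
  Br.final JC.par (JB.kindP JB.all_keep b0 g0) (JC.main_ok b0 g0 e lv)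

end Pool.Agent.MP_5baa61_gt.JK
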