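import Pool.Agent.MP_5baa61_gt.JK.Ch

/-! Closure properties of names, long limits, two step iterations. -/

namespace Pool.Agent.MP_5baa61_gt.JK

open Set Function Pool.Agent.MP_b60a07_lc.H92
open scoped Classical

theorem NB.ap {b : Rl} [PO b] {ι X : Type*} [MeasurableSpace X] {f : Set U → ι → X} (h : NB b f)
    (i : ι) : NB b fun G => f G i := h.comp (measurable_pi_apply i)

theorem NB.and {b : Rl} [PO b] {S T : Set U → Prop} (h : NB b S) (h' : NB b T) :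
    NB b fun G => S G ∧ T G := Measurable.and h h'

theorem NB.or {b : Rl} [PO b] {S T : Set U → Prop} (h : NB b S) (h' : NB b T) :
    NB b fun G => S G ∨ T G := Measurable.or h h'

theorem NB.imp {b : Rl} [PO b] {S T : Set U → Prop} (h : NB b S) (h' : NB b T) :
    NB b fun G => S G → T G := Measurable.imp h h'

theorem NB.not {b : Rl} [PO b] {S : Set U → Prop} (h : NB b S) : NB b fun G => ¬ S G :=
  Measurable.not h

theorem NB.all {b : Rl} [PO b] {ι : Sort*} [Countable ι] {S : ι → Set U → Prop}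
    (h : ∀ i, NB b (S i)) : NB b fun G => ∀ i, S i G := Measurable.forall h

theorem NB.ex {b : Rl} [PO b] {ι : Sort*} [Countable ι] {S : ι → Set U → Prop}
    (h : ∀ i, NB b (S i)) : NB b fun G => ∃ i, S i G := Measurable.exists h

/-- A name over the limit of a long chain lives at a stage. -/
theorem long_stage {d : Od → Rl} (hb : Good (sup d)) (hm : ∀ i j, i ≤ j → Ext (d i) (d j))
    [PO (sup d)] {X : Type*} [MeasurableSpace X] [StandardBorelSpace X] [Nonempty X]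
    {f : Set U → X} (hf : NB (sup d) f) : ∃ k g, (∀ j [PO (d j)], k ≤ j → NB (d j) g) ∧
      Fc (sup d) t0 fun G => f G = g G := by
  obtain ⟨β, u, g, g1, g2, g3⟩ := small_support hb hf
  choose k hk using g1
  obtain ⟨γ, hγ⟩ := exists_bd k
  exact ⟨γ, g, fun j _ hj => g2 _ fun i => (hm _ _ ((hγ i).le.trans hj)).le (hk i), g3⟩

/-- The two step iteration of `b` with a name for an order on `W`. -/
theorem two_step {W : Type 1} (e : Od → W) (he : Surjective e) (w0 : W) {b : Rl} (hb : Good b)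
    (L : U → W → W → Prop) (Lm : ∀ {p q w v}, b q p → L p w v → L q w v)
    (Ll : ∀ {p w v}, L p w v → L p w w) (Lt : ∀ {p w v u}, L p w v → L p v u → L p w u)
    (L0 : ∀ {p w}, L p w w → L p w w0) (L1 : ∀ p, L p w0 w0)
    (hc : CC fun u v : U × W => b u.1 v.1 ∧ L u.1 u.2 v.2 ∧ L v.1 v.2 v.2) :
    ∃ (c : Rl) (dec : U → U × W), Good c ∧ Ext b c ∧
      (∀ u v, c u v ↔ b (dec u).1 (dec v).1 ∧ L (dec u).1 (dec u).2 (dec v).2 ∧
        L (dec v).1 (dec v).2 (dec v).2) ∧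
      (∀ p, b p p → dec p = (p, w0)) ∧ ∀ v : U × W, b v.1 v.1 → ∃ u, dec u = v := by
  obtain ⟨s, hs⟩ := hb.sz
  obtain ⟨k, hk⟩ := surj_prod
  obtain ⟨t, ht⟩ : ∃ t : Set Od, ∀ i, (s i).1 ≠ t := by
    simpa [Surjective] using cantor_surjective fun i => (s i).1
  let dec : U → U × W := fun u => if u.1 = t then (s (k u.2).1, e (k u.2).2) else (u, w0)
  have d0 : ∀ p, b p p → dec p = (p, w0) := fun p hp => by
    obtain ⟨i, rfl⟩ := hs p hp
    exact if_neg (ht i)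
  have d1 : ∀ v : U × W, b v.1 v.1 → ∃ u, dec u = v := fun v hv => by
    obtain ⟨i, hi⟩ := hs _ hv
    obtain ⟨j, hj⟩ := he v.2
    obtain ⟨l, hl⟩ := hk (i, j)
    exact ⟨(t, l), by simp only [dec, if_true, hl, hi, hj]⟩
  let le2 : U × W → U × W → Prop := fun u v => b u.1 v.1 ∧ L u.1 u.2 v.2 ∧ L v.1 v.2 v.2
  let c : Rl := fun u v => le2 (dec u) (dec v)
  have tr : ∀ {u v w}, le2 u v → le2 v w → le2 u w := fun h h' =>
    ⟨hb.tr h.1 h'.1, Lt h.2.1 (Lm h.1 h'.2.1), h'.2.2⟩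
  have hl : ∀ {u v}, le2 u v → le2 u u := fun h => ⟨hb.l h.1, Ll h.2.1, Ll h.2.1⟩
  have up : ∀ {u q}, le2 u u → b q q → (le2 u (dec q) ↔ b u.1 q) := fun h hq => by
    rw [d0 _ hq]
    exact ⟨fun h => h.1, fun h' => ⟨h', L0 h.2.1, L1 _⟩⟩
  have le : ∀ {p q}, b p q → c p q := fun h => by
    simp only [c, d0 _ (hb.l h), d0 _ (hb.r h)]
    exact ⟨h, L1 _, L1 _⟩
  refine ⟨c, dec, ⟨hl, fun h => ⟨hb.r h.1, h.2.2, h.2.2⟩, tr, le hb.top0,
      fun h => (up h hb.top0).2 (hb.top h.1),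
      ⟨fun i => if (k i).1 = 0 then (t, (k i).2) else s (k i).2, fun p hp => ?_⟩, fun f hf => ?_⟩,
    ⟨le, fun hp hq h => by simpa only [d0 _ hp] using (up (hl h) hq).1 h, fun r hr =>
      ⟨_, hr.1, (up hr hr.1).2 hr.1, fun q hq h => (up hr hq).1 h, fun q hq => ?_⟩⟩,
    fun _ _ => Iff.rfl, d0, d1⟩
  · by_cases h : p.1 = t
    · obtain ⟨l, hl⟩ := hk (0, p.2)
      exact ⟨l, by simp [hl, ← h]⟩
    · obtain ⟨i, hi⟩ := hs p (by simpa only [dec, if_neg h] using hp.1)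
      obtain ⟨l, hl⟩ := hk (1, i)
      exact ⟨l, by simp [hl, hi]⟩
  · obtain ⟨i, j, h1, r, h2, h3⟩ := hc (fun i => dec (f i)) hf
    obtain ⟨r, rfl⟩ := d1 r (hb.l h2.1)
    exact ⟨i, j, h1, r, h2, h3⟩
  · obtain ⟨u, hu⟩ := d1 (q, (dec r).2) (hb.l hq)
    have h1 : c u r := by
      simp only [c, hu]
      exact ⟨hq, Lm hq hr.2.1, hr.2.1⟩
    exact ⟨u, (up (hl h1) (hb.l hq)).2 (by rw [hu]; exact hb.l hq), h1⟩

end Pool.Agent.MP_5baa61_gt.JK
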