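import Pool.Agent.MP_5baa61_gt.JK.Fc

/-! Names of points of measurable spaces are measurable functions of the generic filter. -/

namespace Pool.Agent.MP_5baa61_gt.JK

open Set Function MeasureTheory
open scoped Classical

universe u v

variable {α : Type u} {b : α → α → Prop} [hb : PO b] {p q r : α} {S T : Set α → Prop}

/-- `f` is a name for a point of `X`. -/
def Nm (b : α → α → Prop) [PO b] {X : Type v} [MeasurableSpace X] (f : Set α → X) : Prop :=
  Measurable (α := Fl b) f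

theorem dec_iff : Dec b S ↔ Nm b S := measurableSet_setOfPred (α := Fl b)

theorem Dec.and (h : Dec b S) (h' : Dec b T) : Dec b fun G => S G ∧ T G :=
  dec_iff.2 ((dec_iff.1 h).and (dec_iff.1 h'))

theorem Dec.or (h : Dec b S) (h' : Dec b T) : Dec b fun G => S G ∨ T G :=
  dec_iff.2 ((dec_iff.1 h).or (dec_iff.1 h'))

theorem Dec.all {ι : Sort v} [Countable ι] {S : ι → Set α → Prop} (h : ∀ i, Dec b (S i)) :
    Dec b fun G => ∀ i, S i G := dec_iff.2 (Measurable.forall fun i => dec_iff.1 (h i))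

theorem dec_const (P : Prop) : Dec b fun _ => P := dec_iff.2 measurable_const

/-- A property that agrees locally with decided properties is decided. -/
theorem dec_local (h : ∀ q, b q q → ∃ r T, b r q ∧ Dec b T ∧ Fc b r fun G => S G ↔ T G) :
    Dec b S := fun q hq => by
  obtain ⟨r, T, h1, h2, h3⟩ := h q hq
  obtain ⟨s, h4, h5⟩ := h2 r (PO.l h1)
  exact ⟨s, PO.tr h4 h1, h5.imp (fun h => ((h3.mono h4).and h).imp fun _ h => h.1.2 h.2)
    fun h => ((h3.mono h4).and h).imp fun _ ⟨g1, g2⟩ e => g2 (g1.1 e)⟩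

theorem dec_meet (D : α → Prop) : Dec b fun G => ∃ s ∈ G, D s := fun q hq => by
  by_cases h : ∃ r s, b r q ∧ b r s ∧ D s
  · obtain ⟨r, s, h1, h2, h3⟩ := h
    exact ⟨r, h1, .inl ((Fc.of_le h2).imp fun _ h => ⟨s, h, h3⟩)⟩
  · exact ⟨q, hq, .inr (.of_flt fun G hG h1 ⟨s, h2, h3⟩ =>
      let ⟨r, _, h4, h5⟩ := hG.dir _ h1 _ h2; h ⟨r, s, h4, h5, h3⟩)⟩

variable {X : Type v} [MeasurableSpace X]

theorem Nm.dec {f : Set α → X} (hf : Nm b f) {P : X → Prop} (hP : Measurable P) :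
    Dec b fun G => P (f G) := dec_iff.2 (hP.comp hf)

theorem nm_local {f : Set α → X}
    (h : ∀ q, b q q → ∃ r g, b r q ∧ Nm b g ∧ Fc b r fun G => f G = g G) : Nm b f :=
  fun s hs => dec_local (S := fun G => f G ∈ s) fun q hq =>
    let ⟨r, g, h1, h2, h3⟩ := h q hq
    ⟨r, fun G => g G ∈ s, h1, h2 hs, h3.imp fun _ h => by rw [h]⟩

/-- A name with values in a countable space is decided by densely many conditions. -/
theorem Nm.val [Countable X] [MeasurableSingletonClass X] {f : Set α → X} (hf : Nm b f) (q : α) :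
    Dns b q fun r => ∃ x, Fc b r fun G => f G = x :=
  Fc.ex (.of_all fun _ => ⟨_, rfl⟩) fun x => hf (measurableSet_singleton x)

/-- Mixing of names (the maximum principle). -/
theorem mix [Nonempty X] {P : α → (Set α → X) → Prop}
    (h : Dns b q fun r => ∃ f, Nm b f ∧ P r f) : ∃ f, Nm b f ∧
      Dns b q fun r => ∃ g, Nm b g ∧ (∃ a, b r a ∧ b a q ∧ P a g) ∧ Fc b r fun G => f G = g G := by
  obtain ⟨A, h1, h2, h3⟩ := h.antichain
  choose! F f1 f2 using fun a ha => (h1 a ha).2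
  let f : Set α → X := fun G => if h : ∃ a ∈ A, a ∈ G then F h.choose G else Classical.arbitrary X
  have key : ∀ a ∈ A, ∀ r, b r a → Fc b r fun G => f G = F a G := fun a ha r hr =>
    .of_flt fun G hG h4 => by
      have h5 : ∃ a ∈ A, a ∈ G := ⟨a, ha, hG.up _ h4 _ hr⟩
      obtain ⟨s, -, s1, s2⟩ := hG.dir _ h5.choose_spec.2 _ h4
      simp only [f, dif_pos h5, h2 _ h5.choose_spec.1 a ha s s1 (PO.tr s2 hr)]
  refine ⟨f, nm_local fun p hp => ?_, h3.imp fun r ⟨a, ha, hr⟩ =>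
    ⟨F a, f1 a ha, ⟨a, hr, (h1 a ha).1, f2 a ha⟩, key a ha r hr⟩⟩
  by_cases hc : ∃ a ∈ A, ∃ r, b r p ∧ b r a
  · obtain ⟨a, ha, r, r1, r2⟩ := hc
    exact ⟨r, F a, r1, f1 a ha, key a ha r r2⟩
  · refine ⟨p, fun _ => Classical.arbitrary X, hp, measurable_const, .of_flt fun G hG h4 =>
      dif_neg fun ⟨a, ha, h5⟩ => ?_⟩
    obtain ⟨s, -, s1, s2⟩ := hG.dir _ h4 _ h5
    exact hc ⟨a, ha, s, s1, s2⟩

/-- The usual form of the maximum principle. -/
theorem mix_fc [Nonempty X] {P : X → Set α → Prop}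
    (h : Dns b q fun r => ∃ f, Nm b f ∧ Fc b r fun G => P (f G) G) :
    ∃ f, Nm b f ∧ Fc b q fun G => P (f G) G := by
  obtain ⟨f, h1, h2⟩ := mix h
  exact ⟨f, h1, .glue (h2.imp fun r ⟨g, _, ⟨a, h3, _, h4⟩, h5⟩ =>
    ((h4.mono h3).and h5).imp fun _ h => h.2 ▸ h.1)⟩

/-- Forced existence in an analytic relation has a name as a witness. -/
theorem unif_cont {X : Type v} [TopologicalSpace X] [MeasurableSpace X] [BorelSpace X] [T3Space X]
    {φ : (ℕ → ℕ) → X} (hφ : Continuous φ) {f : Set α → X} (hf : Nm b f)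
    (h : Fc b q fun G => ∃ z, φ z = f G) : ∃ z, Nm b z ∧ Fc b q fun G => φ (z G) = f G := by
  let A : List ℕ → Set X := fun s => φ '' {y | PiNat.res y s.length = s}
  let Lv : List ℕ → α → Prop := fun s r => b r r ∧ ∀ r', b r' r → ¬ Fc b r' fun G => f G ∉ A s
  let L : List ℕ → Set α → Prop := fun s G => ∃ r ∈ G, Lv s r
  have dL : ∀ s, Dec b (L s) := fun s => dec_meet _
  have imp : ∀ s (T : Set α → Prop), (∀ r, Lv s r → Fc b r T) → Fc b q fun G => L s G → T G :=
    fun s T hT => .glue fun r hr => by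
      by_cases hc : ∃ t a, b t r ∧ b t a ∧ Lv s a
      · obtain ⟨t, a, h1, h2, h3⟩ := hc
        exact ⟨t, h1, ((hT a h3).mono h2).imp fun _ h _ => h⟩
      · exact ⟨r, PO.l hr, .of_flt fun G hG h1 ⟨a, h2, h3⟩ =>
          let ⟨t, _, h4, h5⟩ := hG.dir _ h1 _ h2; (hc ⟨t, a, h4, h5, h3⟩).elim⟩
  have h1 : Fc b q fun G => ∀ s, L s G → ∃ k, L (k :: s) G := .all fun s => imp s _ fun r hr =>
    (Fc.meet (D := fun t => ∃ k, Lv (k :: s) t) fun t ht => by
      by_contra hc
      simp only [Lv, not_exists, not_and, not_forall, not_not] at hc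
      refine hr.2 t ht ((Fc.all fun k => Fc.glue fun a ha => ?_).imp
        (S := fun G => ∀ k, f G ∉ A (k :: s)) ?_)
      · obtain ⟨c, c1, c2⟩ := hc a ha k (PO.l ha)
        exact ⟨c, c1, c2⟩
      · rintro G hG ⟨y, y1, y2⟩
        exact hG (y s.length) ⟨y, by simpa using y1, y2⟩).imp
      fun G ⟨t, h1, k, h2⟩ => ⟨k, t, h1, h2⟩
  have h2 : Fc b q fun G => ∀ s, L s G → f G ∈ closure (A s) := .all fun s => imp s _ fun r hr =>
    Dec.fc (hf isClosed_closure.measurableSet) fun t ht h =>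
      hr.2 t ht (h.imp fun _ h e => h (subset_closure e))
  have h3 : Fc b q (L []) := Fc.meet fun r hr => ⟨r, PO.l hr, PO.l hr, fun t ht e =>
    Fc.absurd (PO.l ht) (h.mono (PO.tr ht hr)) (e.imp fun _ e ⟨z, hz⟩ => e ⟨z, rfl, hz⟩)⟩
  let t : Set α → ℕ → List ℕ := fun G n =>
    Nat.rec [] (fun _ s => sInf {k | L (k :: s) G} :: s) n
  have ts : ∀ G n, t G (n + 1) = sInf {k | L (k :: t G n) G} :: t G n := fun _ _ => rfl
  have dI : ∀ s k, Dec b fun G => sInf {k | L (k :: s) G} = k := fun s k => by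
    have := ((dL (k :: s)).and (Dec.all fun j : Iio k => (dL (j.1 :: s)).not)).or
      ((dec_const (k = 0)).and (Dec.all fun j : ℕ => (dL (j :: s)).not))
    convert this using 2 with G
    by_cases hc : {k | L (k :: s) G}.Nonempty
    · refine ⟨fun e => .inl ⟨e ▸ Nat.sInf_mem hc, fun j hj =>
        Nat.notMem_of_lt_sInf (s := {k | L (k :: s) G}) (j.2.trans_eq e.symm) hj⟩, ?_⟩
      rintro (⟨e1, e2⟩ | ⟨-, e⟩)
      · exact le_antisymm (Nat.sInf_le e1) (not_lt.1 fun e => e2 ⟨_, e⟩ (Nat.sInf_mem hc))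
      · exact absurd hc.choose_spec (e _)
    · rw [not_nonempty_iff_eq_empty] at hc
      have hc' : ∀ j, ¬ L (j :: s) G := fun j hj => (hc ▸ hj : j ∈ (∅ : Set ℕ))
      rw [hc, Nat.sInf_empty]
      exact ⟨fun e => .inr ⟨e.symm, hc'⟩, fun e => e.elim (fun e => (hc' _ e.1).elim) (·.1.symm)⟩
  have dt : ∀ n s, Dec b fun G => t G n = s := fun n => by
    induction n with
    | zero => exact fun s => dec_const ([] = s)
    | succ n ih =>
      intro s
      have := Dec.ex fun z : ℕ × List ℕ => (dec_const (z.1 :: z.2 = s)).and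
        ((ih z.2).and (dI z.2 z.1))
      convert this using 2 with G
      rw [ts]
      exact ⟨fun e => ⟨(_, _), e, rfl, rfl⟩, fun ⟨z, e1, e2, e3⟩ => by rw [e2, e3, e1]⟩
  let z : Set α → ℕ → ℕ := fun G n => sInf {k | L (k :: t G n) G}
  have zr : ∀ G n, PiNat.res (z G) n = t G n := fun G n => by
    induction n with
    | zero => rfl
    | succ n ih => rw [PiNat.res_succ, ih, ts]
  refine ⟨z, measurable_pi_lambda _ fun n => measurable_to_countable' fun k => ?_,
    (h1.and (h2.and h3)).imp fun G ⟨g1, g2, g3⟩ => ?_⟩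
  · have := Dec.ex fun s : List ℕ => (dt n s).and (dI s k)
    convert this using 1
    refine iff_of_eq (congrArg _ (funext fun G => propext ?_))
    exact ⟨fun e => ⟨_, rfl, e⟩, fun ⟨s, e1, e2⟩ => by subst e1; exact e2⟩
  · have g4 : ∀ n, L (t G n) G := fun n => by
      induction n with
      | zero => exact g3
      | succ n ih => exact Nat.sInf_mem (g1 _ ih)
    by_contra hne
    obtain ⟨C, hC, c1, c2⟩ := exists_mem_nhds_isClosed_subset
      ((isOpen_ne (x := f G)).mem_nhds hne)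
    obtain ⟨v, ⟨y, n, rfl⟩, v1, v2⟩ := (PiNat.isTopologicalBasis_cylinders fun _ => ℕ).mem_nhds_iff.1
      (hφ.continuousAt hC)
    refine c2 (closure_minimal ?_ c1 (g2 _ (g4 n))) rfl
    rintro _ ⟨w, hw, rfl⟩
    refine v2 ?_
    rw [PiNat.cylinder_eq_res] at v1 ⊢
    rw [← zr, PiNat.res_length] at hw
    exact hw.trans v1

/-- Forced existence in a Borel relation has a name as a witness. -/
theorem unif {X Y : Type v} [MeasurableSpace X] [StandardBorelSpace X] [MeasurableSpace Y]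
    [StandardBorelSpace Y] [Nonempty Y] {C : X → Y → Prop}
    (hC : Measurable fun p : X × Y => C p.1 p.2) {f : Set α → X} (hf : Nm b f)
    (h : Fc b q fun G => ∃ y, C (f G) y) : ∃ g, Nm b g ∧ Fc b q fun G => C (f G) (g G) := by
  let _ := upgradeStandardBorel X
  let _ := upgradeStandardBorel Y
  have hA := (measurableSet_setOfPred.2 hC).analyticSet
  rw [AnalyticSet] at hA
  rcases hA with hA | ⟨φ, h1, h2⟩
  · exact ⟨fun _ => Classical.arbitrary Y, measurable_const, h.imp fun G ⟨y, hy⟩ =>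
      absurd (show (f G, y) ∈ ({p | C p.1 p.2} : Set (X × Y)) from hy) (by rw [hA]; exact id)⟩
  · obtain ⟨z, z1, z2⟩ := unif_cont h1.fst hf (h.imp fun G ⟨y, hy⟩ => by
      obtain ⟨z, hz⟩ : (f G, y) ∈ range φ := h2 ▸ hy
      exact ⟨z, by rw [hz]⟩)
    refine ⟨fun G => (φ (z G)).2, h1.snd.measurable.comp z1, z2.imp fun G hG => ?_⟩
    have : φ (z G) ∈ ({p | C p.1 p.2} : Set (X × Y)) := h2 ▸ mem_range_self _
    exact hG ▸ this

end Pool.Agent.MP_5baa61_gt.JK
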