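import Pool.Agent.MP_b60a07_lc.h92.Defs

/-! Weak first countability and first countability, relativised to a transitive model `M`. -/

namespace Pool.Agent.MP_5baa61_gt.JK

open ZFSet Pool.Agent.ZF92 Pool.Agent.MP_b60a07_lc.H92

/-- In `M`, the space `(X, T)` is weakly first countable. -/
def WeakFC (M : Set ZFSet.{0}) (X T : ZFSet.{0}) : Prop :=
  ∃ V : ZFSet.{0} → ℕ → ZFSet.{0},
    (∃ v ∈ M, ∀ z, z ∈ v ↔ ∃ x ∈ X, ∃ n, z = pair (pair x (nat n)) (V x n)) ∧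
    (∀ x ∈ X, ∀ n, x ∈ V x n ∧ V x (n + 1) ⊆ V x n ∧ V x n ⊆ X) ∧
    ∀ O ∈ M, O ⊆ X → (O ∈ T ↔ ∀ x ∈ O, ∃ n, V x n ⊆ O)

/-- `b` is a sequence in `M` of open sets that contain `x`. -/
def OpenSeq (M : Set ZFSet.{0}) (T x : ZFSet.{0}) (b : ℕ → ZFSet.{0}) : Prop :=
  SeqIn M b ∧ ∀ n, b n ∈ T ∧ x ∈ b n

/-- In `M`, the point `x` has a countable neighbourhood base. -/
def FirstCtAt (M : Set ZFSet.{0}) (T x : ZFSet.{0}) : Prop :=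
  ∃ b, OpenSeq M T x b ∧ ∀ U ∈ T, x ∈ U → ∃ n, b n ⊆ U

end Pool.Agent.MP_5baa61_gt.JK
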