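import Pool.Agent.MP_5baa61_gt.JK.TRed

/-! The combinatorial system of traces that a bad point produces inside the model. -/

namespace Pool.Agent.MP_5baa61_gt.JK

open Function Set Pool.Agent.ZF92 Pool.Agent.MP_b60a07_lc.H92
open scoped Classical

set_option linter.unusedSectionVars false

universe u v w

variable {M : Set ZFSet.{0}} [hM : Fact (ZFC M)]

/-- An ideal of sets of `M` that contains the finite sets. -/
structure Idl (J : PS M ℕ → Prop) : Prop where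
  df : DfF M J
  union : ∀ A B C, J A → J B → (∀ i ∈ C, i ∈ A ∨ i ∈ B) → J C
  fin : ∀ A : PS M ℕ, (A : Set ℕ).Finite → J A

theorem Idl.sub {J : PS M ℕ → Prop} (h : Idl J) {A B : PS M ℕ} (hB : J B) (e : ∀ i ∈ A, i ∈ B) :
    J A := h.union B B A hB hB fun i hi => .inl (e i hi)

theorem Idl.cover {J : PS M ℕ → Prop} (h : Idl J) {ι : Type u} {A : ι → PS M ℕ} (s : Finset ι)
    (hA : ∀ z ∈ s, J (A z)) {C : PS M ℕ} (e : ∀ i ∈ C, ∃ z ∈ s, i ∈ A z) : J C := by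
  induction s using Finset.induction_on generalizing C with
  | empty => exact h.fin _ (finite_empty.subset fun i hi => by simpa using e i hi)
  | insert a s _ ih =>
    have e1 : ∀ i, i ∈ PS.of M (fun i => i ∈ C ∧ i ∉ A a) ↔ i ∈ C ∧ i ∉ A a :=
      fun i => PS.mem_of (by fun_prop)
    refine h.union _ _ _ (hA a (by simp)) (ih (fun z hz => hA z (by simp [hz]))
      (C := PS.of M fun i => i ∈ C ∧ i ∉ A a) fun i hi => ?_) fun i hi => by rw [e1]; tauto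
    obtain ⟨z, h1, h2⟩ := e i ((e1 i).1 hi).1
    exact ⟨z, (Finset.mem_insert.1 h1).resolve_left fun e => ((e1 i).1 hi).2 (e ▸ h2), h2⟩

/-- The system of traces. -/
structure JS {Y : Type w} [Srt M Y] (N : Y → ℕ → PS M ℕ) (I : PS M ℕ → Prop)
    (hi : Y → ℕ → Prop) : Prop where
  dN : DfF M fun z : Y × ℕ => N z.1 z.2
  dhi : DfF M fun z : Y × ℕ => hi z.1 z.2
  idl : Idl I
  proper : ∀ A, I A → ∃ i, i ∉ A
  hi_anti : ∀ y n, hi y (n + 1) → hi y n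
  low : ∀ y, ∃ n, ¬ hi y n
  N_anti : ∀ y j, ∀ i ∈ N y (j + 1), i ∈ N y j
  N0 : ∀ y, I (N y 0)
  T1 : ∀ A, I A → ∃ n, ∀ y, hi y n → ∃ j, ∀ i ∈ N y j, i ∉ A
  T2 : ∀ J, Idl J → ∀ n, (∀ y, hi y n → ∃ j, J (N y j)) →
    ∃ R, I R ∧ ∀ A, I A → ∀ L : PS M ℕ, (∀ i ∈ L, i ∈ A ∧ i ∉ R) → J L
  C1 : ∀ A : PS M ℕ, (∀ m, ∃ i, m ≤ i ∧ i ∈ A) → ∃ y, ∀ j m, ∃ i, m ≤ i ∧ i ∈ A ∧ i ∈ N y j
  C2 : ∀ y : ℕ → Y, DfF M y → ∀ n, (∀ k, ¬ hi (y k) n) →
    ∃ z, ∀ j m, ∃ k, m ≤ k ∧ ∃ l, ∀ i ∈ N (y k) l, i ∈ N z j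
  Cp : ∀ A, I A → ∃ B, I B ∧ ∀ z, (∀ j, ∃ i ∈ N z j, i ∈ A) → ∃ j, ∀ i ∈ N z j, i ∈ B

variable {K : Type w} [Srt M K] [Sm M K] [TopologicalSpace K] [DTop M K] [T2Space K]
variable {V : K → ℕ → PS M K} {p : K}

/-- A decreasing open base at `y` whose first member is far from `p`. -/
def Bs (p y : K) (O : Fn M ℕ (PS M K)) : Prop :=
  (∀ j, IsOpen (O.ap j : Set K) ∧ y ∈ O.ap j) ∧ (∀ j x, x ∈ O.ap (j + 1) → x ∈ O.ap j) ∧
    p ∉ closure (O.ap 0 : Set K) ∧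
      ∀ U : PS M K, IsOpen (U : Set K) → y ∈ U → ∃ j, ∀ x, x ∈ O.ap j → x ∈ U

theorem exists_bs (hK : MCpt M K) {y : K} (h : FC M y) (e : y ≠ p) :
    ∃ O : Fn M ℕ (PS M K), Bs p y O := by
  obtain ⟨b, db, h1, h2⟩ := h
  obtain ⟨U, u1, u2, u3⟩ := exists_ps_nhds (M := M) (isOpen_compl_singleton (x := p)) e
  have e1 : ∀ n x, x ∈ PS.of M (fun x => x ∈ b n ∧ x ∈ U) ↔ x ∈ b n ∧ x ∈ U :=
    fun n x => PS.mem_of (by fun_prop)
  obtain ⟨W, dW, h3, h4⟩ := shrink hK (x := y) (b := fun n => PS.of M fun x => x ∈ b n ∧ x ∈ U)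
    (by fun_prop) fun n => ⟨by
      convert (h1 n).1.inter u1 using 1
      ext x; exact e1 n x, (e1 n y).2 ⟨(h1 n).2, u2⟩⟩
  refine ⟨⟨fun j => W (j + 1), by fun_prop⟩, fun j => h3 _,
    fun j x hx => (h4 _ x (subset_closure hx)).1,
    fun hp => u3 p ((e1 0 p).1 (h4 0 p hp).2).2 rfl, fun A hA hy => ?_⟩
  obtain ⟨n, hn⟩ := h2 A hA hy
  exact ⟨n, fun x hx => hn x ((e1 n x).1 (h4 n x (subset_closure hx)).2).1⟩

theorem Bs.nhds {y : K} {O : Fn M ℕ (PS M K)} (h : Bs p y O) {o : Set K} (ho : IsOpen o)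
    (hy : y ∈ o) : ∃ j, ∀ x, x ∈ O.ap j → x ∈ o := by
  obtain ⟨U, h1, h2, h3⟩ := exists_ps_nhds (M := M) ho hy
  exact (h.2.2.2 U h1 h2).imp fun j hj x hx => h3 x (hj x hx)

/-- An open set around a closed set that misses `p`. -/
theorem around (hK : MCpt M K) {Z : Set K} (h : p ∉ closure Z) : ∃ O : K → Prop, DfF M O ∧
    IsOpen {x | O x} ∧ p ∉ closure {x | O x} ∧ ∀ x ∈ closure Z, O x := by
  obtain ⟨W, h1, h2, h3⟩ := reg hK isClosed_closure.isOpen_compl h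
  refine ⟨fun x => x ∉ closure (W : Set K), by fun_prop, isClosed_closure.isOpen_compl,
    fun hp => ?_, fun x hx hw => h3 x hw hx⟩
  obtain ⟨x, h4, h5⟩ := mem_closure_iff.1 hp _ h1 h2
  exact h5 (subset_closure h4)

theorem exists_js (hK : MCpt M K) (hV : WB M V) {b : ℕ → PS M K} (db : DfF M b)
    (hb : ∀ n, IsOpen (b n : Set K) ∧ p ∈ b n) (hg : ∀ y, (∀ n, y ∈ b n) → y = p ∨ FC M y)
    (hp : ¬ FC M p) : ∃ (N : K → ℕ → PS M ℕ) (I : PS M ℕ → Prop) (hi : K → ℕ → Prop),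
      JS N I hi := by
  have dV := hV.df
  obtain ⟨d, n0, dd, d1, d2, d3⟩ := exists_seq hK hV db hb hp
  let Y : K → Prop := fun y => y ∈ closure {x | ∃ i, d i = x} ∧ y ≠ p
  have dY : DfF M Y := by simp only [Y]; fun_prop
  have : Nonempty (Fn M ℕ (PS M K)) := ⟨⟨b, db⟩⟩
  obtain ⟨O, dO, hO⟩ := exists_choice' (M := M) (R := fun y (O : Fn M ℕ (PS M K)) => Bs p y O)
    (by simp only [Bs, all_iff, imp_iff]; fun_prop)
  have hB : ∀ y, Y y → Bs p y (O y) := fun y hy =>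
    let ⟨O', h⟩ := exists_bs hK ((hg y (d3 y hy.1)).resolve_left hy.2) hy.2; hO y O' h
  let N : K → ℕ → PS M ℕ := fun y j => PS.of M fun i => Y y ∧ d i ∈ (O y).ap j
  have eN : ∀ y j i, i ∈ N y j ↔ Y y ∧ d i ∈ (O y).ap j := fun y j i => PS.mem_of (by fun_prop)
  have dN : DfF M fun z : K × ℕ => N z.1 z.2 := by simp only [N]; fun_prop
  let im : PS M ℕ → Set K := fun A => {x | ∃ i, i ∈ A ∧ d i = x}
  have im1 : ∀ A, closure (im A) ⊆ closure {x | ∃ i, d i = x} := fun A =>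
    closure_mono fun _ ⟨i, _, h⟩ => ⟨i, h⟩
  have pre : ∀ P : K → Prop, DfF M P → ∃ R : PS M ℕ, (∀ i, i ∈ R ↔ P (d i)) ∧
      closure (im R) ⊆ closure {x | P x} := fun P dP =>
    have e : ∀ i, i ∈ PS.of M (fun i => P (d i)) ↔ P (d i) := fun i => PS.mem_of (by fun_prop)
    ⟨_, e, closure_mono (by rintro _ ⟨i, h, rfl⟩; exact (e i).1 h)⟩
  refine ⟨N, fun A => p ∉ closure (im A), fun y n => Y y ∧ y ∈ V p n, dN, by fun_prop,
    ⟨by simp only [im]; fun_prop, fun A B C hA hB e h => ?_, fun A hA h => ?_⟩, fun A hA => ?_,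
    fun y n h => ⟨h.1, hV.anti _ _ _ h.2⟩, fun y => ?_,
    fun y j i hi => (eN _ _ _).2 (((eN _ _ _).1 hi).imp_right ((hB y ((eN _ _ _).1 hi).1).2.1 _ _)),
    fun y h => ?_, fun A hA => ?_, fun J hJ n hn => ?_, fun A hA => ?_, fun y dy n hn => ?_,
    fun A hA => ?_⟩
  · refine ((closure_union (s := im A) (t := im B)).subset (closure_mono ?_ h)).elim hA hB
    rintro _ ⟨i, hi, rfl⟩
    exact (e i hi).imp (fun h => ⟨i, h, rfl⟩) fun h => ⟨i, h, rfl⟩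
  · obtain ⟨i, -, hi⟩ := (hA.image d).isClosed.closure_subset h
    exact d1 i (hi ▸ hV.self p n0)
  · by_contra hn
    push Not at hn
    refine hA (closure_mono ?_ d2)
    exact fun _ ⟨i, h⟩ => ⟨i, hn i, h⟩
  · by_cases e : y = p
    · exact ⟨0, fun h => h.1.2 e⟩
    · exact (exists_rk hK hV e).imp fun n hn h => hn.not_mem h.2
  · by_cases hy : Y y
    · refine (hB y hy).2.2.1 (closure_mono ?_ h)
      rintro _ ⟨i, hi, rfl⟩
      exact ((eN _ _ _).1 hi).2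
    · obtain ⟨_, -, i, hi, -⟩ := mem_closure_iff.1 h _ isOpen_univ trivial
      exact hy ((eN _ _ _).1 hi).1
  · obtain ⟨n, hn⟩ := hV.nhds isClosed_closure.isOpen_compl hA
    refine ⟨n, fun y hy => ((hB y hy.1).nhds isClosed_closure.isOpen_compl (hn y hy.2)).imp
      fun j hj i hi h => hj _ ((eN _ _ _).1 hi).2 (subset_closure ⟨i, h, rfl⟩)⟩
  · have dJ := hJ.df
    have hz : ∀ y ∈ closure {y | Y y ∧ ∀ j, ¬ J (N y j)}, (Y y ∧ ∀ j, ¬ J (N y j)) ∨ y = p :=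
      fun y hy => or_iff_not_imp_right.2 fun e => by
        have h1 : Y y := ⟨closure_minimal (fun _ h => h.1.1) isClosed_closure hy, e⟩
        refine ⟨h1, fun j hj => ?_⟩
        obtain ⟨z, h2, h3, h4⟩ := mem_closure_iff.1 hy _ ((hB y h1).1 j).1 ((hB y h1).1 j).2
        obtain ⟨l, hl⟩ := (hB z h3).nhds ((hB y h1).1 j).1 h2
        exact h4 l (hJ.sub hj fun i hi => (eN _ _ _).2 ⟨h1, hl _ ((eN _ _ _).1 hi).2⟩)
    obtain ⟨P, dP, p1, p2, p3⟩ := around hK (hV.closed (A := fun y => Y y ∧ ∀ j, ¬ J (N y j))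
      (by simp only [all_iff]; fun_prop) (n := n)
      (fun y hy h => let ⟨j, hj⟩ := hn y ⟨h.1, hy⟩; h.2 j hj) hz)
    obtain ⟨R, r1, r2⟩ := pre P dP
    refine ⟨R, fun h => p2 (r2 h), fun A hA L hL => ?_⟩
    obtain ⟨s, hs⟩ := hK.subcover (F := fun x => x ∈ closure (im L)) (by simp only [im]; fun_prop)
      isClosed_closure (U := fun (z : K × ℕ) x => (Y z.1 ∧ J (N z.1 z.2)) ∧ x ∈ (O z.1).ap z.2)
      (by fun_prop) (fun z => open_and fun h => ((hB _ h.1).1 _).1) fun y hy => by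
      have h1 : Y y := ⟨im1 L hy, fun e => hA (closure_mono
        (show im L ⊆ im A from fun _ ⟨i, h, e⟩ => ⟨i, (hL i h).1, e⟩) (e ▸ hy))⟩
      by_contra hc
      obtain ⟨_, h2, i, h3, rfl⟩ := mem_closure_iff.1 hy _ p1 (p3 y (subset_closure
        ⟨h1, fun j hj => hc ⟨(y, j), ⟨h1, hj⟩, ((hB y h1).1 j).2⟩⟩))
      exact (hL i h3).2 ((r1 i).2 h2)
    refine hJ.cover (A := fun z : K × ℕ => N z.1 z.2) (s.filter fun z => J (N z.1 z.2))
      (fun z hz => (Finset.mem_filter.1 hz).2) fun i hi => ?_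
    obtain ⟨z, h1, h2, h3⟩ := hs (d i) (subset_closure ⟨i, hi, rfl⟩)
    exact ⟨z, Finset.mem_filter.2 ⟨h1, h2.2⟩, (eN _ _ _).2 ⟨h2.1, h3⟩⟩
  · obtain ⟨y, h1, h2⟩ := exists_acc_ne hK hV dd (B := fun i => i ∈ A) (by fun_prop) d1 hA
    have h3 : Y y := ⟨im1 A h2.mem_closure, h1⟩
    refine ⟨y, fun j m => ?_⟩
    obtain ⟨i, h4, h5, h6⟩ := acc_iff.1 h2 _ ((hB y h3).1 j).1 ((hB y h3).1 j).2 m
    exact ⟨i, h4, h5, (eN _ _ _).2 ⟨h3, h6⟩⟩
  · by_cases hc : ∀ m, ∃ k, m ≤ k ∧ Y (y k)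
    · obtain ⟨z, h1, h2⟩ := exists_acc_ne hK hV (d := fun k => if Y (y k) then y k else d 0)
        (by fun_prop) (B := fun k => Y (y k)) (by fun_prop) (k := max n n0) (p := p) (fun k h => by
          split_ifs at h with e
          exacts [hn k ⟨e, hV.mono (le_max_left _ _) h⟩, d1 0 (hV.mono (le_max_right _ _) h)]) hc
      have h3 : Y z := ⟨closure_minimal (by
        rintro _ ⟨k, h, rfl⟩
        simpa only [if_pos h] using h.1) isClosed_closure h2.mem_closure, h1⟩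
      refine ⟨z, fun j m => ?_⟩
      obtain ⟨k, h4, h5, h6⟩ := acc_iff.1 h2 _ ((hB z h3).1 j).1 ((hB z h3).1 j).2 m
      simp only [if_pos h5] at h6
      obtain ⟨l, hl⟩ := (hB _ h5).nhds ((hB z h3).1 j).1 h6
      exact ⟨k, h4, l, fun i hi => (eN _ _ _).2 ⟨h3, hl _ ((eN _ _ _).1 hi).2⟩⟩
    · push Not at hc
      obtain ⟨m0, h0⟩ := hc
      exact ⟨p, fun j m => ⟨max m m0, le_max_left _ _, 0, fun i hi =>
        absurd ((eN _ _ _).1 hi).1 (h0 _ (le_max_right _ _))⟩⟩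
  · obtain ⟨P, dP, p1, p2, p3⟩ := around hK hA
    obtain ⟨R, r1, r2⟩ := pre P dP
    refine ⟨R, fun h => p2 (r2 h), fun z hz => ?_⟩
    have h1 : Y z := let ⟨_, h, _⟩ := hz 0; ((eN _ _ _).1 h).1
    obtain ⟨j, hj⟩ := (hB z h1).nhds p1 (p3 z (mem_closure_iff.2 fun o ho hzo => by
      obtain ⟨j, hj⟩ := (hB z h1).nhds ho hzo
      obtain ⟨i, h2, h3⟩ := hz j
      exact ⟨_, hj _ ((eN _ _ _).1 h2).2, i, h3, rfl⟩))
    exact ⟨j, fun i hi => (r1 i).2 (hj _ ((eN _ _ _).1 hi).2)⟩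

end Pool.Agent.MP_5baa61_gt.JK
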