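import Pool.Agent.MP_b60a07_lc.h92.Trans
import Pool.Agent.MP_5baa61_gt.JK.TSys
import Pool.Agent.MP_5baa61_gt.JK.TDefs

/-! From the absence of trace systems in a model to the topological statement. -/

namespace Pool.Agent.MP_5baa61_gt.JK

open Function Set Pool.Agent.ZF92 Pool.Agent.MP_b60a07_lc.H92
open scoped Classical

set_option linter.unusedSectionVars false

variable {M : Set ZFSet.{0}} [hM : Fact (ZFC M)]

/-- The model has no trace system. -/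
def NoJS (M : Set ZFSet.{0}) [Fact (ZFC M)] : Prop :=
  ∀ (Y : Type 1) [Srt M Y] [Sm M Y] (N : Y → ℕ → PS M ℕ) (I : PS M ℕ → Prop) (hi : Y → ℕ → Prop),
    ¬ JS N I hi

variable {K : Type 1} [Srt M K] [Sm M K] [TopologicalSpace K] [DTop M K] {T : ZFSet.{0}}

theorem openSeq_iff (hT : Rep M K T) {x : K} {b : ℕ → ZFSet} (h : OpenSeq M T (cd M x) b) :
    ∃ c : ℕ → PS M K, DfF M c ∧ (∀ n, IsOpen (c n : Set K) ∧ x ∈ c n) ∧ ∀ n, b n = cd M (c n) := by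
  choose c h1 h2 using fun n => (hT _).1 (h.2 n).1
  obtain rfl : b = fun n => cd M (c n) := funext h2
  exact ⟨c, h.1.df, fun n => ⟨h1 n, cd_mem_cd_ps.1 (h.2 n).2⟩, fun _ => rfl⟩

theorem fc_iff (hT : Rep M K T) {x : K} : FirstCtAt M T (cd M x) ↔ FC M x := by
  constructor
  · rintro ⟨b, h1, h2⟩
    obtain ⟨c, dc, h3, h4⟩ := openSeq_iff hT h1
    refine ⟨c, dc, h3, fun U hU hx => (h2 _ (hT.cd_mem.2 hU) (cd_mem_cd_ps.2 hx)).imp
      fun n hn y hy => cd_mem_cd_ps.1 (hn (h4 n ▸ cd_mem_cd_ps.2 hy))⟩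
  · rintro ⟨c, dc, h1, h2⟩
    exact ⟨fun n => cd M (c n), ⟨seqIn dc, fun n => ⟨hT.cd_mem.2 (h1 n).1, cd_mem_cd_ps.2 (h1 n).2⟩⟩,
      hT.forall.2 fun U hU hx => (h2 U hU (cd_mem_cd_ps.1 hx)).imp fun n hn =>
        forall_cd.2 fun y hy => cd_mem_cd_ps.2 (hn y hy)⟩

theorem exists_wb (hT : Rep M K T) (h : WeakFC M (un M K) T) :
    ∃ V : K → ℕ → PS M K, WB M V := by
  obtain ⟨V, ⟨v, hv, h1⟩, h2, h3⟩ := h
  have h4 : ∀ (x : K) n, ZFSet.pair (ZFSet.pair (cd M x) (nat n)) (V (cd M x) n) ∈ v :=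
    fun x n => (h1 _).2 ⟨_, cd_mem_un x, n, rfl⟩
  choose W hW using fun (x : K) n => exists_ps_sub (pair_mem_iff.1 (trM hv (h4 x n))).2
    (h2 _ (cd_mem_un x) n).2.2
  have e : ∀ x n y, y ∈ W x n ↔ cd M y ∈ V (cd M x) n := fun x n y => by
    rw [← hW, cd_mem_cd_ps]
  refine ⟨W, DfF.of_graph ((DfF.cd_mem_set (f := fun z : (K × ℕ) × PS M K => z) DfF.id hv).congr
    fun z => ⟨fun h => ?_, fun h => ?_⟩), fun x n => (e _ _ _).2 (h2 _ (cd_mem_un x) n).1,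
    fun x n y hy => (e _ _ _).2 ((h2 _ (cd_mem_un x) n).2.1 ((e _ _ _).1 hy)), fun O dO => ?_⟩
  · have := h4 z.1.1 z.1.2
    rw [← hW, h] at this
    exact this
  · obtain ⟨x, -, n, h⟩ := (h1 _).1 h
    simp only [cd_prod, cd_nat, ZFSet.pair_inj, nat_inj.eq_iff] at h
    rw [← cd_inj (M := M), hW, h.2, h.1.1, h.1.2]
  · have e1 : ∀ x, cd M x ∈ cd M (PS.of M O) ↔ O x := fun x => cd_mem_cd_ps.trans (PS.mem_of dO)
    rw [← hT.mem_iff O dO (cd_sub_un _) e1, h3 _ (cd_mem _) (cd_sub_un _), forall_cd]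
    refine forall_congr' fun x => imp_congr (PS.mem_of dO) (exists_congr fun n => ?_)
    rw [← hW]
    exact forall_cd.trans (forall₂_congr fun y _ => e1 y)

theorem top_of_noJS (h : NoJS M) {X : ZFSet} (hX : X ∈ M) (hT : T ∈ M) (h1 : CompactSp M X T)
    (h2 : WeakFC M X T) {p : ZFSet} (hp : p ∈ X) {b : ℕ → ZFSet} (h3 : OpenSeq M T p b)
    (h4 : ∀ x ∈ X, (∀ n, x ∈ b n) → x = p ∨ FirstCtAt M T x) : FirstCtAt M T p := by
  obtain ⟨_, _, k⟩ := exists_topo (K := ⟨X, hX⟩) hT h1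
  have e : un M (El M ⟨X, hX⟩) = X := un_el _
  obtain ⟨_, hK⟩ := k.of_compact (e.symm ▸ h1)
  obtain ⟨V, hV⟩ := exists_wb k (e.symm ▸ h2)
  obtain ⟨p, rfl⟩ := mem_un.1 (e.symm ▸ hp : p ∈ un M (El M ⟨X, hX⟩))
  obtain ⟨c, dc, h5, h6⟩ := openSeq_iff k h3
  by_contra hn
  obtain ⟨N, I, hi, h7⟩ := exists_js hK hV dc h5 (fun y hy => (h4 _ y.mem fun n =>
    h6 n ▸ cd_mem_cd_ps.2 (hy n)).imp (fun e => (cd_inj (M := M)).1 e) (fc_iff k).1) fun e => hn ((fc_iff k).2 e)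
  exact h _ N I hi h7

end Pool.Agent.MP_5baa61_gt.JK
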