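import Pool.Agent.MP_b60a07_lc.h92.Base

/-! The topological reduction inside a transitive model: a point that is not a point of first
countability yields a sequence with ranked cluster points. -/

namespace Pool.Agent.MP_5baa61_gt.JK

open Function Set Pool.Agent.ZF92 Pool.Agent.MP_b60a07_lc.H92
open scoped Classical

set_option linter.unusedSectionVars false

universe u v w

variable {M : Set ZFSet.{0}} [hM : Fact (ZFC M)]
variable {K : Type w} [Srt M K] [Sm M K] [TopologicalSpace K] [DTop M K] [T2Space K]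

/-- A weak base that belongs to `M`. -/
structure WB (M : Set ZFSet.{0}) [Fact (ZFC M)] {K : Type w} [Srt M K] [TopologicalSpace K]
    (V : K → ℕ → PS M K) : Prop where
  df : DfF M fun z : K × ℕ => V z.1 z.2
  self : ∀ x n, x ∈ V x n
  anti : ∀ x n, ∀ y ∈ V x (n + 1), y ∈ V x n
  op : ∀ O : K → Prop, DfF M O → (IsOpen {x | O x} ↔ ∀ x, O x → ∃ n, ∀ y ∈ V x n, O y)

/-- A point of first countability in the sense of `M`. -/
def FC (M : Set ZFSet.{0}) [Fact (ZFC M)] {K : Type w} [Srt M K] [TopologicalSpace K] (x : K) :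
    Prop :=
  ∃ b : ℕ → PS M K, DfF M b ∧ (∀ n, IsOpen (b n : Set K) ∧ x ∈ b n) ∧
    ∀ U : PS M K, IsOpen (U : Set K) → x ∈ U → ∃ n, ∀ y ∈ b n, y ∈ U

instance : Nonempty (PS M K) := ⟨PS.of M fun _ => True⟩

theorem reg (hK : MCpt M K) {s : Set K} (hs : IsOpen s) {x : K} (hx : x ∈ s) :
    ∃ W : PS M K, IsOpen (W : Set K) ∧ x ∈ W ∧ ∀ y ∈ closure (W : Set K), y ∈ s := by
  obtain ⟨U, hU, h1, h2⟩ := exists_ps_nhds (M := M) hs hx
  obtain ⟨t, ht⟩ := hK.subcover (F := fun y => y ∉ U) (by fun_prop) hU.isClosed_compl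
    (U := fun (A : PS M K) y => (IsOpen (A : Set K) ∧ x ∈ A) ∧ y ∉ closure (A : Set K))
    (by fun_prop) (fun A => open_and fun _ => isClosed_closure.isOpen_compl) fun y hy => by
    obtain ⟨a, c, ha, hc, h3, h4, h5⟩ := t2_separation (show x ≠ y from fun e => hy (e ▸ h1))
    obtain ⟨A, hA, h6, h7⟩ := exists_ps_nhds (M := M) ha h3
    exact ⟨A, ⟨hA, h6⟩, fun h => by
      obtain ⟨z, h8, h9⟩ := mem_closure_iff.1 h c hc h4
      exact disjoint_left.1 h5 (h7 z h9) h8⟩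
  have ho : IsOpen (⋂ A ∈ t.filter fun A : PS M K => IsOpen (A : Set K) ∧ x ∈ A, (A : Set K)) :=
    isOpen_biInter_finset fun A hA => (Finset.mem_filter.1 hA).2.1
  obtain ⟨W, hW, h3, h4⟩ := exists_ps_nhds (M := M) ho (x := x)
    (mem_iInter₂.2 fun A hA => (Finset.mem_filter.1 hA).2.2)
  refine ⟨W, hW, h3, fun y hy => h2 y (not_not.1 fun hn => ?_)⟩
  obtain ⟨A, h5, h6, h7⟩ := ht y hn
  exact h7 (closure_mono (fun z hz => mem_iInter₂.1 (h4 z hz) A (Finset.mem_filter.2 ⟨h5, h6⟩)) hy)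

/-- Shrinking a sequence of neighbourhoods. -/
theorem shrink (hK : MCpt M K) {x : K} {b : ℕ → PS M K} (db : DfF M b)
    (hb : ∀ n, IsOpen (b n : Set K) ∧ x ∈ b n) : ∃ W : ℕ → PS M K, DfF M W ∧
      (∀ n, IsOpen (W n : Set K) ∧ x ∈ W n) ∧
      ∀ n, ∀ y ∈ closure (W (n + 1) : Set K), y ∈ W n ∧ y ∈ b n := by
  obtain ⟨s, ds, hs⟩ := exists_choice (M := M) (R := fun (z : ℕ × PS M K) (W : PS M K) =>
    (IsOpen (z.2 : Set K) ∧ x ∈ z.2) → (IsOpen (W : Set K) ∧ x ∈ W) ∧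
      ∀ y, y ∈ closure (W : Set K) → y ∈ z.2 ∧ y ∈ b z.1)
    (by simp only [all_iff, imp_iff]; fun_prop) fun z => by
      by_cases h : IsOpen (z.2 : Set K) ∧ x ∈ z.2
      · obtain ⟨W, h1, h2, h3⟩ := reg hK (h.1.inter (hb z.1).1) ⟨h.2, (hb z.1).2⟩
        exact ⟨W, fun _ => ⟨⟨h1, h2⟩, h3⟩⟩
      · exact ⟨z.2, fun h' => absurd h' h⟩
  let W : ℕ → PS M K := fun n => Nat.rec (motive := fun _ => PS M K) (b 0) (fun n A => s (n, A)) n
  have h1 : ∀ n, IsOpen ((W n : PS M K) : Set K) ∧ x ∈ W n := fun n => by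
    induction n with
    | zero => exact hb 0
    | succ n ih => exact (hs (n, W n) ih).1
  exact ⟨W, DfF.natRec (z := fun _ => b 0) (s := fun _ n A => s (n, A)) (k := fun n => n)
    (by fun_prop) (by fun_prop) DfF.id, h1, fun n => (hs (n, W n) (h1 n)).2⟩

theorem anti_ps {W : ℕ → PS M K} (h : ∀ n, ∀ y ∈ W (n + 1), y ∈ W n) {m n : ℕ} (hmn : m ≤ n)
    {y : K} (hy : y ∈ W n) : y ∈ W m := by
  induction hmn with
  | refl => exact hy
  | step _ ih => exact ih (h _ _ hy)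

theorem fc_of (hK : MCpt M K) {x : K} {b : ℕ → PS M K} (db : DfF M b)
    (hb : ∀ n, IsOpen (b n : Set K) ∧ x ∈ b n) (h : ∀ y, (∀ n, y ∈ b n) → y = x) : FC M x := by
  obtain ⟨W, dW, h1, h2⟩ := shrink hK db hb
  refine ⟨W, dW, h1, fun U hU hx => ?_⟩
  obtain ⟨t, ht⟩ := hK.subcover (F := fun y => y ∉ U) (by fun_prop) hU.isClosed_compl
    (U := fun (n : ℕ) y => y ∉ closure (W (n + 1) : Set K))
    (by fun_prop) (fun A => isClosed_closure.isOpen_compl) fun y hy => by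
    by_contra hn
    push Not at hn
    exact hy (h y (fun n => (h2 n y (hn n)).2) ▸ hx)
  refine ⟨t.sup id + 1, fun y hy => not_not.1 fun hn => ?_⟩
  obtain ⟨n, h3, h4⟩ := ht y hn
  exact h4 (subset_closure (anti_ps (fun n y hy => (h2 n y (subset_closure hy)).1)
    (Nat.succ_le_succ (Finset.le_sup (f := id) h3)) hy))

variable {V : K → ℕ → PS M K}

theorem WB.mono (hV : WB M V) {x y : K} {m n : ℕ} (h : m ≤ n) (hy : y ∈ V x n) : y ∈ V x m :=
  anti_ps (hV.anti x) h hy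

theorem WB.nhds (hV : WB M V) {s : Set K} (hs : IsOpen s) {x : K} (hx : x ∈ s) :
    ∃ n, ∀ y ∈ V x n, y ∈ s := by
  obtain ⟨U, hU, h1, h2⟩ := exists_ps_nhds (M := M) hs hx
  obtain ⟨n, hn⟩ := (hV.op (fun y => y ∈ U) (by fun_prop)).1 hU x h1
  exact ⟨n, fun y hy => h2 y (hn y hy)⟩

/-- Countable tightness. -/
theorem WB.tight (hV : WB M V) {A : K → Prop} (dA : DfF M A) {p : K}
    (hp : p ∈ closure {x | A x}) :
    ∃ d : ℕ → K, DfF M d ∧ (∀ i, A (d i)) ∧ p ∈ closure {x | ∃ i, d i = x} := by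
  have dV := hV.df
  let B : K → Prop := fun x => ∃ d : Fn M ℕ K, (∀ i, A (d.ap i)) ∧ x ∈ closure {y | ∃ i, d.ap i = y}
  have dB : DfF M B := by simp only [B, all_iff]; fun_prop
  have ho : IsOpen {x | ¬ B x} := (hV.op _ dB.not).2 fun x hx => by
    by_contra hn
    push Not at hn
    obtain ⟨e, de, he⟩ := exists_choice (M := M) (R := fun (n : ℕ) (d : Fn M ℕ K) =>
      (∀ i, A (d.ap i)) ∧ ∃ y, y ∈ V x n ∧ y ∈ closure {y | ∃ i, d.ap i = y})
      (by simp only [all_iff]; fun_prop) fun n =>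
        let ⟨y, h1, d, h2, h3⟩ := hn n; ⟨d, h2, y, h1, h3⟩
    obtain ⟨q, dq, hq⟩ := Cts.enum (M := M) (ℕ × ℕ)
    refine hx ⟨⟨fun i => (e (q i).1).ap (q i).2, by fun_prop⟩, fun i => (he _).1 _,
      mem_closure_iff.2 fun o ho hxo => ?_⟩
    obtain ⟨n, h1⟩ := hV.nhds ho hxo
    obtain ⟨y, h2, h3⟩ := (he n).2
    obtain ⟨z, h4, i, h5⟩ := mem_closure_iff.1 h3 o ho (h1 y h2)
    obtain ⟨j, hj⟩ := hq (n, i)
    exact ⟨z, h4, j, by simp only [Fn.ap_mk, hj, h5]⟩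
  by_contra hn
  obtain ⟨y, h1, h2⟩ := mem_closure_iff.1 hp _ ho fun ⟨d, h1, h2⟩ => hn ⟨d.ap, d.df_ap, h1, h2⟩
  exact h1 ⟨⟨fun _ => y, by fun_prop⟩, fun _ => h2, subset_closure ⟨0, rfl⟩⟩

/-- A set that misses a member of the weak base at `p` and is closed except possibly at `p` is
closed. -/
theorem WB.closed (hV : WB M V) {A : K → Prop} (dA : DfF M A) {p : K} {n : ℕ}
    (h1 : ∀ y ∈ V p n, ¬ A y) (h2 : ∀ y ∈ closure {x | A x}, A y ∨ y = p) :
    p ∉ closure {x | A x} := fun hp => by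
  have ho : IsOpen {x | ¬ A x} := (hV.op _ dA.not).2 fun x hx => by
    by_cases e : x = p
    · exact ⟨n, e ▸ h1⟩
    · obtain ⟨m, hm⟩ := hV.nhds isClosed_closure.isOpen_compl
        (show x ∉ closure {x | A x} from fun h => (h2 x h).elim hx e)
      exact ⟨m, fun y hy h => hm y hy (subset_closure h)⟩
  obtain ⟨y, h3, h4⟩ := mem_closure_iff.1 hp _ ho (h1 p (hV.self p n))
  exact h3 h4

/-- A sequence in the closed set of good points that clusters at `p` and misses a member of the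
weak base at `p`. -/
theorem exists_seq (hK : MCpt M K) (hV : WB M V) {p : K} {b : ℕ → PS M K} (db : DfF M b)
    (hb : ∀ n, IsOpen (b n : Set K) ∧ p ∈ b n) (hp : ¬ FC M p) :
    ∃ (d : ℕ → K) (n : ℕ), DfF M d ∧ (∀ i, d i ∉ V p n) ∧ p ∈ closure {x | ∃ i, d i = x} ∧
      ∀ y ∈ closure {x | ∃ i, d i = x}, ∀ n, y ∈ b n := by
  have dV := hV.df
  obtain ⟨W, dW, h1, h2⟩ := shrink hK db hb
  have : ∃ n, p ∈ closure {x | (∀ m, x ∈ W m) ∧ x ∉ V p n} := by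
    by_contra hn
    push Not at hn
    obtain ⟨O, dO, hO⟩ := exists_choice (M := M) (R := fun (n : ℕ) (O : PS M K) =>
      (IsOpen (O : Set K) ∧ p ∈ O) ∧ ∀ y, y ∈ O → y ∈ W n ∧ ((∀ m, y ∈ W m) → y ∈ V p n))
      (by simp only [all_iff, imp_iff]; fun_prop) fun n => by
        obtain ⟨O, g1, g2, g3⟩ := exists_ps_nhds (M := M)
          ((h1 n).1.inter isClosed_closure.isOpen_compl) ⟨(h1 n).2, hn n⟩
        exact ⟨O, ⟨g1, g2⟩, fun y hy => ⟨(g3 y hy).1, fun h => not_not.1 fun h' =>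
          (g3 y hy).2 (subset_closure ⟨h, h'⟩)⟩⟩
    refine hp (fc_of hK dO (fun n => (hO n).1) fun y hy => not_not.1 fun e => ?_)
    obtain ⟨n, g⟩ := hV.nhds (isOpen_compl_singleton (x := y)) (show p ∈ _ from Ne.symm e)
    exact g y (((hO n).2 y (hy n)).2 fun m => ((hO m).2 y (hy m)).1) rfl
  obtain ⟨n, hn⟩ := this
  obtain ⟨d, dd, h3, h4⟩ := hV.tight (by simp only [all_iff]; fun_prop) hn
  exact ⟨d, n, dd, fun i => (h3 i).2, h4, fun y hy m => (h2 m y (closure_mono (by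
    rintro _ ⟨i, rfl⟩; exact (h3 i).1 _) hy)).2⟩

/-- Cluster points of the sequence along a set of indices. -/
def Acc (d : ℕ → K) (B : ℕ → Prop) (y : K) : Prop :=
  ∀ m, y ∈ closure {x | ∃ i, (m ≤ i ∧ B i) ∧ d i = x}

/-- Points of rank at most `n`. -/
def Rk (W : ℕ → PS M K) (n : ℕ) (y : K) : Prop :=
  ∃ O : PS M K, (IsOpen (O : Set K) ∧ y ∈ O) ∧ ∀ z, z ∈ closure (O : Set K) → z ∉ W n

variable {d : ℕ → K} {B C : ℕ → Prop} {p y : K}

theorem df_acc {Z : Type u} [Srt M Z] (dd : DfF M d) {B : Z → ℕ → Prop}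
    (dB : DfF M fun z : Z × ℕ => B z.1 z.2) {g : Z → K} (dg : DfF M g) :
    DfF M fun z => Acc d (B z) (g z) := by
  simp only [Acc, all_iff]; fun_prop

theorem df_rk {Z : Type u} [Srt M Z] {W : ℕ → PS M K} (dW : DfF M W) {k : Z → ℕ} (dk : DfF M k)
    {g : Z → K} (dg : DfF M g) : DfF M fun z => Rk W (k z) (g z) := by
  simp only [Rk, all_iff, imp_iff]; fun_prop

theorem acc_iff : Acc d B y ↔ ∀ o, IsOpen o → y ∈ o → ∀ m, ∃ i, m ≤ i ∧ B i ∧ d i ∈ o :=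
  ⟨fun h o ho hy m => by
    obtain ⟨_, h1, i, h2, rfl⟩ := mem_closure_iff.1 (h m) o ho hy
    exact ⟨i, h2.1, h2.2, h1⟩, fun h m => mem_closure_iff.2 fun o ho hy =>
      let ⟨i, h1, h2, h3⟩ := h o ho hy m; ⟨_, h3, i, ⟨h1, h2⟩, rfl⟩⟩

theorem acc_closed : IsClosed {y | Acc d B y} := by
  convert isClosed_iInter fun m => isClosed_closure (s := {x | ∃ i, (m ≤ i ∧ B i) ∧ d i = x}) using 1
  ext y; simp only [Acc, mem_iInter]; rfl

theorem Acc.mem_closure (h : Acc d B y) : y ∈ closure {x | ∃ i, B i ∧ d i = x} := by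
  refine closure_mono ?_ (h 0)
  exact fun _ ⟨i, h1, h2⟩ => ⟨i, h1.2, h2⟩

theorem acc_or (h : y ∈ closure {x | ∃ i, B i ∧ d i = x}) : (∃ i, B i ∧ d i = y) ∨ Acc d B y := by
  refine or_iff_not_imp_left.2 fun hn => acc_iff.2 fun o ho hy m => ?_
  have hf : ((fun i => d i) '' {i | i < m ∧ B i}).Finite :=
    ((finite_lt_nat m).subset fun _ h => h.1).image _
  obtain ⟨_, ⟨h1, h2⟩, i, h3, rfl⟩ := mem_closure_iff.1 h _ (ho.inter hf.isClosed.isOpen_compl)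
    ⟨hy, fun ⟨i, h1, h2⟩ => hn ⟨i, h1.2, h2⟩⟩
  exact ⟨i, not_lt.1 fun h => h2 ⟨i, ⟨h, h3⟩, rfl⟩, h3, h1⟩

theorem exists_acc (hK : MCpt M K) (dd : DfF M d) (dB : DfF M B) (hB : ∀ m, ∃ i, m ≤ i ∧ B i) :
    ∃ y, Acc d B y := by
  by_contra hn
  simp only [Acc, not_exists, not_forall] at hn
  obtain ⟨s, hs⟩ := hK.subcover (F := fun _ => True) (by fun_prop) isClosed_univ
    (U := fun (m : ℕ) x => x ∉ closure {x | ∃ i, (m ≤ i ∧ B i) ∧ d i = x}) (by fun_prop)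
    (fun N => isClosed_closure.isOpen_compl) fun x _ => hn x
  obtain ⟨i, h1, h2⟩ := hB (s.sup id)
  obtain ⟨m, hm, h⟩ := hs (d i) trivial
  exact h (subset_closure ⟨i, ⟨(Finset.le_sup (f := id) hm).trans h1, h2⟩, rfl⟩)

theorem rk_open {W : ℕ → PS M K} {n : ℕ} : IsOpen {y | Rk W n y} :=
  isOpen_iff_forall_mem_open.2 fun _ ⟨O, h1, h2⟩ => ⟨O, fun _ hz => ⟨O, ⟨h1.1, hz⟩, h2⟩, h1.1, h1.2⟩

theorem Rk.not_mem {W : ℕ → PS M K} {n : ℕ} (h : Rk W n y) : y ∉ W n :=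
  let ⟨_, h1, h2⟩ := h; h2 y (subset_closure h1.2)

theorem Rk.mono (hV : WB M V) {m n : ℕ} (h : Rk (V p) m y) (hmn : m ≤ n) : Rk (V p) n y :=
  let ⟨O, h1, h2⟩ := h; ⟨O, h1, fun z hz hv => h2 z hz (hV.mono hmn hv)⟩

/-- Points outside a neighbourhood of `p` have bounded rank. -/
theorem rk_bound (hK : MCpt M K) (hV : WB M V) {o : Set K} (ho : IsOpen o) (hp : p ∈ o) :
    ∃ n, ∀ y, y ∉ o → Rk (V p) n y := by
  obtain ⟨W, h1, h2, h3⟩ := reg hK ho hp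
  obtain ⟨n, hn⟩ := hV.nhds h1 h2
  refine ⟨n, fun y hy => ?_⟩
  obtain ⟨O, g1, g2, g3⟩ := exists_ps_nhds (M := M) isClosed_closure.isOpen_compl
    (show y ∉ closure (W : Set K) from fun h => hy (h3 y h))
  refine ⟨O, ⟨g1, g2⟩, fun z hz hv => ?_⟩
  obtain ⟨x, g4, g5⟩ := mem_closure_iff.1 hz _ h1 (hn z hv)
  exact g3 x g5 (subset_closure g4)

theorem exists_rk (hK : MCpt M K) (hV : WB M V) (h : y ≠ p) : ∃ n, Rk (V p) n y :=
  let ⟨n, hn⟩ := rk_bound hK hV (isOpen_compl_singleton (x := y)) (show p ∈ _ from h.symm)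
  ⟨n, hn y fun h => h rfl⟩

/-- If the cluster points other than `p` have bounded rank, then `p` is not a cluster point. -/
theorem not_acc (hV : WB M V) (dd : DfF M d) (dB : DfF M B) {n k : ℕ} (hd : ∀ i, d i ∉ V p k)
    (h : ∀ y, Acc d B y → y ≠ p → Rk (V p) n y) : ¬ Acc d B p := fun hp => by
  have da : DfF M fun y => Acc d B y := df_acc dd (B := fun _ => B) (by fun_prop) DfF.id
  refine hV.closed (A := fun y => (∃ i, B i ∧ d i = y) ∨ (Acc d B y ∧ y ≠ p)) (by fun_prop)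
    (n := max n k) ?_ (fun y hy => ?_) (closure_mono (fun _ => .inl) hp.mem_closure)
  · rintro y hy (⟨i, -, rfl⟩ | h1)
    · exact hd i (hV.mono (le_max_right _ _) hy)
    · exact (h y h1.1 h1.2).not_mem (hV.mono (le_max_left _ _) hy)
  · by_cases e : y = p
    · exact .inr e
    · rcases (closure_union (s := {y | ∃ i, B i ∧ d i = y}) (t := {y | Acc d B y ∧ y ≠ p})).subset hy
        with h1 | h1
      · exact .inl ((acc_or h1).imp_right fun h => ⟨h, e⟩)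
      · exact .inl (.inr ⟨closure_minimal (fun _ h => h.1) acc_closed h1, e⟩)

theorem exists_acc_ne (hK : MCpt M K) (hV : WB M V) (dd : DfF M d) (dB : DfF M B) {k : ℕ}
    (hd : ∀ i, d i ∉ V p k) (hB : ∀ m, ∃ i, m ≤ i ∧ B i) : ∃ y, y ≠ p ∧ Acc d B y := by
  obtain ⟨y, hy⟩ := exists_acc hK dd dB hB
  by_contra hn
  push Not at hn
  exact not_acc hV dd dB hd (n := 0) (fun y h e => absurd h (hn y e))
    ((not_not.1 fun e => hn y e hy) ▸ hy)

theorem rk_of_not_acc (hK : MCpt M K) (hV : WB M V) (h : ¬ Acc d B p) :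
    ∃ n, ∀ y, Acc d B y → Rk (V p) n y :=
  let ⟨n, hn⟩ := rk_bound hK hV acc_closed.isOpen_compl h; ⟨n, fun y hy => hn y fun h => h hy⟩

end Pool.Agent.MP_5baa61_gt.JK
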